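import Pool.Agent.Lib.MP_17a322_nt.EG.Defs2
import Pool.Agent.Lib.MP_17a322_nt.VB.Defs

/-!
Families over principal torus bundles over `A`: definitions.
-/

universe u

namespace Pool.Agent.Lib.MP_17a322_nt.VC

open MvPolynomial Height
open Pool.Agent.Lib.MP_17a322_nt.VA
open Pool.Agent.Lib.MP_17a322_nt.SL
open Pool.Agent.Lib.MP_17a322_nt.EF (Mo mo rk part hSub)
open Pool.Agent.Lib.MP_17a322_nt.TB (Tor ev)
open Pool.Agent.Lib.MP_17a322_nt.EG
open Pool.Agent.Lib.MP_17a322_nt.VB (Pl)

section

variable {K : Type u} [Field K] {N q p n m s w : ℕ} {A : AV K N}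

/-- The ideal of the fibre at the point `(P, y)` of the closed subset with the equations `H i`. -/
noncomputable def fbG {L : Type u} [Field L] [Algebra K L] (P : A.Pts L) (y : Fin q × Fin p → L)
    (H : Fin m → Pol K N q p n) : Ideal (MvPolynomial (Fin n) L) :=
  Ideal.span (Set.range fun i => spG P y (H i))

/-- The leading parts in the direction `τ` of the equations `H i`. -/
noncomputable def ldH (τ : Fin q → ℝ) (H : Fin m → Pol K N q p n) (i : Fin m) : Pol K N q p n :=
  ld τ (H i)

variable (T : Tor A q p)

/-- For all directions `τ` the leading parts of the equations define integral closed subsets of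
dimension `t - 1` at the generic points of the bundle (for `τ = 0`: the generic fibre). -/
def Good (H : Fin m → Pol K N q p n) (t : ℕ) : Prop :=
  ∀ (τ : Fin q → ℝ) (L : Type u) [Field L] [IsAlgClosed L] [Algebra K L] (P : A.Pts L)
    (y : Fin q × Fin p → L), GenB T P y →
    (fbG P y (ldH τ H)).IsPrime ∧
      Algebra.trdeg L (MvPolynomial (Fin n) L ⧸ fbG P y (ldH τ H)) = t

/-- In the closed subset of the leading parts of the equations `H i` in the direction `τ`, which has
dimension `t - 1`, the closed subset with the equations in `G` has codimension at least `i` (for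
`i = t`: it is empty). -/
def CodimG (H : Fin m → Pol K N q p n) (t : ℕ) (τ : Fin q → ℝ) (G : Set (Pol K N q p n))
    (i : ℕ) : Prop :=
  ∀ (L : Type u) [Field L] [IsAlgClosed L] [Algebra K L] (P : A.Pts L) (y : Fin q × Fin p → L),
    GenB T P y → CodA (fbG P y (ldH τ H)) t (spG P y '' G) i

/-- `F` is bihomogeneous (with weights) and does not vanish identically on the generic fibre of the
closed subset with the equations `H i`. -/
def ExcG (H : Fin m → Pol K N q p n) (F : Pol K N q p n) : Prop :=
  (∃ a b : ℕ, BG T a b F) ∧
  ∀ (L : Type u) [Field L] [IsAlgClosed L] [Algebra K L] (P : A.Pts L) (y : Fin q × Fin p → L),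
    GenB T P y → spG P y F ∉ fbG P y H

/-- The normalised height of the ideal `I`: the infimum over `k ≥ 1` of `t` times the height of the
space of the forms of degree `k` in `I` divided by `k` times the dimension of the space of the forms
of degree `k` modulo `I`. -/
noncomputable def slopeI [NumberField K] (t : ℕ) (I : Ideal (MvPolynomial (Fin n) K)) : ℝ :=
  ⨅ k : ℕ, t * hSub (part I (k + 1)) / ((k + 1 : ℕ) * rk I (k + 1))

/-- The number `t` times the height of the space of the forms of degree `k` in the ideal `I` (the height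
of its Pluecker coordinates) divided by `k` times the dimension of the space of the forms of degree `k`
modulo `I`. -/
noncomputable def muI [NumberField K] (t : ℕ) (I : Ideal (MvPolynomial (Fin n) K)) (k : ℕ) : ℝ :=
  t * hSub (part I k) / (k * rk I k)

/-! ### Definitions used in the proof -/

/-- The rows of `G'` are a basis of the forms of degree `k` in the ideal of the generic fibre; they are
multiples of the equations by monomials. -/
def IsRw (H : Fin m → Pol K N q p n) (k : ℕ) {g' : ℕ}
    (G' : Matrix (Fin g') (Fin (Mo n k).card) (Pl K N q p)) : Prop :=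
  (∃ D' : Fin g' → ℕ, ∀ i l, T.WH (D' i) (G' i l)) ∧
  (∀ (L : Type u) [Field L] [Algebra K L] (P : A.Pts L) (y : Fin q × Fin p → L), GenB T P y →
    LinearIndependent L (fun i l => ev P y (G' i l)) ∧
    ∀ f : MvPolynomial (Fin n) L, f.IsHomogeneous k →
      (f ∈ fbG P y H ↔
        EF.cf k f ∈ Submodule.span L (Set.range fun i l => ev P y (G' i l)))) ∧
  ∀ i, ∃ (j : Fin m) (ν : Fin n → ℕ) (D d : ℕ), BG T D d (H j) ∧ ∑ l, ν l + d = k ∧
    G' i = cfG k (C (∏ l, X l ^ ν l) * H j)

/-- The leading parts in the direction `τ` are those of the list entry `a`. -/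
def Mat {t e : ℕ} (H : Fin m → Pol K N q p n) (Q Q₀ : Fin e → Fin t → Pol K N q p n)
    (τs : Fin e → Fin q → ℝ) (τ : Fin q → ℝ) (a : Fin e) : Prop :=
  (∀ i, ld τ (H i) = ld (τs a) (H i)) ∧ ∀ i, ld τ (Q a i) = Q₀ a i

/-- A polynomial in the coordinates of `A` and of the bundle as a polynomial of degree zero in
`X_1, ..., X_n`. -/
noncomputable def emb (R : Pl K N q p) : Pol K N q p n :=
  MvPolynomial.map (C : MvPolynomial (Fin (N + 1)) K →+*
    MvPolynomial (Fin n) (MvPolynomial (Fin (N + 1)) K)) R

end

end Pool.Agent.Lib.MP_17a322_nt.VC
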