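import Pool.Agent.Lib.MP_17a322_nt.EG.BDefs
import Pool.Agent.Lib.MP_17a322_nt.VC.Defs

/-!
Families over principal torus bundles over `A`: definitions for the bundles `Bun`.
-/

universe u

namespace Pool.Agent.Lib.MP_17a322_nt.VC

open MvPolynomial Height
open Pool.Agent.Lib.MP_17a322_nt.VA
open Pool.Agent.Lib.MP_17a322_nt.SL
open Pool.Agent.Lib.MP_17a322_nt.TB (ev partWt)
open Pool.Agent.Lib.MP_17a322_nt.EG
open Pool.Agent.Lib.MP_17a322_nt.SV3 (Bun)

section

variable {K : Type u} [Field K] {N q p p' n m s w : ℕ} {A : AV K N} (B : Bun A q p p')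

/-- The multidegrees of the parts of `g` which do not vanish identically over the bundle. -/
def NewV (g : Pol K N q p n) : Set (Fin q → ℕ) :=
  {a | ∃ (L : Type u) (_ : Field L) (_ : Algebra K L) (P : A.Pts L) (y : Fin q × Fin p → L),
    B.On P y ∧ spG P y (ptG a g) ≠ 0}

/-- The support function of the convex hull of `NewV B g`. -/
noncomputable def supV (g : Pol K N q p n) (τ : Fin q → ℝ) : ℝ :=
  ⨆ a : NewV B g, ∑ i, (a.1 i : ℝ) * τ i

/-- The leading parts in the direction `τ` of the equations `H i`. -/
noncomputable def ldV (τ : Fin q → ℝ) (H : Fin m → Pol K N q p n) (i : Fin m) : Pol K N q p n :=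
  partWt τ (supV B (H i) τ) (H i)

/-- For all directions `τ` the leading parts of the equations `H i` define integral closed subsets of
dimension `t - 1` at the generic points of the bundle (for `τ = 0`: the generic fibre). -/
def GoodV (H : Fin m → Pol K N q p n) (t : ℕ) : Prop :=
  ∀ (τ : Fin q → ℝ) (L : Type u) [Field L] [IsAlgClosed L] [Algebra K L] (P : A.Pts L)
    (y : Fin q × Fin p → L), GenP B P y →
    (fbG P y (ldV B τ H)).IsPrime ∧
      Algebra.trdeg L (MvPolynomial (Fin n) L ⧸ fbG P y (ldV B τ H)) = t

/-- `g` vanishes on the generic fibre of the closed subset with the equations `H i`. -/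
def ZerV (H : Fin m → Pol K N q p n) (g : Pol K N q p n) : Prop :=
  ∀ (L : Type u) [Field L] [IsAlgClosed L] [Algebra K L] (P : A.Pts L) (y : Fin q × Fin p → L),
    GenP B P y → spG P y g ∈ fbG P y H

/-- `F` is bihomogeneous (with weights) and does not vanish identically on the generic fibre of the
closed subset with the equations `H i`. -/
def ExcV (H : Fin m → Pol K N q p n) (F : Pol K N q p n) : Prop :=
  (∃ a b : ℕ, BB B a b F) ∧
  ∀ (L : Type u) [Field L] [IsAlgClosed L] [Algebra K L] (P : A.Pts L) (y : Fin q × Fin p → L),
    GenP B P y → spG P y F ∉ fbG P y H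

/-- The multidegrees of the parts of the equations `f l` which do not vanish on the generic fibre. -/
def NewF (H : Fin m → Pol K N q p n) (f : Fin w → Pol K N q p n) : Set (Fin q → ℕ) :=
  {a | ∃ l, ¬ ZerV B H (ptG a (f l))}

/-- The support function of the convex hull of `NewF B H f`. -/
noncomputable def supF (H : Fin m → Pol K N q p n) (f : Fin w → Pol K N q p n)
    (τ : Fin q → ℝ) : ℝ :=
  ⨆ a : NewF B H f, ∑ i, (a.1 i : ℝ) * τ i

/-- The leading parts in the direction `τ` of the equations `f j l`, `l < w`, for `j ∈ U`. -/
def cutF (H : Fin m → Pol K N q p n) (f : Fin s → Fin w → Pol K N q p n) (τ : Fin q → ℝ)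
    (U : Finset (Fin s)) : Set (Pol K N q p n) :=
  {g | ∃ j ∈ U, ∃ l, g = partWt τ (supF B H (f j) τ) (f j l)}

/-- In the closed subset defined by the leading parts in the direction `τ` of the equations `H i`,
which has dimension `t - 1`, the closed subset with the equations in `G` has codimension at least `i`
(for `i = t`: it is empty). -/
def CodimF (H : Fin m → Pol K N q p n) (t : ℕ) (τ : Fin q → ℝ) (G : Set (Pol K N q p n))
    (i : ℕ) : Prop :=
  ∀ (L : Type u) [Field L] [IsAlgClosed L] [Algebra K L] (P : A.Pts L) (y : Fin q × Fin p → L),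
    GenP B P y → ∀ 𝔭 : Ideal (MvPolynomial (Fin n) L), 𝔭.IsPrime → fbG P y (ldV B τ H) ≤ 𝔭 →
      (∀ g ∈ G, spG P y g ∈ 𝔭) → Algebra.trdeg L (MvPolynomial (Fin n) L ⧸ 𝔭) + i ≤ t

/-- The local height of the point `(P, y, X)` with respect to the closed subscheme which the equations
`f l`, `l < w`, define over a toric compactification of the bundle (`supF`, the support function of the
Newton polytope of the family `f l`, is its normalisation at the boundary); the `f l` are forms of
degree `d` with coefficients of weighted degree `D`. -/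
noncomputable def lamF (H : Fin m → Pol K N q p n) {L : Type u} [Field L] [Algebra K L]
    (v : AbsoluteValue L ℝ) (D d : ℕ) (f : Fin w → Pol K N q p n) (P : A.Pts L)
    (y : Fin q × Fin p → L) (X : Fin n → L) : ℝ :=
  d * Real.log (⨆ l, v (X l)) + D * Real.log (⨆ i, v (A.x P i)) + supF B H f (B.tau v P y) -
    Real.log (⨆ l, v (eval X (spG P y (f l))))

/-! ### Definitions used in the proof -/

/-- The equation without the parts that vanish identically. -/
noncomputable def redV (H : Fin m → Pol K N q p n) (i : Fin m) : Pol K N q p n :=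
  open Classical in ∑ μ ∈ (H i).support.filter fun μ => SV3.md μ ∈ NewV B (H i),
    monomial μ (coeff μ (H i))

/-- The equations without the parts that vanish on the generic fibre. -/
noncomputable def redF (H : Fin m → Pol K N q p n) (f : Fin w → Pol K N q p n) (l : Fin w) :
    Pol K N q p n :=
  open Classical in ∑ μ ∈ (f l).support.filter fun μ => SV3.md μ ∈ NewF B H f,
    monomial μ (coeff μ (f l))

end

end Pool.Agent.Lib.MP_17a322_nt.VC
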