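import Pool.Agent.Lib.MP_17a322_nt.VC.Defs
import Pool.Agent.Lib.MP_17a322_nt.EG.R1
import Pool.Agent.Lib.MP_17a322_nt.EG.B1
import Pool.Agent.Lib.MP_17a322_nt.EF.R1
import Pool.Agent.Lib.MP_17a322_nt.EF.V1

/-!
Families over principal torus bundles over `A`: the ideal of the fibre is homogeneous; the forms of
degree `k` in it.
-/

universe u

namespace Pool.Agent.Lib.MP_17a322_nt.VC

open MvPolynomial Height
open Pool.Agent.Lib.MP_17a322_nt.VA
open Pool.Agent.Lib.MP_17a322_nt.SL
open Pool.Agent.Lib.MP_17a322_nt.EF (Mo mo ver cf fam fm rk part hSub sp)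
open Pool.Agent.Lib.MP_17a322_nt.TB (Tor ev maxWt partWt wt supp)
open Pool.Agent.Lib.MP_17a322_nt.EG
open Pool.Agent.Lib.MP_17a322_nt.VB (Pl)

section

variable {L : Type*} [CommRing L] {n : ℕ}

/-- The coefficients of degree `k` of a multiple of a form of larger degree are zero. -/
theorem R1c_cf_zero {k b : ℕ} {h : MvPolynomial (Fin n) L} (hh : h.IsHomogeneous b) (hbk : k < b)
    (g : MvPolynomial (Fin n) L) : cf k (g * h) = 0 := by
  classical
  funext i
  show coeff (Finsupp.equivFunOnFinite.symm (mo n k i)) (g * h) = 0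
  rw [coeff_mul]
  refine Finset.sum_eq_zero fun x hx => ?_
  have h1 : x.2.degree ≤ k := by
    have h2 := Finset.HasAntidiagonal.mem_antidiagonal.mp hx
    have h3 : (x.1 + x.2).degree = k := by
      rw [h2]
      exact EF.mo_degree i
    rw [map_add] at h3
    omega
  rw [hh.coeff_eq_zero (by omega : x.2.degree ≠ b), mul_zero]

/-- The list of the multiples by monomials. -/
theorem R1c_cf_mul {k b : ℕ} {h : MvPolynomial (Fin n) L} (hh : h.IsHomogeneous b)
    (g : MvPolynomial (Fin n) L) :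
    cf k (g * h) ∈ Submodule.span L (Set.range fun ν : {ν : Fin n → Fin (k + 1) //
      ∑ l, (ν l : ℕ) + b = k} => cf k ((∏ l, X l ^ (ν.1 l : ℕ)) * h)) := by
  classical
  by_cases hbk : b ≤ k
  · refine Submodule.span_mono ?_ (EF.R1_cf_mul hh hbk g)
    rintro _ ⟨i, rfl⟩
    have h1 : ∀ l, mo n (k - b) i l < k + 1 := by
      intro l
      have h2 := EF.mo_sum i
      have h3 : mo n (k - b) i l ≤ ∑ l, mo n (k - b) i l :=
        Finset.single_le_sum (f := fun l => mo n (k - b) i l) (fun _ _ => Nat.zero_le _)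
          (Finset.mem_univ l)
      omega
    refine ⟨⟨fun l => ⟨mo n (k - b) i l, h1 l⟩, ?_⟩, rfl⟩
    have h2 := EF.mo_sum i
    show ∑ l, mo n (k - b) i l + b = k
    omega
  · rw [R1c_cf_zero hh (by omega) g]
    exact Submodule.zero_mem _

end

section

variable {K : Type u} [Field K] {N q p n m s w : ℕ} {A : AV K N} (T : Tor A q p)

/-- The multiple of an equation by a monomial at the point `(P, y)`. -/
theorem R1c_sp {L : Type u} [Field L] [Algebra K L] (P : A.Pts L) (y : Fin q × Fin p → L)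
    (ν : Fin n → ℕ) (F : Pol K N q p n) :
    spG P y (C (∏ l, X l ^ ν l) * F : Pol K N q p n) = (∏ l, X l ^ ν l) * spG P y F := by
  rw [spG_mul, spG_C]
  congr 1
  unfold sp
  rw [map_prod]
  refine Finset.prod_congr rfl fun l _ => ?_
  rw [map_pow, map_X]

variable {T}

theorem R1c_hom {L : Type u} [Field L] [Algebra K L] (P : A.Pts L) (y : Fin q × Fin p → L)
    {DH dH : ℕ} {H : Pol K N q p n} (hH : BG T DH dH H) {k : ℕ} {ν : Fin n → ℕ}
    (hν : ∑ l, ν l + dH = k) :
    (spG P y (C (∏ l, X l ^ ν l) * H : Pol K N q p n)).IsHomogeneous k := by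
  rw [R1c_sp, ← hν]
  refine IsHomogeneous.mul ?_ (spG_hom P y hH)
  refine IsHomogeneous.prod _ _ _ fun l _ => ?_
  have h1 := (isHomogeneous_X L l).pow (ν l)
  rwa [one_mul] at h1

variable (T)

/-- Membership of a form of degree `k` in an ideal generated by forms. -/
theorem rw_mem {DH dH : Fin m → ℕ} {H : Fin m → Pol K N q p n}
    (hH : ∀ i, BG T (DH i) (dH i) (H i)) {L : Type u} [Field L] [Algebra K L] (P : A.Pts L)
    (y : Fin q × Fin p → L) {k : ℕ} {f : MvPolynomial (Fin n) L} (hf : f.IsHomogeneous k) :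
    f ∈ fbG P y H ↔ cf k f ∈ Submodule.span L (Set.range fun z : {z : Fin m × (Fin n → Fin (k + 1)) //
      ∑ l, (z.2 l : ℕ) + dH z.1 = k} =>
        cf k (spG P y (C (∏ l, X l ^ (z.1.2 l : ℕ)) * H z.1.1 : Pol K N q p n))) := by
  classical
  constructor
  · intro h
    unfold fbG at h
    rw [Ideal.mem_span_range_iff_exists_fun] at h
    obtain ⟨c, hc⟩ := h
    rw [← hc, ← EF.cfl_apply, map_sum]
    refine Submodule.sum_mem _ fun i _ => ?_
    refine Submodule.span_mono ?_ (R1c_cf_mul (k := k) (spG_hom P y (hH i)) (c i))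
    rintro _ ⟨ν, rfl⟩
    refine ⟨⟨(i, ν.1), ν.2⟩, ?_⟩
    show cf k (spG P y (C (∏ l, X l ^ (ν.1 l : ℕ)) * H i : Pol K N q p n)) = _
    rw [R1c_sp]
  · intro h
    rw [← EF.uncf_cf hf]
    refine Submodule.span_induction (p := fun c _ => EF.uncf k c ∈ fbG P y H) ?_ ?_ ?_ ?_ h
    · rintro _ ⟨z, rfl⟩
      show EF.uncf k (cf k (spG P y (C (∏ l, X l ^ (z.1.2 l : ℕ)) * H z.1.1 :
        Pol K N q p n))) ∈ fbG P y H
      rw [EF.uncf_cf (R1c_hom P y (hH z.1.1) z.2), R1c_sp]
      exact Ideal.mul_mem_left _ _ (Ideal.subset_span ⟨z.1.1, rfl⟩)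
    · have h1 : EF.uncf k (0 : Fin (Mo n k).card → L) = 0 := by
        unfold EF.uncf
        exact Finset.sum_eq_zero fun i _ => by rw [Pi.zero_apply, monomial_zero]
      rw [h1]
      exact Ideal.zero_mem _
    · intro a b _ _ ha hb
      have h1 : EF.uncf k (a + b) = EF.uncf k a + EF.uncf k b := by
        unfold EF.uncf
        rw [← Finset.sum_add_distrib]
        exact Finset.sum_congr rfl fun i _ => by rw [Pi.add_apply, map_add]
      rw [h1]
      exact Ideal.add_mem _ ha hb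
    · intro r a _ ha
      have h1 : EF.uncf k (r • a) = C r * EF.uncf k a := by
        unfold EF.uncf
        rw [Finset.mul_sum]
        exact Finset.sum_congr rfl fun i _ => by rw [Pi.smul_apply, smul_eq_mul, C_mul_monomial]
      rw [h1]
      exact Ideal.mul_mem_left _ _ ha

theorem fbG_gr {DH dH : Fin m → ℕ} {H : Fin m → Pol K N q p n}
    (hH : ∀ i, BG T (DH i) (dH i) (H i)) {L : Type u} [Field L] [Algebra K L] (P : A.Pts L)
    (y : Fin q × Fin p → L) : ∀ f ∈ fbG P y H, ∀ k, homogeneousComponent k f ∈ fbG P y H := by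
  refine EF.R1_span ?_
  rintro _ ⟨i, rfl⟩
  exact ⟨dH i, spG_hom P y (hH i)⟩

/-- The leading part in the direction `0` is everything. -/
theorem R1c_ldH (H : Fin m → Pol K N q p n) : ldH (0 : Fin q → ℝ) H = H := by
  classical
  funext i
  have h0 : ∀ a : Fin q × Fin p →₀ ℕ, wt (0 : Fin q → ℝ) a = 0 := by
    intro a
    unfold wt
    exact Finset.sum_eq_zero fun j _ => by rw [Pi.zero_apply, mul_zero]
  unfold ldH ld
  ext a : 1
  rw [coeff_partWt, h0]
  by_cases h1 : H i = 0
  · rw [h1, coeff_zero, ite_self]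
  · obtain ⟨_, b, _, hb⟩ := exists_maxWt (0 : Fin q → ℝ) (f := fun _ : Fin 1 => H i) ⟨0, h1⟩
    rw [h0] at hb
    unfold EG.mx
    rw [if_pos hb]

theorem Good_zero {H : Fin m → Pol K N q p n} {t : ℕ} (hg : Good T H t) {L : Type u} [Field L]
    [IsAlgClosed L] [Algebra K L] (P : A.Pts L) (y : Fin q × Fin p → L) (hP : GenB T P y) :
    (fbG P y H).IsPrime ∧ Algebra.trdeg L (MvPolynomial (Fin n) L ⧸ fbG P y H) = t := by
  have h1 := hg 0 L P y hP
  rwa [R1c_ldH] at h1

end

end Pool.Agent.Lib.MP_17a322_nt.VC
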