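import Pool.Agent.Lib.MP_17a322_nt.VC.S1
import Pool.Agent.Lib.MP_17a322_nt.VC.R1
import Pool.Agent.Lib.MP_17a322_nt.EG.G1
import Pool.Agent.Lib.MP_17a322_nt.EG.B1
import Pool.Agent.Lib.MP_17a322_nt.EF.V1

/-!
Families over principal torus bundles over `A`: the rows of the forms of degree `k` in the ideal.
-/

universe u

namespace Pool.Agent.Lib.MP_17a322_nt.VC

open MvPolynomial Height
open Pool.Agent.Lib.MP_17a322_nt.VA
open Pool.Agent.Lib.MP_17a322_nt.SL
open Pool.Agent.Lib.MP_17a322_nt.EF (Mo mo ver cf rk BH cf_equiv)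
open Pool.Agent.Lib.MP_17a322_nt.TB (Tor ev)
open Pool.Agent.Lib.MP_17a322_nt.EG
open Pool.Agent.Lib.MP_17a322_nt.VB (Pl)

section

variable {K : Type u} [Field K] {N q p n m : ℕ} {A : AV K N} (T : Tor A q p)

/-- The monomial with the exponents `ν` as a form with constant coefficients. -/
theorem R2_mon (ν : Fin n → ℕ) :
    BH 0 (∑ l, ν l) (∏ l, X l ^ ν l : MvPolynomial (Fin n) (MvPolynomial (Fin (N + 1)) K)) := by
  constructor
  · refine IsHomogeneous.prod _ _ _ fun l _ => ?_
    have h1 := (isHomogeneous_X (MvPolynomial (Fin (N + 1)) K) l).pow (ν l)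
    rwa [one_mul] at h1
  · intro μ
    have h1 : (∏ l, X l ^ ν l : MvPolynomial (Fin n) (MvPolynomial (Fin (N + 1)) K)) =
        monomial (Finsupp.equivFunOnFinite.symm ν) 1 := by
      rw [monomial_eq, C_1, one_mul, Finsupp.prod_fintype _ _ fun l => pow_zero _]
      rfl
    rw [h1, coeff_monomial]
    split_ifs
    · exact isHomogeneous_one _ _
    · exact isHomogeneous_zero _ _ _

variable {T} in
/-- The multiples of the equations. -/
theorem R2_mul {D d k : ℕ} {h : Pol K N q p n} (hh : BG T D d h) {ν : Fin n → ℕ}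
    (hk : ∑ l, ν l + d = k) : BG T D k (C (∏ l, X l ^ ν l) * h : Pol K N q p n) := by
  have h1 := BG_mul (BG_C (T := T) (q := q) (p := p) (R2_mon (K := K) (N := N) ν)) hh
  rw [zero_add, hk] at h1
  exact h1

/-- The vector of the coefficients at a point. -/
theorem R2_cf {L : Type u} [Field L] [Algebra K L] (P : A.Pts L) (y : Fin q × Fin p → L) (k : ℕ)
    (f : Pol K N q p n) : (fun l => ev P y (cfG k f l)) = cf k (spG P y f) := by
  funext l
  exact (cf_spG P y k f l).symm

theorem rw_exists {DH dH : Fin m → ℕ} {H : Fin m → Pol K N q p n}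
    (hH : ∀ i, BG T (DH i) (dH i) (H i)) (k : ℕ) :
    ∃ (g' : ℕ) (G' : Matrix (Fin g') (Fin (Mo n k).card) (Pl K N q p)), IsRw T H k G' := by
  classical
  obtain ⟨L₀, _, _, _, P₀, y₀, h₀⟩ := genB_exists T
  obtain ⟨W, hW⟩ : ∃ W : {z : Fin m × (Fin n → Fin (k + 1)) // ∑ l, (z.2 l : ℕ) + dH z.1 = k} →
      Pol K N q p n, ∀ z, W z = C (∏ l, X l ^ (z.1.2 l : ℕ)) * H z.1.1 := ⟨_, fun z => rfl⟩
  have hWB : ∀ z, BG T (DH z.1.1) k (W z) := fun z => by
    rw [hW]
    exact R2_mul (hH z.1.1) z.2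
  have hw : ∀ z l, T.WH (DH z.1.1) (cfG k (W z) l) := fun z l => cfG_WH (hWB z) l
  obtain ⟨κ, j, hj, hspan, hli⟩ := exists_linearIndependent' (K := L₀)
    (fun z l => ev P₀ y₀ (cfG k (W z) l))
  have hκ : Finite κ := Finite.of_injective j hj
  obtain ⟨g', ⟨e⟩⟩ : ∃ g' : ℕ, Nonempty (Fin g' ≃ κ) := ⟨Nat.card κ, ⟨(Finite.equivFin κ).symm⟩⟩
  refine ⟨g', Matrix.of fun t l => cfG k (W (j (e t))) l,
    ⟨fun t => DH (j (e t)).1.1, fun t l => hw _ _⟩, ?_, ?_⟩
  · intro L _ _ P y hP
    refine ⟨?_, ?_⟩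
    · exact S_li T (u := fun t l => cfG k (W (j (e t))) l) (fun t l => hw _ _) h₀
        (hli.comp e e.injective) hP
    · intro f hf
      rw [rw_mem T hH P y hf]
      have h2 : Submodule.span L
          (Set.range fun z : {z : Fin m × (Fin n → Fin (k + 1)) //
            ∑ l, (z.2 l : ℕ) + dH z.1 = k} =>
            cf k (spG P y (C (∏ l, X l ^ (z.1.2 l : ℕ)) * H z.1.1 : Pol K N q p n))) =
          Submodule.span L (Set.range fun t l =>
            ev P y (Matrix.of (fun t l => cfG k (W (j (e t))) l) t l)) := by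
        apply le_antisymm
        · rw [Submodule.span_le]
          rintro _ ⟨z, rfl⟩
          show cf k _ ∈ _
          rw [← hW, ← R2_cf]
          refine S_span T (u := fun t l => cfG k (W (j (e t))) l) (fun t l => hw _ _)
            (z := fun l => cfG k (W z) l) (fun l => hw _ _) h₀ ?_ hP
          have h3 : (fun l => ev P₀ y₀ (cfG k (W z) l)) ∈ Submodule.span L₀
              (Set.range fun z l => ev P₀ y₀ (cfG k (W z) l)) :=
            Submodule.subset_span ⟨z, rfl⟩
          rw [← hspan] at h3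
          refine Submodule.span_mono ?_ h3
          rintro _ ⟨c, rfl⟩
          refine ⟨e.symm c, ?_⟩
          simp only [Equiv.apply_symm_apply, Function.comp_apply]
        · rw [Submodule.span_le]
          rintro _ ⟨t, rfl⟩
          refine Submodule.subset_span ⟨j (e t), ?_⟩
          show cf k _ = fun l => ev P y (cfG k (W (j (e t))) l)
          rw [← hW, ← R2_cf]
      rw [h2]
  · intro i
    refine ⟨(j (e i)).1.1, fun l => ((j (e i)).1.2 l : ℕ), DH (j (e i)).1.1, dH (j (e i)).1.1,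
      hH _, (j (e i)).2, ?_⟩
    show cfG k (W (j (e i))) = _
    rw [hW]

theorem rw_rk {H : Fin m → Pol K N q p n} {k g' : ℕ}
    {G' : Matrix (Fin g') (Fin (Mo n k).card) (Pl K N q p)} (hG' : IsRw T H k G')
    {L : Type u} [Field L] [Algebra K L] {P : A.Pts L} {y : Fin q × Fin p → L}
    (hP : GenB T P y) : g' + rk (fbG P y H) k = (Mo n k).card := by
  classical
  obtain ⟨-, hG, -⟩ := hG'
  obtain ⟨hli, hmem⟩ := hG L P y hP
  obtain ⟨e, he⟩ := cf_equiv n k L
  have : FiniteDimensional L (homogeneousSubmodule (Fin n) L k) := Module.Finite.equiv e.symm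
  have h1 := LinearMap.finrank_range_add_finrank_ker
    ((Ideal.Quotient.mkₐ L (fbG P y H)).toLinearMap.domRestrict (homogeneousSubmodule (Fin n) L k))
  rw [LinearMap.range_domRestrict, e.finrank_eq, Module.finrank_fin_fun] at h1
  have h2 : (LinearMap.ker ((Ideal.Quotient.mkₐ L (fbG P y H)).toLinearMap.domRestrict
      (homogeneousSubmodule (Fin n) L k))).map (e : homogeneousSubmodule (Fin n) L k →ₗ[L] _) =
      Submodule.span L (Set.range fun i l => ev P y (G' i l)) := by
    ext x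
    rw [Submodule.mem_map]
    constructor
    · rintro ⟨Q, hQ, rfl⟩
      rw [LinearMap.mem_ker, LinearMap.domRestrict_apply] at hQ
      have h3 : (Q : MvPolynomial (Fin n) L) ∈ fbG P y H := Ideal.Quotient.eq_zero_iff_mem.1 hQ
      show e Q ∈ _
      rw [he]
      exact (hmem _ ((mem_homogeneousSubmodule _ _).1 Q.2)).1 h3
    · intro hy
      refine ⟨e.symm x, ?_, e.apply_symm_apply x⟩
      rw [LinearMap.mem_ker, LinearMap.domRestrict_apply]
      refine Ideal.Quotient.eq_zero_iff_mem.2 ?_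
      refine (hmem _ ((mem_homogeneousSubmodule _ _).1 (e.symm x).2)).2 ?_
      rw [← he, e.apply_symm_apply]
      exact hy
  have h3 := LinearEquiv.finrank_map_eq e (LinearMap.ker
    ((Ideal.Quotient.mkₐ L (fbG P y H)).toLinearMap.domRestrict
      (homogeneousSubmodule (Fin n) L k)))
  rw [h2, finrank_span_eq_card hli, Fintype.card_fin] at h3
  rw [← h3] at h1
  unfold rk
  rw [add_comm]
  exact h1

/-- At all points: the points of the fibre are in the kernel. -/
theorem rw_ker {H : Fin m → Pol K N q p n} {k g' : ℕ}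
    {G' : Matrix (Fin g') (Fin (Mo n k).card) (Pl K N q p)} (hG' : IsRw T H k G')
    {L : Type u} [Field L] [Algebra K L] (P : A.Pts L) (y : Fin q × Fin p → L) {X : Fin n → L}
    (hX : ∀ i, eval X (spG P y (H i)) = 0) (i : Fin g') :
    ∑ l, ev P y (G' i l) * ver k X l = 0 := by
  obtain ⟨j, ν, D, d, h1, h2, h3⟩ := hG'.2.2 i
  have h4 : BG T D k (C (∏ l, MvPolynomial.X l ^ ν l) * H j : Pol K N q p n) := R2_mul h1 h2
  rw [h3, sum_cfG P y h4 X, spG_mul, map_mul, hX, mul_zero]

/-- Membership of a form in the ideal of the fibre at one generic point. -/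
theorem rw_transfer {DH dH : Fin m → ℕ} {H : Fin m → Pol K N q p n}
    (hH : ∀ i, BG T (DH i) (dH i) (H i)) {D k : ℕ} {F : Pol K N q p n} (hF : BG T D k F)
    {L₀ : Type u} [Field L₀] [Algebra K L₀] {P₀ : A.Pts L₀} {y₀ : Fin q × Fin p → L₀}
    (h₀ : GenB T P₀ y₀) (h : spG P₀ y₀ F ∈ fbG P₀ y₀ H) {L : Type u} [Field L] [Algebra K L]
    {P : A.Pts L} {y : Fin q × Fin p → L} (hP : GenB T P y) : spG P y F ∈ fbG P y H := by
  rw [rw_mem T hH P₀ y₀ (spG_hom P₀ y₀ hF)] at h
  rw [rw_mem T hH P y (spG_hom P y hF)]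
  simp_rw [← R2_cf] at h ⊢
  exact S_span T (u := fun (z : {z : Fin m × (Fin n → Fin (k + 1)) //
      ∑ l, (z.2 l : ℕ) + dH z.1 = k}) l =>
      cfG k (C (∏ l, X l ^ (z.1.2 l : ℕ)) * H z.1.1 : Pol K N q p n) l)
    (fun z l => cfG_WH (R2_mul (hH z.1.1) z.2) l) (fun l => cfG_WH hF l) h₀ h hP

end

end Pool.Agent.Lib.MP_17a322_nt.VC
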