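import Pool.Agent.Lib.MP_17a322_nt.VC.R1
import Pool.Agent.Lib.MP_17a322_nt.VC.R2
import Pool.Agent.Lib.MP_17a322_nt.EG.B1
import Pool.Agent.Lib.MP_17a322_nt.EF.W6

/-!
Families over principal torus bundles over `A`: exceptional forms.
-/

universe u

namespace Pool.Agent.Lib.MP_17a322_nt.VC

open MvPolynomial Height
open Pool.Agent.Lib.MP_17a322_nt.VA
open Pool.Agent.Lib.MP_17a322_nt.SL
open Pool.Agent.Lib.MP_17a322_nt.EF (Mo mo ver cf fam fm rk part hSub wgt SS)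
open Pool.Agent.Lib.MP_17a322_nt.TB (Tor ev maxWt partWt wt supp)
open Pool.Agent.Lib.MP_17a322_nt.EG
open Pool.Agent.Lib.MP_17a322_nt.VB (Pl mnr InRow IndP IndV Rk ExcV hV)

section

variable {K : Type u} [Field K] {N q p n m s w : ℕ} {A : AV K N} (T : Tor A q p)

/-! ### E: exceptional forms -/

theorem emb_BG {ρ : ℕ} {R : Pl K N q p} (hR : T.WH ρ R) : BG T ρ 0 (emb R : Pol K N q p n) := by
  intro μ hμ
  have h1 : coeff μ (emb R : Pol K N q p n) = C (coeff μ R) := by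
    unfold emb
    rw [coeff_map]
  rw [h1] at hμ ⊢
  have h2 : coeff μ R ≠ 0 := fun h => hμ (by rw [h, C_0])
  obtain ⟨δ, h3, h4⟩ := hR μ h2
  exact ⟨δ, EF.BH_C h3, h4⟩

theorem emb_sp {L : Type u} [Field L] [Algebra K L] (P : A.Pts L) (y : Fin q × Fin p → L)
    (R : Pl K N q p) : spG P y (emb R : Pol K N q p n) = C (ev P y R) := by
  have h : (spH P y).comp (MvPolynomial.map (C : MvPolynomial (Fin (N + 1)) K →+*
      MvPolynomial (Fin n) (MvPolynomial (Fin (N + 1)) K))) =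
      (C : L →+* MvPolynomial (Fin n) L).comp ((eval y).comp
        (MvPolynomial.map (aeval (A.x P) : MvPolynomial (Fin (N + 1)) K →ₐ[K] L).toRingHom)) := by
    refine MvPolynomial.ringHom_ext (fun r => ?_) (fun i => ?_)
    · simp only [RingHom.comp_apply, map_C, eval_C]
      rw [spH_apply, spG_C]
      unfold EF.sp
      rw [map_C]
    · simp only [RingHom.comp_apply, map_X, eval_X]
      rw [spH_apply, spG_X]
  exact DFunLike.congr_fun h R

theorem ExcG_mul {t : ℕ} {H : Fin m → Pol K N q p n} (hg : Good T H t) {F F' : Pol K N q p n}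
    (hF : ExcG T H F) (hF' : ExcG T H F') : ExcG T H (F * F') := by
  obtain ⟨⟨a, b, h1⟩, h2⟩ := hF
  obtain ⟨⟨a', b', h1'⟩, h2'⟩ := hF'
  refine ⟨⟨_, _, BG_mul h1 h1'⟩, ?_⟩
  intro L _ _ _ P y hP h
  rw [spG_mul] at h
  rcases (Good_zero T hg P y hP).1.mem_or_mem h with h | h
  · exact h2 L P y hP h
  · exact h2' L P y hP h

theorem ExcG_one {t : ℕ} {H : Fin m → Pol K N q p n} (hg : Good T H t) :
    ExcG T H (1 : Pol K N q p n) := by
  refine ⟨⟨_, _, BG_one T⟩, ?_⟩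
  intro L _ _ _ P y hP h
  have h1 : spG P y (1 : Pol K N q p n) = 1 := map_one (spH P y)
  rw [h1] at h
  exact (Good_zero T hg P y hP).1.ne_top ((Ideal.eq_top_iff_one _).2 h)

theorem ExcG_emb {t : ℕ} {H : Fin m → Pol K N q p n} (hg : Good T H t) {ρ : ℕ}
    {R : Pl K N q p} (hR : T.WH ρ R)
    (h0 : ∀ (L : Type u) [Field L] [IsAlgClosed L] [Algebra K L] (P : A.Pts L)
      (y : Fin q × Fin p → L), GenB T P y → ev P y R ≠ 0) :
    ExcG T H (emb R : Pol K N q p n) := by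
  refine ⟨⟨_, _, emb_BG T hR⟩, ?_⟩
  intro L _ _ _ P y hP h
  rw [emb_sp] at h
  have h1 : IsUnit (C (ev P y R) : MvPolynomial (Fin n) L) :=
    (IsUnit.mk0 _ (h0 L P y hP)).map C
  exact (Good_zero T hg P y hP).1.ne_top (Ideal.eq_top_of_isUnit_mem _ h h1)

/-- One generic point is enough. -/
theorem ExcG_of {DH dH : Fin m → ℕ} {H : Fin m → Pol K N q p n}
    (hH : ∀ i, BG T (DH i) (dH i) (H i)) {D k : ℕ} {F : Pol K N q p n} (hF : BG T D k F)
    {L₀ : Type u} [Field L₀] [Algebra K L₀] {P₀ : A.Pts L₀} {y₀ : Fin q × Fin p → L₀}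
    (h₀ : GenB T P₀ y₀) (h : spG P₀ y₀ F ∉ fbG P₀ y₀ H) : ExcG T H F := by
  refine ⟨⟨_, _, hF⟩, ?_⟩
  intro L _ _ _ P y hP hc
  exact h (rw_transfer T hH hF hP hc h₀)

end

end Pool.Agent.Lib.MP_17a322_nt.VC
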