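import Pool.Agent.Lib.MP_17a322_nt.VC.Defs
import Pool.Agent.Lib.MP_17a322_nt.VC.E1
import Pool.Agent.Lib.MP_17a322_nt.VC.R1
import Pool.Agent.Lib.MP_17a322_nt.EG.E1
import Pool.Agent.Lib.MP_17a322_nt.EG.G1

/-!
Families over principal torus bundles over `A`: a generic point of the bundle over a generic point of
`A`; exceptional polynomials in the Veronese vector.
-/

universe u

namespace Pool.Agent.Lib.MP_17a322_nt.VC

open MvPolynomial Height
open Pool.Agent.Lib.MP_17a322_nt.VA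
open Pool.Agent.Lib.MP_17a322_nt.SL
open Pool.Agent.Lib.MP_17a322_nt.EF (Mo mo ver cf)
open Pool.Agent.Lib.MP_17a322_nt.TB (Tor ev)
open Pool.Agent.Lib.MP_17a322_nt.EG
open Pool.Agent.Lib.MP_17a322_nt.VB (Pl ExcV)

section

variable {K : Type u} [Field K] {N q p n m s w : ℕ} {A : AV K N} (T : Tor A q p)

/-- A generic point of the bundle over a generic point of `A`. -/
theorem E_gen : ∃ (L₁ : Type u) (_ : Field L₁) (_ : IsAlgClosed L₁) (_ : Algebra K L₁)
    (P₁ : A.Pts L₁) (L₀ : Type u) (_ : Field L₀) (_ : IsAlgClosed L₀) (_ : Algebra K L₀)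
    (φ : MvPolynomial (Fin q) L₁ →ₐ[K] L₀) (P₀ : A.Pts L₀) (y₀ : Fin q × Fin p → L₀) (c : L₀),
    Gen A P₁ ∧ GenB T P₀ y₀ ∧ (∀ f, φ f = 0 → f = 0) ∧ c ≠ 0 ∧
      (∀ i, φ (C (A.x P₁ i)) = c * A.x P₀ i) ∧
      ∀ i : Fin q × Fin p, φ (C (aeval (A.x P₁) (T.η i.1 i.2)) * X i.1) =
        c ^ T.k i.1 * y₀ i := by
  obtain ⟨L₁, _, _, _, P₁, hP₁⟩ := EF.T_gen A
  let R : Type u := MvPolynomial (Fin q) L₁
  let M : Type u := FractionRing R
  let L : Type u := AlgebraicClosure M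
  let φ : R →ₐ[K] L := (IsScalarTower.toAlgHom K M L).comp (IsScalarTower.toAlgHom K R M)
  have hφ : ∀ f, φ f = 0 → f = 0 := by
    intro f h
    have h1 : φ f = algebraMap M L (algebraMap R M f) := rfl
    rw [h1] at h
    have h2 := (map_eq_zero_iff _ (algebraMap M L).injective).1 h
    exact (map_eq_zero_iff _ (IsFractionRing.injective R M)).1 h2
  let ψ : L₁ →ₐ[K] L := φ.comp (IsScalarTower.toAlgHom K L₁ R)
  have hψ : ∀ a, ψ a = φ (C a) := fun a => rfl
  have hC : ∀ f : MvPolynomial (Fin (N + 1)) K,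
      ψ (aeval (A.x P₁) f) = aeval (fun i => ψ (A.x P₁ i)) f := by
    intro f
    exact comp_aeval_apply (A.x P₁) ψ f
  have hψ0 : ∀ a, ψ a = 0 → a = 0 := fun a h => (map_eq_zero_iff _ ψ.toRingHom.injective).1 h
  have hpt : A.IsPt fun i => ψ (A.x P₁ i) := by
    intro f hf
    rw [← hC, EF.R0_pt A P₁ f hf, map_zero]
  have hne : (fun i => ψ (A.x P₁ i)) ≠ 0 := by
    intro h0
    obtain ⟨i, hi⟩ := A.exists_x_ne P₁
    exact hi (hψ0 _ (congrFun h0 i))
  obtain ⟨P, c, hc, hP⟩ := AV.exists_rep hne hpt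
  have hP' : (fun i => ψ (A.x P₁ i)) = fun i => c * A.x P i := funext hP
  have hgen : Gen A P := by
    intro f d hf h0
    refine hP₁ f d hf (hψ0 _ ?_)
    rw [hC, hP', aeval_mul_homog hf, h0, mul_zero]
  refine ⟨L₁, inferInstance, inferInstance, inferInstance, P₁, L, inferInstance, inferInstance,
    inferInstance, φ, P,
    fun i => (c ^ T.k i.1)⁻¹ * (φ (X i.1) * ψ (aeval (A.x P₁) (T.η i.1 i.2))), c, hP₁,
    ⟨hgen, ?_, ?_⟩, hφ, hc, fun i => hP i, ?_⟩
  · intro i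
    constructor
    · obtain ⟨j, hj⟩ := T.ne i
      refine ⟨j, mul_ne_zero (inv_ne_zero (pow_ne_zero _ hc)) (mul_ne_zero ?_ ?_)⟩
      · intro h
        exact X_ne_zero i (hφ _ h)
      · intro h
        exact hj (hP₁ _ _ (T.hom i j) (hψ0 _ h))
    · refine ⟨(c ^ T.k i)⁻¹ * φ (X i) * c ^ T.e i, fun j => ?_⟩
      show (c ^ T.k i)⁻¹ * (φ (X i) * ψ (aeval (A.x P₁) (T.η i j))) = _
      rw [hC, hP', aeval_mul_homog (T.hom i j)]
      ring
  · intro D b hb h0
    have h1 := G1_scale T hb c hP' (y := fun i => φ (X i.1) * ψ (aeval (A.x P₁) (T.η i.1 i.2)))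
      (y' := fun i => (c ^ T.k i.1)⁻¹ * (φ (X i.1) * ψ (aeval (A.x P₁) (T.η i.1 i.2))))
      (fun i => (mul_inv_cancel_left₀ (pow_ne_zero _ hc) _).symm)
    have h2 : eval₂ (aeval (A.x P) : MvPolynomial (Fin (N + 1)) K →ₐ[K] L).toRingHom
        (fun i => (c ^ T.k i.1)⁻¹ * (φ (X i.1) * ψ (aeval (A.x P₁) (T.η i.1 i.2)))) b = 0 := by
      rw [← h0]
      unfold ev
      rw [eval_map]
    rw [h2, mul_zero] at h1
    have h3 : φ (T.sp P₁ b) = eval₂ (aeval (fun i => ψ (A.x P₁ i)) :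
        MvPolynomial (Fin (N + 1)) K →ₐ[K] L).toRingHom
        (fun i => φ (X i.1) * ψ (aeval (A.x P₁) (T.η i.1 i.2))) b := by
      unfold Tor.sp
      show φ.toRingHom _ = _
      rw [hom_eval₂]
      have h4 : φ.toRingHom.comp ((C : L₁ →+* MvPolynomial (Fin q) L₁).comp
          (aeval (A.x P₁) : MvPolynomial (Fin (N + 1)) K →ₐ[K] L₁).toRingHom) =
          (aeval (fun i => ψ (A.x P₁ i)) : MvPolynomial (Fin (N + 1)) K →ₐ[K] L).toRingHom :=
        RingHom.ext fun f => hC f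
      have h5 : (φ.toRingHom ∘ fun i : Fin q × Fin p => C (aeval (A.x P₁) (T.η i.1 i.2)) * X i.1) =
          fun i => φ (X i.1) * ψ (aeval (A.x P₁) (T.η i.1 i.2)) := by
        funext i
        show φ (C (aeval (A.x P₁) (T.η i.1 i.2)) * X i.1) = _
        rw [map_mul, mul_comm]
        rfl
      rw [h4]
      exact congrArg (fun g => eval₂ (aeval (fun i => ψ (A.x P₁ i)) :
        MvPolynomial (Fin (N + 1)) K →ₐ[K] L).toRingHom g b) h5
    rw [← h3] at h1
    exact G1_sp_zero T hb hP₁ (hφ _ h1) P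
  · intro i
    rw [map_mul, mul_comm, mul_inv_cancel_left₀ (pow_ne_zero _ hc)]
    rfl

section

variable {L₁ : Type u} [Field L₁] [Algebra K L₁] {P₁ : A.Pts L₁} {L₀ : Type u} [Field L₀]
  [Algebra K L₀] {φ : MvPolynomial (Fin q) L₁ →ₐ[K] L₀} {P₀ : A.Pts L₀}
  {y₀ : Fin q × Fin p → L₀} {c : L₀}

/-- The values at the two points of `E_gen`. -/
theorem E2_sp (hx : ∀ i, φ (C (A.x P₁ i)) = c * A.x P₀ i)
    (hy : ∀ i : Fin q × Fin p, φ (C (aeval (A.x P₁) (T.η i.1 i.2)) * X i.1) =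
        c ^ T.k i.1 * y₀ i) {D : ℕ} {b : Pl K N q p} (hb : T.WH D b) :
    φ (T.sp P₁ b) = c ^ D * ev P₀ y₀ b := by
  have h1 := G1_scale T hb c (x := fun i => φ (C (A.x P₁ i))) (x' := A.x P₀) (funext hx)
    (y := fun i => φ (C (aeval (A.x P₁) (T.η i.1 i.2)) * X i.1)) (y' := y₀) hy
  have h2 : ev P₀ y₀ b =
      eval₂ (aeval (A.x P₀) : MvPolynomial (Fin (N + 1)) K →ₐ[K] L₀).toRingHom y₀ b := by
    unfold ev
    rw [eval_map]
  rw [h2, ← h1]
  unfold Tor.sp
  show φ.toRingHom _ = _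
  rw [hom_eval₂]
  have h4 : φ.toRingHom.comp ((C : L₁ →+* MvPolynomial (Fin q) L₁).comp
      (aeval (A.x P₁) : MvPolynomial (Fin (N + 1)) K →ₐ[K] L₁).toRingHom) =
      (aeval (fun i => φ (C (A.x P₁ i))) : MvPolynomial (Fin (N + 1)) K →ₐ[K] L₀).toRingHom := by
    refine RingHom.ext fun f => ?_
    exact comp_aeval_apply (A.x P₁) (φ.comp (IsScalarTower.toAlgHom K L₁
      (MvPolynomial (Fin q) L₁))) f
  rw [h4]
  rfl

/-- The pullback at the two points of `E_gen`. -/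
theorem E2_pull (hx : ∀ i, φ (C (A.x P₁ i)) = c * A.x P₀ i)
    (hy : ∀ i : Fin q × Fin p, φ (C (aeval (A.x P₁) (T.η i.1 i.2)) * X i.1) =
        c ^ T.k i.1 * y₀ i) {k a : ℕ}
    {F : MvPolynomial (Fin (N + 1) ⊕ (Fin q × Fin p) ⊕ Fin (Mo n k).card) K}
    (hF : ∀ m ∈ F.support,
      ∑ i, m (Sum.inl i) + ∑ i, T.k i.1 * m (Sum.inr (Sum.inl i)) = a) :
    C (c ^ a) * spG P₀ y₀ (pullG n k F : Pol K N q p n) =
      eval₂Hom ((C : L₀ →+* MvPolynomial (Fin n) L₀).comp φ.toRingHom)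
        (fun l => ver k (X : Fin n → MvPolynomial (Fin n) L₀) l)
        (aeval (Sum.elim (fun i => (C (C (A.x P₁ i)) :
            MvPolynomial (Fin (Mo n k).card) (MvPolynomial (Fin q) L₁)))
          (Sum.elim (fun i => C (C (aeval (A.x P₁) (T.η i.1 i.2)) * X i.1)) X)) F) := by
  have h1 : spG P₀ y₀ (pullG n k F : Pol K N q p n) =
      eval₂Hom ((C : L₀ →+* MvPolynomial (Fin n) L₀).comp (algebraMap K L₀))
        (Sum.elim (fun i => (C (A.x P₀ i) : MvPolynomial (Fin n) L₀))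
        (Sum.elim (fun i => C (y₀ i)) (ver k X))) F := by
    rw [Ex_spG]
    unfold pullG
    rw [map_aeval]
    have h2 : ((eval₂Hom (MvPolynomial.map (aeval (A.x P₀) :
        MvPolynomial (Fin (N + 1)) K →ₐ[K] L₀).toRingHom) fun i => C (y₀ i)).comp
        (algebraMap K (Pol K N q p n))) =
        (C : L₀ →+* MvPolynomial (Fin n) L₀).comp (algebraMap K L₀) := by
      refine RingHom.ext fun a => ?_
      have h1 : algebraMap K (Pol K N q p n) a = C (C (C a)) := rfl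
      rw [RingHom.comp_apply, h1, coe_eval₂Hom, eval₂_C, map_C]
      exact congrArg C (algHom_C _ _)
    rw [h2]
    refine congrArg (fun g => eval₂Hom ((C : L₀ →+* MvPolynomial (Fin n) L₀).comp
      (algebraMap K L₀)) g F) ?_
    funext i
    rcases i with i | i | i
    · simp only [Sum.elim_inl, coe_eval₂Hom, eval₂_C, map_C]
      exact congrArg C (aeval_X _ _)
    · simp only [Sum.elim_inl, Sum.elim_inr, coe_eval₂Hom, eval₂_X]
    · simp only [Sum.elim_inr, coe_eval₂Hom, eval₂_C, ver, map_prod, map_pow, map_X]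
  rw [h1, map_aeval]
  have h3 : ((eval₂Hom ((C : L₀ →+* MvPolynomial (Fin n) L₀).comp φ.toRingHom)
      (fun l => ver k (X : Fin n → MvPolynomial (Fin n) L₀) l)).comp
      (algebraMap K (MvPolynomial (Fin (Mo n k).card) (MvPolynomial (Fin q) L₁)))) =
      (C : L₀ →+* MvPolynomial (Fin n) L₀).comp (algebraMap K L₀) := by
    refine RingHom.ext fun a => ?_
    have h2 : algebraMap K (MvPolynomial (Fin (Mo n k).card) (MvPolynomial (Fin q) L₁)) a =
      C (algebraMap K (MvPolynomial (Fin q) L₁) a) := rfl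
    rw [RingHom.comp_apply, h2, coe_eval₂Hom, eval₂_C]
    exact congrArg C (φ.commutes a)
  rw [h3, coe_eval₂Hom, coe_eval₂Hom, eval₂_eq', eval₂_eq', Finset.mul_sum]
  refine Finset.sum_congr rfl fun m hm => ?_
  rw [Fintype.prod_sum_type, Fintype.prod_sum_type, Fintype.prod_sum_type, Fintype.prod_sum_type]
  simp only [Sum.elim_inl, Sum.elim_inr]
  have h5 : ∀ z : MvPolynomial (Fin q) L₁,
      eval₂Hom ((C : L₀ →+* MvPolynomial (Fin n) L₀).comp φ.toRingHom)
        (fun l => ver k (X : Fin n → MvPolynomial (Fin n) L₀) l) (C z) = C (φ z) := fun z => by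
    rw [coe_eval₂Hom, eval₂_C]
    rfl
  have h6 : ∀ l, eval₂Hom ((C : L₀ →+* MvPolynomial (Fin n) L₀).comp φ.toRingHom)
        (fun l => ver k (X : Fin n → MvPolynomial (Fin n) L₀) l) (X l) = ver k X l := fun l => by
    rw [coe_eval₂Hom, eval₂_X]
  have h7 : ∏ i, (C (φ (C (A.x P₁ i))) : MvPolynomial (Fin n) L₀) ^ m (Sum.inl i) =
      C (c ^ (∑ i, m (Sum.inl i))) * ∏ i, C (A.x P₀ i) ^ m (Sum.inl i) := by
    rw [← Finset.prod_pow_eq_pow_sum, map_prod, ← Finset.prod_mul_distrib]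
    refine Finset.prod_congr rfl fun i _ => ?_
    rw [hx, map_mul, mul_pow, map_pow]
  have h8 : ∏ i : Fin q × Fin p, (C (φ (C (aeval (A.x P₁) (T.η i.1 i.2)) * X i.1)) :
        MvPolynomial (Fin n) L₀) ^ m (Sum.inr (Sum.inl i)) =
      C (c ^ (∑ i, T.k i.1 * m (Sum.inr (Sum.inl i)))) *
        ∏ i, C (y₀ i) ^ m (Sum.inr (Sum.inl i)) := by
    rw [← Finset.prod_pow_eq_pow_sum, map_prod, ← Finset.prod_mul_distrib]
    refine Finset.prod_congr rfl fun i _ => ?_
    rw [hy, map_mul, mul_pow, map_pow, map_pow, ← pow_mul]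
  simp only [h5, h6]
  rw [h7, h8, ← hF m hm, pow_add, map_mul]
  ring

end

theorem pullG_excC {t : ℕ} {DH dH : Fin m → ℕ} {H : Fin m → Pol K N q p n}
    (hH : ∀ i, BG T (DH i) (dH i) (H i)) (hg : Good T H t) {k g' : ℕ}
    {G' : Matrix (Fin g') (Fin (Mo n k).card) (Pl K N q p)} (hG' : IsRw T H k G')
    {F : MvPolynomial (Fin (N + 1) ⊕ (Fin q × Fin p) ⊕ Fin (Mo n k).card) K}
    (hF : ExcV T G' F) : ExcG T H (pullG n k F) := by
  classical
  obtain ⟨⟨a, b, hab⟩, hF2⟩ := hF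
  obtain ⟨L₁, _, _, _, P₁, L₀, _, _, _, φ, P₀, y₀, c, hP₁, h₀, hφ, hc, hx, hy⟩ := E_gen T
  refine ExcG_of T hH (Ex_pull_BG T F hab) h₀ fun hmem => ?_
  obtain ⟨c', s, z, hc', hz, hzF⟩ := hF2 L₁ P₁ hP₁
  have hI := (Good_zero T hg P₀ y₀ h₀).1
  have h1 := E2_pull T hx hy (n := n) fun m hm => (hab m hm).1
  have hmem2 := Ideal.mul_mem_left _ (C (c ^ a)) hmem
  rw [h1, hzF, map_mul, map_prod] at hmem2
  have h5 : ∀ z : MvPolynomial (Fin q) L₁,
      eval₂Hom ((C : L₀ →+* MvPolynomial (Fin n) L₀).comp φ.toRingHom)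
        (fun l => ver k (X : Fin n → MvPolynomial (Fin n) L₀) l) (C z) = C (φ z) := fun z => by
    rw [coe_eval₂Hom, eval₂_C]
    rfl
  rcases hI.mem_or_mem hmem2 with h | h
  · rw [h5] at h
    refine hI.ne_top (Ideal.eq_top_of_isUnit_mem _ h ((IsUnit.mk0 _ ?_).map _))
    exact fun h2 => hc' (hφ _ h2)
  · obtain ⟨j, -, hj⟩ := (hI.prod_mem_iff).1 h
    obtain ⟨w, hw, hne⟩ := hz j
    apply hne
    refine hφ _ ?_
    have h2 : eval₂Hom ((C : L₀ →+* MvPolynomial (Fin n) L₀).comp φ.toRingHom)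
        (fun l => ver k (X : Fin n → MvPolynomial (Fin n) L₀) l)
        (∑ l, C (z j l) * X l) = EF.uncf k fun l => φ (z j l) := by
      rw [map_sum, EF.uncf]
      refine Finset.sum_congr rfl fun l _ => ?_
      rw [map_mul, h5, coe_eval₂Hom, eval₂_X, monomial_eq,
        Finsupp.prod_fintype _ _ (fun l => pow_zero _)]
      simp only [Finsupp.equivFunOnFinite_symm_apply_apply]
      rfl
    rw [h2, (hG'.2.1 L₀ P₀ y₀ h₀).2 _ (EF.uncf_hom _), EF.cf_uncf] at hj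
    obtain ⟨D', hD'⟩ := hG'.1
    have h4 : ∀ u ∈ Submodule.span L₀ (Set.range fun i l => ev P₀ y₀ (G' i l)),
        ∑ l, u l * φ (w l) = 0 := by
      intro u hu
      induction hu using Submodule.span_induction with
      | mem u hu =>
        obtain ⟨i, rfl⟩ := hu
        refine (mul_eq_zero_iff_left (pow_ne_zero (D' i) hc)).1 ?_
        rw [Finset.mul_sum]
        have h6 := congrArg φ (hw i)
        rw [map_zero, map_sum] at h6
        rw [← h6]
        refine Finset.sum_congr rfl fun l _ => ?_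
        rw [map_mul, E2_sp T hx hy (hD' i l), mul_assoc]
      | zero => simp
      | add u u' _ _ h h' =>
        simp only [Pi.add_apply, add_mul, Finset.sum_add_distrib, h, h', add_zero]
      | smul t u _ h =>
        simp only [Pi.smul_apply, smul_eq_mul, mul_assoc, ← Finset.mul_sum, h, mul_zero]
    rw [map_sum, ← h4 _ hj]
    refine Finset.sum_congr rfl fun l _ => ?_
    rw [map_mul]

end

end Pool.Agent.Lib.MP_17a322_nt.VC
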