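import Pool.Agent.Lib.MP_17a322_nt.VC.E1
import Pool.Agent.Lib.MP_17a322_nt.TB.N1

/-!
Families over principal torus bundles over `A`: vertical divisors.
-/

universe u

namespace Pool.Agent.Lib.MP_17a322_nt.VC

open MvPolynomial Height
open Pool.Agent.Lib.MP_17a322_nt.VA
open Pool.Agent.Lib.MP_17a322_nt.SL
open Pool.Agent.Lib.MP_17a322_nt.EF (Mo mo)
open Pool.Agent.Lib.MP_17a322_nt.TB (Tor ev maxWt partWt wt supp)
open Pool.Agent.Lib.MP_17a322_nt.EG
open Pool.Agent.Lib.MP_17a322_nt.VB (Pl mnr InRow IndP IndV Rk ExcV hV)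

section

variable {K : Type u} [Field K] {N q p n m s w : ℕ} {A : AV K N} (T : Tor A q p)

/-- The polynomial without the last coordinate. -/
private noncomputable def E3_R (F : MvPolynomial (Fin (N + 1) ⊕ (Fin q × Fin p) ⊕ Fin 1) K) : Pl K N q p :=
  aeval (Sum.elim (fun i => (C (X i) : Pl K N q p)) (Sum.elim (fun i => X i) fun _ => 1)) F

private theorem E3_ev {L : Type u} [Field L] [Algebra K L] (P : A.Pts L) (y : Fin q × Fin p → L)
    (F : MvPolynomial (Fin (N + 1) ⊕ (Fin q × Fin p) ⊕ Fin 1) K) :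
    ev P y (E3_R F) = aeval (Sum.elim (A.x P) (Sum.elim y fun _ : Fin 1 => 1)) F := by
  let φ : Pl K N q p →ₐ[K] L :=
    ((aeval y : MvPolynomial (Fin q × Fin p) L →ₐ[L] L).restrictScalars K).comp
      (mapAlgHom (aeval (A.x P) : MvPolynomial (Fin (N + 1)) K →ₐ[K] L))
  have h1 : ev P y (E3_R F) = φ (E3_R F) := rfl
  rw [h1]
  unfold E3_R
  rw [← AlgHom.comp_apply, comp_aeval]
  have h3 : (fun i => φ (Sum.elim (fun i => (C (X i) : Pl K N q p))
      (Sum.elim (fun i => X i) fun _ : Fin 1 => 1) i)) =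
      Sum.elim (A.x P) (Sum.elim y fun _ : Fin 1 => 1) := by
    funext i
    rcases i with i | i | i
    · simp [φ]
    · simp [φ]
    · simp only [Sum.elim_inr, map_one]
  rw [h3]

private theorem E3_sp {L : Type u} [Field L] [Algebra K L] (P : A.Pts L)
    (F : MvPolynomial (Fin (N + 1) ⊕ (Fin q × Fin p) ⊕ Fin 1) K) :
    T.sp P (E3_R F) = eval (fun _ : Fin 1 => (1 : MvPolynomial (Fin q) L))
      (aeval (Sum.elim (fun i => (C (C (A.x P i)) : MvPolynomial (Fin 1) (MvPolynomial (Fin q) L)))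
        (Sum.elim (fun i => C (C (aeval (A.x P) (T.η i.1 i.2)) * X i.1)) X)) F) := by
  let ψ : MvPolynomial (Fin (N + 1)) K →ₐ[K] MvPolynomial (Fin q) L :=
    (IsScalarTower.toAlgHom K L (MvPolynomial (Fin q) L)).comp (aeval (A.x P))
  let φ : Pl K N q p →ₐ[K] MvPolynomial (Fin q) L :=
    { toRingHom := eval₂Hom ψ.toRingHom
        (fun i : Fin q × Fin p => (C (aeval (A.x P) (T.η i.1 i.2)) * X i.1 : MvPolynomial (Fin q) L))
      commutes' := fun r => by
        have h0 : algebraMap K (Pl K N q p) r = C (C r) := rfl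
        show eval₂ ψ.toRingHom _ (algebraMap K (Pl K N q p) r) = _
        rw [h0, eval₂_C]
        exact ψ.commutes r }
  have h1 : T.sp P (E3_R F) = φ (E3_R F) := rfl
  let χ : MvPolynomial (Fin 1) (MvPolynomial (Fin q) L) →ₐ[K] MvPolynomial (Fin q) L :=
    (aeval (fun _ : Fin 1 => (1 : MvPolynomial (Fin q) L)) :
      MvPolynomial (Fin 1) (MvPolynomial (Fin q) L) →ₐ[MvPolynomial (Fin q) L]
        MvPolynomial (Fin q) L).restrictScalars K
  have h2 : ∀ G : MvPolynomial (Fin 1) (MvPolynomial (Fin q) L),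
      eval (fun _ : Fin 1 => (1 : MvPolynomial (Fin q) L)) G = χ G := fun G => rfl
  rw [h1, h2]
  unfold E3_R
  rw [← AlgHom.comp_apply, comp_aeval, ← AlgHom.comp_apply, comp_aeval]
  have h3 : ∀ r : MvPolynomial (Fin (N + 1)) K, φ (C r) = C (aeval (A.x P) r) := by
    intro r
    show eval₂ ψ.toRingHom _ (C r) = _
    rw [eval₂_C]
    rfl
  have h4 : (fun i => φ (Sum.elim (fun i => (C (X i) : Pl K N q p))
      (Sum.elim (fun i => X i) fun _ : Fin 1 => 1) i)) =
      fun i => χ (Sum.elim (fun i => (C (C (A.x P i)) : MvPolynomial (Fin 1) (MvPolynomial (Fin q) L)))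
        (Sum.elim (fun i => C (C (aeval (A.x P) (T.η i.1 i.2)) * X i.1)) X) i) := by
    funext i
    rcases i with i | i | i
    · simp only [Sum.elim_inl, h3, aeval_X]
      show _ = eval _ (C (C (A.x P i)))
      rw [eval_C]
    · simp only [Sum.elim_inl, Sum.elim_inr]
      show eval₂ ψ.toRingHom _ (X i) = eval _ (C _)
      rw [eval₂_X, eval_C]
    · simp only [Sum.elim_inr, map_one]
      show (1 : MvPolynomial (Fin q) L) = eval _ (X i)
      rw [eval_X]
  rw [h4]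

private theorem E3_WH_X (i : Fin q × Fin p) : T.WH (T.k i.1) (X i : Pl K N q p) := by
  classical
  intro m h0
  rw [coeff_X] at h0 ⊢
  by_cases h : Finsupp.single i 1 = m
  · rw [if_pos h, ← h]
    refine ⟨0, isHomogeneous_one _ _, ?_⟩
    rw [zero_add, Finset.sum_eq_single i]
    · simp
    · intro j _ hj
      rw [Finsupp.single_apply, if_neg (Ne.symm hj), mul_zero]
    · intro hi
      exact absurd (Finset.mem_univ i) hi
  · rw [if_neg h] at h0
    exact absurd rfl h0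

private theorem E3_WH_pow {D : ℕ} {b : Pl K N q p} (hb : T.WH D b) (k : ℕ) : T.WH (k * D) (b ^ k) := by
  induction k with
  | zero =>
    rw [zero_mul, pow_zero, ← C_1]
    exact TB.R1_WH_C T (isHomogeneous_one _ _)
  | succ k ih =>
    rw [pow_succ, Nat.succ_mul]
    exact TB.R1_WH_mul T ih hb

private theorem E3_WH {a b : ℕ} (F : MvPolynomial (Fin (N + 1) ⊕ (Fin q × Fin p) ⊕ Fin 1) K)
    (hF : ∀ m ∈ F.support,
      ∑ i, m (Sum.inl i) + ∑ i, T.k i.1 * m (Sum.inr (Sum.inl i)) = a ∧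
      ∑ l, m (Sum.inr (Sum.inr l)) = b) : T.WH a (E3_R F) := by
  classical
  have h1 : E3_R F = ∑ m ∈ F.support, E3_R (monomial m (coeff m F)) := by
    conv_lhs => rw [F.as_sum]
    unfold E3_R
    rw [map_sum]
  rw [h1]
  refine TB.R1_WH_sum T _ _ _ fun m hm => ?_
  have h2 : E3_R (monomial m (coeff m F)) = C (C (coeff m F)) *
      ((∏ i, (C (X i) : Pl K N q p) ^ m (Sum.inl i)) * ∏ i, (X i : Pl K N q p) ^ m (Sum.inr (Sum.inl i))) := by
    unfold E3_R
    rw [aeval_monomial, Finsupp.prod_fintype _ _ (fun i => pow_zero _), Fintype.prod_sum_type,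
      Fintype.prod_sum_type]
    simp only [Sum.elim_inl, Sum.elim_inr, one_pow, Finset.prod_const_one, mul_one]
    rfl
  rw [h2]
  have h3 : T.WH (∑ i, m (Sum.inl i) * 1) (∏ i, (C (X i) : Pl K N q p) ^ m (Sum.inl i)) :=
    TB.R1_WH_prod T _ _ _ fun i _ => E3_WH_pow T (TB.R1_WH_C T (isHomogeneous_X _ _)) _
  have h4 : T.WH (∑ i, m (Sum.inr (Sum.inl i)) * T.k i.1)
      (∏ i, (X i : Pl K N q p) ^ m (Sum.inr (Sum.inl i))) :=
    TB.R1_WH_prod T _ _ _ fun i _ => E3_WH_pow T (E3_WH_X T i) _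
  have h5 := TB.R1_WH_mul T (TB.R1_WH_C T (isHomogeneous_C (Fin (N + 1)) (coeff m F)))
    (TB.R1_WH_mul T h3 h4)
  have h6 : 0 + (∑ i, m (Sum.inl i) * 1 + ∑ i, m (Sum.inr (Sum.inl i)) * T.k i.1) = a := by
    rw [← (hF m hm).1, zero_add]
    congr 1
    · exact Finset.sum_congr rfl fun i _ => mul_one _
    · exact Finset.sum_congr rfl fun i _ => mul_comm _ _
  rw [h6] at h5
  exact h5

/-- Vertical divisors. -/
theorem N_vertC [NumberField K] (Γ : AddSubgroup (A.Pts K)) (hΓ : Γ.FG) {t : ℕ}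
    (H : Fin m → Pol K N q p n) (hg : Good T H t) {e : ℕ} (f : Pl K N q p) (hf : T.WH e f)
    (hfA : T.NZ f) (S : Finset (NumberField.FinitePlace K)) (ε : ℝ) (hε : 0 < ε) :
    ∃ (C : ℝ) (F : Pol K N q p n), ExcG T H F ∧
      ∀ P ∈ Γ, ∀ y : Fin q × Fin p → K, T.On P y → ∀ X : Fin n → K,
        eval X (spG P y F) ≠ 0 → ev P y f ≠ 0 ∧
          (∑ v : NumberField.InfinitePlace K, (v.mult : ℝ) *
              T.lam v.val e (fun _ : Fin 1 => f) P y (fun _ => 1)) +
            (∑ v ∈ S, T.lam v.val e (fun _ : Fin 1 => f) P y (fun _ => 1)) ≤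
            ε * (logHeight (A.x P) + ∑ i, T.ht P y i) + C * (1 + T.NS S P y) := by
  classical
  obtain ⟨G', hG'⟩ : ∃ G' : Matrix (Fin 0) (Fin 1) (MvPolynomial (Fin (N + 1)) K),
      G' = fun i _ => i.elim0 := ⟨_, rfl⟩
  obtain ⟨C₀, F, ⟨⟨a, b, hab⟩, hF⟩, h1⟩ := TB.N_main T Γ hΓ G' f hf hfA S ε hε
  refine ⟨C₀, emb (E3_R F), ExcG_emb T hg (E3_WH T F hab) ?_, fun P hP y hy X hX => ?_⟩
  · intro L _ _ _ P y hPy h0
    have h2 := hPy.2.2 a (E3_R F) (E3_WH T F hab) h0
    obtain ⟨c, k, z, hc, hz, hFz⟩ := hF L P hPy.1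
    rw [E3_sp, hFz, eval_mul, eval_C, eval_prod] at h2
    rcases mul_eq_zero.1 h2 with h3 | h3
    · exact hc h3
    · obtain ⟨j, -, h4⟩ := Finset.prod_eq_zero_iff.1 h3
      rw [map_sum] at h4
      simp only [Finset.univ_unique, Finset.sum_singleton, eval_mul, eval_C, eval_X, mul_one] at h4
      obtain ⟨w, -, hw⟩ := hz j
      apply hw
      simp only [Finset.univ_unique, Finset.sum_singleton, h4, zero_mul]
  · rw [emb_sp, eval_C, E3_ev] at hX
    exact h1 P hP y hy (fun _ => 1) hX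

end

end Pool.Agent.Lib.MP_17a322_nt.VC
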