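import Pool.Agent.Lib.MP_17a322_nt.VB.A1
import Pool.Agent.Lib.MP_17a322_nt.VB.T1

/-!
Leading parts that are independent modulo leading parts of elements of the space of the rows: the Newton
polytopes of the minors add.
-/

universe u

namespace Pool.Agent.Lib.MP_17a322_nt.VC

open MvPolynomial
open Pool.Agent.Lib.MP_17a322_nt.VB (mnr InRow IndP exists_mnr mnr_map T1_mul T1_max)
open Pool.Agent.Lib.MP_17a322_nt.SG (R1_mul R1_sum R1_prod R1_unit R1_coeff)

/-- A nonzero minor, over a domain. -/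
theorem I1_exists_mnr {R ι κ : Type*} [CommRing R] [IsDomain R] [Fintype ι] [DecidableEq ι]
    [Finite κ] {U : ι → κ → R} (hU : LinearIndependent R U) : ∃ e : ι → κ, mnr U e ≠ 0 := by
  have h1 : LinearIndependent R fun (i : ι) (l : κ) => algebraMap R (FractionRing R) (U i l) := by
    have h2 := hU.map' ((Algebra.linearMap R (FractionRing R)).compLeft κ) (by
      rw [LinearMap.ker_eq_bot]
      intro x y hxy
      funext l
      have h3 := congrFun hxy l
      exact IsFractionRing.injective R (FractionRing R) h3)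
    exact h2
  have h2 : LinearIndependent (FractionRing R)
      fun (i : ι) (l : κ) => algebraMap R (FractionRing R) (U i l) :=
    (LinearIndependent.iff_fractionRing R (FractionRing R)).1 h1
  obtain ⟨e, he⟩ := exists_mnr h2
  refine ⟨e, fun h0 => he ?_⟩
  have h3 := mnr_map (algebraMap R (FractionRing R)) U e
  rw [h0, map_zero] at h3
  exact h3

section

variable {L : Type*} [Field L] {q : ℕ}

/-- The leading part of a determinant. -/
theorem I1_det {ι : Type*} [Fintype ι] [DecidableEq ι] {τ : Fin q → ℝ}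
    (M : Matrix ι ι (MvPolynomial (Fin q) L)) (h : ι → ℝ)
    (hM : ∀ i l, ∀ m ∈ (M i l).support, SG.wt τ m ≤ h i) :
    (∀ m ∈ M.det.support, SG.wt τ m ≤ ∑ i, h i) ∧
      SG.partWt τ (∑ i, h i) M.det = (Matrix.of fun i l => SG.partWt τ (h i) (M i l)).det := by
  rw [Matrix.det_apply, Matrix.det_apply]
  have h1 : ∀ σ : Equiv.Perm ι, (∀ m ∈ (∏ i, M (σ i) i).support, SG.wt τ m ≤ ∑ i, h i) ∧
      SG.partWt τ (∑ i, h i) (∏ i, M (σ i) i) = ∏ i, SG.partWt τ (h (σ i)) (M (σ i) i) := by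
    intro σ
    have h2 := R1_prod (τ := τ) Finset.univ (fun i => h (σ i)) (fun i => M (σ i) i)
      fun i _ => hM (σ i) i
    rw [Equiv.sum_comp σ h] at h2
    exact h2
  have h3 := R1_sum (τ := τ) (Finset.univ : Finset (Equiv.Perm ι)) (∑ i, h i)
    (fun σ => Equiv.Perm.sign σ • ∏ i, M (σ i) i)
    fun σ _ => (R1_unit (Equiv.Perm.sign σ) (h1 σ).1).1
  refine ⟨h3.1, ?_⟩
  rw [h3.2]
  refine Finset.sum_congr rfl fun σ _ => ?_
  rw [(R1_unit (Equiv.Perm.sign σ) (h1 σ).1).2, (h1 σ).2]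
  rfl

theorem I1_pow {τ : Fin q → ℝ} {p : MvPolynomial (Fin q) L} {w : ℝ}
    (hp : ∀ m ∈ p.support, SG.wt τ m ≤ w) (g : ℕ) :
    ∀ m ∈ (p ^ g).support, SG.wt τ m ≤ g * w := by
  have h1 := (R1_prod (τ := τ) (Finset.univ : Finset (Fin g)) (fun _ => w) (fun _ => p)
    fun _ _ => hp).1
  rw [Finset.prod_const, Finset.sum_const, Finset.card_univ, Fintype.card_fin, nsmul_eq_mul] at h1
  exact h1

theorem I1_att {τ : Fin q → ℝ} {p : MvPolynomial (Fin q) L} {w : ℝ}
    (hp : SG.partWt τ w p ≠ 0) : ∃ m ∈ p.support, SG.wt τ m = w := by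
  obtain ⟨m, hm⟩ := ne_zero_iff.1 hp
  rw [R1_coeff] at hm
  by_cases h : SG.wt τ m = w
  · rw [if_pos h] at hm
    exact ⟨m, mem_support_iff.2 hm, h⟩
  · rw [if_neg h] at hm
    exact absurd rfl hm

end

/-- Leading parts that are independent modulo leading parts of elements of the space of the rows: the
Newton polytopes of the minors add. -/
theorem I_one {L : Type*} [Field L] {q g n s : ℕ} {Gh : Fin g → Fin n → MvPolynomial (Fin q) L}
    {Lh : Fin s → Fin n → MvPolynomial (Fin q) L} {τ : Fin q → ℝ} {h : Fin s → ℝ}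
    (hh : ∀ j l, ∀ m ∈ (Lh j l).support, SG.wt τ m ≤ h j) {J : Finset (Fin s)}
    (hG : ∃ e, mnr Gh e ≠ 0)
    (hJ : ∀ (e : Fin g → Fin n) (w : ℝ), SG.partWt τ w (mnr Gh e) ≠ 0 →
      (∀ e' m, coeff m (mnr Gh e') ≠ 0 → SG.wt τ m ≤ w) →
      LinearIndependent (MvPolynomial (Fin q) L)
        (Sum.elim (fun (i : Fin g) l => SG.partWt τ w (mnr Gh (Function.update e i l)))
          fun (j : J) l => SG.partWt τ (h j) (Lh j l))) : IndP Gh Lh τ h J := by
  classical
  -- the largest weight of the minors of `Gh`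
  obtain ⟨e1, he1⟩ := hG
  obtain ⟨m1, hm1⟩ := ne_zero_iff.1 he1
  obtain ⟨⟨e0, m0⟩, hem0, hem⟩ := Finset.exists_max_image
    (Finset.univ.sigma fun e' : Fin g → Fin n => (mnr Gh e').support)
    (fun x => SG.wt τ x.2) ⟨⟨e1, m1⟩, Finset.mem_sigma.2 ⟨Finset.mem_univ _, mem_support_iff.2 hm1⟩⟩
  have hm0 : m0 ∈ (mnr Gh e0).support := (Finset.mem_sigma.1 hem0).2
  have hW : ∀ e' : Fin g → Fin n, ∀ m' ∈ (mnr Gh e').support, SG.wt τ m' ≤ SG.wt τ m0 :=
    fun e' m' hm' => hem ⟨e', m'⟩ (Finset.mem_sigma.2 ⟨Finset.mem_univ _, hm'⟩)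
  obtain ⟨w, hw⟩ : ∃ w, w = SG.wt τ m0 := ⟨_, rfl⟩
  rw [← hw] at hW
  have hpart : SG.partWt τ w (mnr Gh e0) ≠ 0 := by
    intro h0
    have h1 := R1_coeff τ w (mnr Gh e0) m0
    rw [h0, coeff_zero, if_pos hw.symm] at h1
    exact mem_support_iff.1 hm0 h1.symm
  have hli := hJ e0 w hpart fun e' m hm => hW e' m (mem_support_iff.2 hm)
  obtain ⟨e, he⟩ := I1_exists_mnr hli
  -- the matrices
  obtain ⟨A, hA⟩ : ∃ A : Matrix (Fin g) (Fin g) (MvPolynomial (Fin q) L),
      A = Matrix.of fun i j => Gh i (e0 j) := ⟨_, rfl⟩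
  have hAdet : A.det = mnr Gh e0 := by
    rw [hA]
    rfl
  obtain ⟨z, hz⟩ : ∃ z : Fin g → Fin n → MvPolynomial (Fin q) L,
      z = fun i l => mnr Gh (Function.update e0 i l) := ⟨_, rfl⟩
  have hzc : ∀ i l, z i l = ∑ k, A.adjugate i k * Gh k l := by
    intro i l
    have h1 : (Matrix.of fun i' j => Gh i' (Function.update e0 i l j)) =
        A.updateCol i fun k => Gh k l := by
      ext1 i' j
      rw [Matrix.of_apply, Matrix.updateCol_apply, hA]
      by_cases hj : j = i
      · rw [hj, Function.update_self, if_pos rfl]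
      · rw [Function.update_of_ne hj, if_neg hj, Matrix.of_apply]
    rw [hz]
    show mnr Gh (Function.update e0 i l) = _
    unfold mnr
    rw [h1, ← Matrix.cramer_apply, Matrix.cramer_eq_adjugate_mulVec]
    rfl
  obtain ⟨D, hD⟩ : ∃ D, D = mnr (Sum.elim Gh fun j : J => Lh j) e := ⟨_, rfl⟩
  have hprod : mnr (Sum.elim z fun j : J => Lh j) e = A.adjugate.det * D := by
    have h1 : (Matrix.of fun i j => (Sum.elim z (fun j : J => Lh j) : Fin g ⊕ J → _) i (e j)) =
        Matrix.fromBlocks A.adjugate 0 0 (1 : Matrix J J (MvPolynomial (Fin q) L)) *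
          (Matrix.of fun i j => (Sum.elim Gh (fun j : J => Lh j) : Fin g ⊕ J → _) i (e j)) := by
      ext1 i j
      rw [Matrix.mul_apply, Fintype.sum_sum_type]
      rcases i with i | i
      · simp only [Matrix.of_apply, Sum.elim_inl, Sum.elim_inr, Matrix.fromBlocks_apply₁₁,
          Matrix.fromBlocks_apply₁₂, Matrix.zero_apply, zero_mul, Finset.sum_const_zero, add_zero]
        exact hzc i (e j)
      · simp only [Matrix.of_apply, Sum.elim_inl, Sum.elim_inr, Matrix.fromBlocks_apply₂₁,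
          Matrix.fromBlocks_apply₂₂, Matrix.zero_apply, zero_mul, Finset.sum_const_zero, zero_add,
          Matrix.one_apply, ite_mul, one_mul, Finset.sum_ite_eq, Finset.mem_univ, if_true]
    rw [hD]
    unfold mnr
    rw [h1, Matrix.det_mul, Matrix.det_fromBlocks_zero₂₁, Matrix.det_one, mul_one]
  have hadj : A.adjugate.det * A.det = A.det ^ g := by
    rw [← Matrix.det_mul, Matrix.adjugate_mul, Matrix.det_smul, Matrix.det_one, mul_one,
      Fintype.card_fin]
  -- the leading part of the minor of `z` and `Lh`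
  have hzw : ∀ (i : Fin g ⊕ J) (l : Fin n), ∀ m ∈ ((Sum.elim z (fun j : J => Lh j) :
      Fin g ⊕ J → _) i l).support,
      SG.wt τ m ≤ (Sum.elim (fun _ => w) fun j : J => h j : Fin g ⊕ J → ℝ) i := by
    intro i l m hm
    rcases i with i | i
    · rw [Sum.elim_inl, hz] at hm
      exact hW _ m hm
    · exact hh _ _ m hm
  have hlead := I1_det (τ := τ)
    (Matrix.of fun i j => (Sum.elim z (fun j : J => Lh j) : Fin g ⊕ J → _) i (e j))
    (Sum.elim (fun _ => w) fun j : J => h j) fun i l => hzw i (e l)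
  have hsum : ∑ i, (Sum.elim (fun _ => w) fun j : J => h j : Fin g ⊕ J → ℝ) i =
      g * w + ∑ j ∈ J, h j := by
    rw [Fintype.sum_sum_type]
    simp only [Sum.elim_inl, Sum.elim_inr]
    rw [Finset.sum_const, Finset.card_univ, Fintype.card_fin, nsmul_eq_mul,
      Finset.sum_coe_sort J h]
  rw [hsum] at hlead
  have hne : SG.partWt τ (g * w + ∑ j ∈ J, h j) (mnr (Sum.elim z fun j : J => Lh j) e) ≠ 0 := by
    intro h0
    have h1 := hlead.2
    have h2 : (Matrix.of fun i j => (Sum.elim z (fun j : J => Lh j) : Fin g ⊕ J → _) i (e j)).det =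
        mnr (Sum.elim z fun j : J => Lh j) e := rfl
    rw [h2, h0] at h1
    apply he
    rw [h1]
    unfold mnr
    refine congrArg Matrix.det ?_
    ext1 i l
    rcases i with i | i
    · rw [Matrix.of_apply, Matrix.of_apply, Matrix.of_apply, Sum.elim_inl, Sum.elim_inl,
        Sum.elim_inl, hz]
      rfl
    · rfl
  -- the products
  obtain ⟨m2, hm2, hwm2⟩ := T1_mul (τ := τ) hlead.1 (hW e0) (I1_att hne)
    ⟨m0, hm0, hw.symm⟩
  have hm2' : m2 ∈ (A.det ^ g * D).support := by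
    have h1 : (Matrix.of fun i j => (Sum.elim z (fun j : J => Lh j) : Fin g ⊕ J → _) i (e j)).det *
        mnr Gh e0 = A.det ^ g * D := by
      have h2 : (Matrix.of fun i j => (Sum.elim z (fun j : J => Lh j) :
          Fin g ⊕ J → _) i (e j)).det = A.adjugate.det * D := hprod
      rw [h2, ← hAdet, ← hadj]
      ring
    rw [← h1]
    exact hm2
  have hD0 : D ≠ 0 := by
    intro h0
    rw [h0, mul_zero, support_zero] at hm2'
    exact absurd hm2' (Finset.notMem_empty _)
  obtain ⟨m3, hm3⟩ := ne_zero_iff.1 hD0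
  obtain ⟨w1, _, hw1, m4, hm4, hwm4⟩ := T1_max (τ := τ) (mem_support_iff.2 hm3)
  have hWA : ∀ m ∈ (A.det).support, SG.wt τ m ≤ w := by
    rw [hAdet]
    exact hW e0
  have h5 := (R1_mul (τ := τ) (I1_pow hWA g) hw1).1 m2 hm2'
  refine ⟨e, m4, ?_, ?_⟩
  · rw [hD] at hm4
    exact mem_support_iff.1 hm4
  · intro e' m' hm'
    have h6 := hW e' m' (mem_support_iff.2 hm')
    rw [hwm2] at h5
    rw [hwm4]
    linarith

end Pool.Agent.Lib.MP_17a322_nt.VC
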