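import Pool.Agent.Lib.MP_17a322_nt.VC.Defs
import Pool.Agent.Lib.MP_17a322_nt.EF.C2
import Pool.Agent.Lib.MP_17a322_nt.EG.G1
import Pool.Agent.Lib.MP_17a322_nt.VB.A1

/-!
Families over principal torus bundles over `A`: coefficients of the minors at the generic points, the
Nullstellensatz, a common zero.
-/

universe u

namespace Pool.Agent.Lib.MP_17a322_nt.VC

open MvPolynomial Height
open Pool.Agent.Lib.MP_17a322_nt.VA
open Pool.Agent.Lib.MP_17a322_nt.SL
open Pool.Agent.Lib.MP_17a322_nt.EF (Mo mo ver cf fam fm rk part hSub)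
open Pool.Agent.Lib.MP_17a322_nt.TB (Tor ev maxWt partWt wt supp)
open Pool.Agent.Lib.MP_17a322_nt.EG
open Pool.Agent.Lib.MP_17a322_nt.VB (Pl mnr InRow IndP IndV Rk ExcV hV)

section

variable {K : Type u} [Field K] {N q p n m s w : ℕ} {A : AV K N} (T : Tor A q p)

private theorem I2_WH {ι κ : Type} [Fintype ι] [DecidableEq ι] (M : ι → κ → Pl K N q p) (D : ι → ℕ)
    (hM : ∀ i l, T.WH (D i) (M i l)) (e : ι → κ) : T.WH (∑ i, D i) (mnr M e) := by
  let f : Fin (Fintype.card ι) ≃ ι := (Fintype.equivFin ι).symm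
  have h1 : mnr M e = (Matrix.of fun i j => M (f i) (e (f j))).det := by
    unfold mnr
    rw [← Matrix.det_submatrix_equiv_self f]
    rfl
  rw [h1, ← Equiv.sum_comp f D]
  exact TB.R1_WH_det T _ (fun i => D (f i)) fun i l => hM (f i) (e (f l))

private theorem I2_sp {ι κ : Type} [Fintype ι] [DecidableEq ι] {L : Type u} [Field L] [Algebra K L]
    (P : A.Pts L) (M : ι → κ → Pl K N q p) (e : ι → κ) :
    mnr (fun i l => T.sp P (M i l)) e = T.sp P (mnr M e) := by
  have h := VB.mnr_map (TB.R2_sp T P) M e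
  rw [TB.R2_sp_eq] at h
  exact h

/-- A coefficient that is zero at one generic point is zero at all points. -/
private theorem I2_coeff {D : ℕ} {b : Pl K N q p} (hb : T.WH D b) {L₁ : Type u} [Field L₁]
    [Algebra K L₁] {P₁ : A.Pts L₁} (hP₁ : Gen A P₁) (d : Fin q →₀ ℕ)
    (h : coeff d (T.sp P₁ b) = 0) {L : Type u} [Field L] [Algebra K L] (P : A.Pts L) :
    coeff d (T.sp P b) = 0 := by
  rw [TB.R2_sp_coeff] at h ⊢
  exact EF.R0_pt A P _ (hP₁ _ _ (TB.R2_pd_hom T hb d) h)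

theorem I_tr {g n s D : ℕ} {D' : Fin g → ℕ} {G : Matrix (Fin g) (Fin n) (Pl K N q p)}
    (hG : ∀ i l, T.WH (D' i) (G i l)) {Λ : Matrix (Fin s) (Fin n) (Pl K N q p)}
    (hΛ : ∀ j l, T.WH D (Λ j l)) {τ : Fin q → ℝ} {J : Finset (Fin s)} {L₀ : Type u} [Field L₀]
    [Algebra K L₀] {P₀ : A.Pts L₀} (h₀ : Gen A P₀)
    (h : IndP (fun i l => T.sp P₀ (G i l)) (fun j l => T.sp P₀ (Λ j l)) τ
      (fun j => maxWt τ (Λ j)) J) : IndV T G Λ τ J := by
  intro L _ _ P hP
  obtain ⟨e, m, h1, h2⟩ := h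
  have hb : ∀ {L' : Type u} [Field L'] [Algebra K L'] (P' : A.Pts L'),
      mnr (Sum.elim (fun i l => T.sp P' (G i l)) fun j : J => fun l => T.sp P' (Λ j l)) e =
        T.sp P' (mnr (Sum.elim G fun j : J => Λ j) e) := by
    intro L' _ _ P'
    rw [← I2_sp]
    refine congrArg (fun M => mnr M e) ?_
    funext i l
    rcases i with i | j
    · rfl
    · rfl
  have hWH : T.WH (∑ i, Sum.elim D' (fun _ : J => D) i) (mnr (Sum.elim G fun j : J => Λ j) e) := by
    refine I2_WH T _ _ (fun i l => ?_) e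
    rcases i with i | j
    · exact hG i l
    · exact hΛ j l
  refine ⟨e, m, fun h3 => h1 ?_, fun e' m' h3 => h2 e' m' fun h4 => h3 ?_⟩
  · rw [hb] at h3 ⊢
    exact I2_coeff T hWH hP m h3 P₀
  · rw [I2_sp] at h4 ⊢
    exact I2_coeff T (I2_WH T G D' hG e') h₀ m' h4 P

end

section

variable {K : Type u} [Field K] {N q p n m s w : ℕ} {A : AV K N} (T : Tor A q p)

/-- The multiples of forms without common zeros are everything in a large degree. -/
theorem I_span {κ : Type} [Finite κ] {L : Type u} [Field L] [IsAlgClosed L]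
    {Q : κ → MvPolynomial (Fin n) L} {d : κ → ℕ} (hQ : ∀ j, (Q j).IsHomogeneous (d j))
    (h0 : ∀ X : Fin n → L, (∀ j, eval X (Q j) = 0) → X = 0) :
    ∃ b, ∀ f : MvPolynomial (Fin n) L, f.IsHomogeneous b → f ∈ Ideal.span (Set.range Q) := by
  have hNS : ∀ l, ∃ M : ℕ, (X l : MvPolynomial (Fin n) L) ^ M ∈ Ideal.span (Set.range Q) := by
    intro l
    have h1 : (X l : MvPolynomial (Fin n) L) ∈
        vanishingIdeal L (zeroLocus L (Ideal.span (Set.range Q))) := by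
      intro x hx
      have h2 : x = 0 := h0 x fun j => hx (Q j) (Ideal.subset_span ⟨j, rfl⟩)
      rw [h2, aeval_X]
      rfl
    rw [vanishingIdeal_zeroLocus_eq_radical] at h1
    exact h1
  choose M hM using hNS
  refine ⟨∑ l, M l + 1, fun f hf => ?_⟩
  rw [f.as_sum]
  refine Ideal.sum_mem _ fun μ hμ => ?_
  have h1 : ∑ l, μ l = ∑ l, M l + 1 := by
    have h2 := hf (mem_support_iff.1 hμ)
    rw [Finsupp.weight_apply, Finsupp.sum_fintype] at h2
    · simpa using h2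
    · intro i
      simp
  obtain ⟨l, hl⟩ : ∃ l, M l ≤ μ l := by
    by_contra hcon
    have h3 : ∑ l, μ l ≤ ∑ l, M l :=
      Finset.sum_le_sum fun l _ => by by_contra h'; exact hcon ⟨l, by omega⟩
    omega
  have h2 : monomial μ (coeff μ f) = monomial (μ - Finsupp.single l (M l)) (coeff μ f) * X l ^ M l := by
    rw [X_pow_eq_monomial, monomial_mul, mul_one, tsub_add_cancel_of_le (Finsupp.single_le_iff.mpr hl)]
  rw [h2]
  exact Ideal.mul_mem_left _ _ (hM l)

/-- An ideal of dimension `t` and `t - 1` forms have a common zero. -/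
theorem I_dim {L : Type u} [Field L] [IsAlgClosed L] {t d : ℕ} (ht : 0 < t) (hd : 0 < d)
    {I : Ideal (MvPolynomial (Fin n) L)} (hI : I.IsPrime)
    (hgr : ∀ f ∈ I, ∀ k, homogeneousComponent k f ∈ I)
    (htr : Algebra.trdeg L (MvPolynomial (Fin n) L ⧸ I) = t)
    (Q : Fin (t - 1) → MvPolynomial (Fin n) L) (hQ : ∀ j, (Q j).IsHomogeneous d) :
    ∃ X : Fin n → L, X ≠ 0 ∧ (∀ f ∈ I, eval X f = 0) ∧ ∀ j, eval X (Q j) = 0 := by
  by_contra hcon
  let Q' : Fin t → MvPolynomial (Fin n) L := fun j =>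
    if h : (j : ℕ) < t - 1 then Q ⟨j, h⟩ else 0
  have hQ' : ∀ j, (Q' j).IsHomogeneous d := by
    intro j
    show (if h : (j : ℕ) < t - 1 then Q ⟨j, h⟩ else 0).IsHomogeneous d
    by_cases h : (j : ℕ) < t - 1
    · rw [dif_pos h]
      exact hQ _
    · rw [dif_neg h]
      exact isHomogeneous_zero _ _ _
  obtain ⟨M, hM⟩ := EF.C_span hd I hgr Q' hQ' (by
    intro X hX hX'
    by_contra hX0
    refine hcon ⟨X, hX0, hX, fun j => ?_⟩
    have h1 : (j : ℕ) < t := lt_of_lt_of_le j.2 (Nat.sub_le _ _)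
    have h2 := hX' ⟨j, h1⟩
    have h3 : Q' ⟨j, h1⟩ = Q j := by
      show (if h : (j : ℕ) < t - 1 then Q ⟨j, h⟩ else 0) = Q j
      rw [dif_pos j.2]
    rwa [h3] at h2)
  have h1 := EF.C_indep I htr hd Q' M hM
  refine h1.ne_zero ⟨t - 1, Nat.sub_lt ht one_pos⟩ ?_
  have h2 : Q' ⟨t - 1, Nat.sub_lt ht one_pos⟩ = 0 := by
    show (if h : (t - 1 : ℕ) < t - 1 then Q ⟨t - 1, h⟩ else 0) = 0
    rw [dif_neg (lt_irrefl _)]
  show Ideal.Quotient.mk I (Q' ⟨t - 1, Nat.sub_lt ht one_pos⟩) = 0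
  rw [h2, map_zero]

end

end Pool.Agent.Lib.MP_17a322_nt.VC
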