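import Pool.Agent.Lib.MP_17a322_nt.VC.S1
import Pool.Agent.Lib.MP_17a322_nt.VC.R1
import Pool.Agent.Lib.MP_17a322_nt.VC.I2
import Pool.Agent.Lib.MP_17a322_nt.SG.R1
import Pool.Agent.Lib.MP_17a322_nt.EG.L1

/-!
Families over principal torus bundles over `A`: the leading parts of forms without common zeros.
-/

universe u

namespace Pool.Agent.Lib.MP_17a322_nt.VC

open MvPolynomial Height
open Pool.Agent.Lib.MP_17a322_nt.VA
open Pool.Agent.Lib.MP_17a322_nt.SL
open Pool.Agent.Lib.MP_17a322_nt.EF (BH Mo mo ver cf fam fm rk part hSub)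
open Pool.Agent.Lib.MP_17a322_nt.TB (Tor ev maxWt partWt wt supp)
open Pool.Agent.Lib.MP_17a322_nt.EG
open Pool.Agent.Lib.MP_17a322_nt.VB (Pl mnr InRow IndP IndV Rk ExcV hV)

section

variable {K : Type u} [Field K] {N q p n m s w : ℕ} {A : AV K N} (T : Tor A q p)

private theorem I3_C {R : Type*} [CommRing R] {τ : Fin q → ℝ} {h : ℝ} (c : R)
    {f : MvPolynomial (Fin q × Fin p) R} (hf : ∀ a ∈ f.support, wt τ a ≤ h) :
    (∀ a ∈ (C c * f).support, wt τ a ≤ h) ∧ partWt τ h (C c * f) = C c * partWt τ h f := by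
  classical
  constructor
  · intro a ha
    refine hf a (mem_support_iff.2 fun h0 => ?_)
    rw [mem_support_iff, coeff_C_mul, h0, mul_zero] at ha
    exact ha rfl
  · ext a : 1
    rw [coeff_partWt, coeff_C_mul, coeff_C_mul, coeff_partWt]
    by_cases h1 : wt τ a = h
    · rw [if_pos h1, if_pos h1]
    · rw [if_neg h1, if_neg h1, mul_zero]

private theorem I3_cX {R : Type*} [CommRing R] {τ : Fin q → ℝ} {h : ℝ} (μ : Fin n →₀ ℕ)
    {f : MvPolynomial (Fin q × Fin p) (MvPolynomial (Fin n) R)}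
    (hf : ∀ a ∈ f.support, wt τ a ≤ h) : ∀ a ∈ (cX μ f).support, wt τ a ≤ h := by
  intro a ha
  refine hf a (mem_support_iff.2 fun h0 => ?_)
  rw [mem_support_iff, coeff_cX, h0, coeff_zero] at ha
  exact ha rfl

private theorem I3_ev_det {k : ℕ} (M : Matrix (Fin k) (Fin k) (Pl K N q p)) {L : Type u} [Field L]
    [Algebra K L] (P : A.Pts L) (y : Fin q × Fin p → L) :
    ev P y M.det = (Matrix.of fun i j => ev P y (M i j)).det := by
  show G1_ev P y M.det = _
  rw [RingHom.map_det]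
  rfl

/-- The leading parts of forms without common zeros in the ideal: the same for the forms. -/
theorem I_lead {κ : Type} [Finite κ] {Q : κ → Pol K N q p n} {D d : κ → ℕ}
    (hQ : ∀ j, BG T (D j) (d j) (Q j)) (τ : Fin q → ℝ) (w : κ → ℝ)
    (hw : ∀ j, ∀ μ ∈ (Q j).support, wt τ μ ≤ w j) {L : Type u} [Field L] [IsAlgClosed L]
    [Algebra K L] {P₀ : A.Pts L} {y₀ : Fin q × Fin p → L} (h₀ : GenB T P₀ y₀)
    (h : ∀ X : Fin n → L, (∀ j, eval X (spG P₀ y₀ (partWt τ (w j) (Q j))) = 0) → X = 0) :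
    ∀ X : Fin n → L, (∀ j, eval X (spG P₀ y₀ (Q j)) = 0) → X = 0 := by
  classical
  intro x hx
  have := Fintype.ofFinite κ
  obtain ⟨m, ⟨e⟩⟩ : ∃ m, Nonempty (Fin m ≃ κ) := ⟨Fintype.card κ, ⟨(Fintype.equivFin _).symm⟩⟩
  obtain ⟨H, hHdef⟩ : ∃ H : Fin m → Pol K N q p n, H = fun i => partWt τ (w (e i)) (Q (e i)) :=
    ⟨_, rfl⟩
  have hH : ∀ i, BG T (D (e i)) (d (e i)) (H i) := fun i => by
    rw [hHdef]
    exact BG_partWt (hQ (e i)) τ _
  obtain ⟨b, hb⟩ := I_span (Q := fun i => spG P₀ y₀ (H i)) (d := fun i => d (e i))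
    (fun i => spG_hom P₀ y₀ (hH i)) (by
      intro X hX
      refine h X fun j => ?_
      have h1 := hX (e.symm j)
      rw [hHdef] at h1
      simpa using h1)
  -- all multiples of degree `b`
  obtain ⟨Z, hZ⟩ : ∃ Z : Type, Z = {z : Fin m × (Fin n → Fin (b + 1)) //
      ∑ l, (z.2 l : ℕ) + d (e z.1) = b} := ⟨_, rfl⟩
  subst hZ
  have hspan : Submodule.span L (Set.range fun z : {z : Fin m × (Fin n → Fin (b + 1)) //
      ∑ l, (z.2 l : ℕ) + d (e z.1) = b} =>
        cf b (spG P₀ y₀ (C (∏ l, X l ^ (z.1.2 l : ℕ)) * H z.1.1 : Pol K N q p n))) = ⊤ := by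
    rw [eq_top_iff]
    intro v _
    have h1 := (rw_mem T (DH := fun i => D (e i)) (dH := fun i => d (e i)) hH P₀ y₀
      (EF.uncf_hom v)).1 (hb _ (EF.uncf_hom v))
    rw [EF.cf_uncf] at h1
    exact h1
  obtain ⟨I, a, ha, hs, hli⟩ := exists_linearIndependent' L
    fun z : {z : Fin m × (Fin n → Fin (b + 1)) // ∑ l, (z.2 l : ℕ) + d (e z.1) = b} =>
      cf b (spG P₀ y₀ (C (∏ l, X l ^ (z.1.2 l : ℕ)) * H z.1.1 : Pol K N q p n))
  rw [hspan] at hs
  have hI : Finite I := Finite.of_injective a ha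
  have := Fintype.ofFinite I
  have hcard : Fintype.card I = (Mo n b).card := by
    have h1 := finrank_span_eq_card hli
    rw [hs, finrank_top, Module.finrank_fin_fun] at h1
    exact h1.symm
  obtain ⟨f⟩ : Nonempty (Fin (Mo n b).card ≃ I) := ⟨(finCongr hcard.symm).trans (Fintype.equivFin I).symm⟩
  -- the square matrices
  obtain ⟨U, hU⟩ : ∃ U : Matrix (Fin (Mo n b).card) (Fin (Mo n b).card) (Pl K N q p),
      U = Matrix.of fun i => cfG b (C (∏ l, X l ^ ((a (f i)).1.2 l : ℕ)) * Q (e (a (f i)).1.1)) :=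
    ⟨_, rfl⟩
  have hUi : ∀ i l, U i l = cfG b (C (∏ l, X l ^ ((a (f i)).1.2 l : ℕ)) *
      Q (e (a (f i)).1.1)) l := fun i l => by rw [hU, Matrix.of_apply]
  have hmon : ∀ i, BG T (D (e (a (f i)).1.1)) b (C (∏ l, X l ^ ((a (f i)).1.2 l : ℕ)) *
      Q (e (a (f i)).1.1) : Pol K N q p n) := by
    intro i
    have h2 := (a (f i)).2
    have h3 : BH 0 (∑ l, ((a (f i)).1.2 l : ℕ)) (∏ l, X l ^ ((a (f i)).1.2 l : ℕ) :
        MvPolynomial (Fin n) (MvPolynomial (Fin (N + 1)) K)) := by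
      have h4 := LamG_coef_BH (K := K) (N := N) 0 0 fun l => ((a (f i)).1.2 l : ℕ)
      rwa [pow_zero, C_1, one_mul] at h4
    have h1 := BG_mul (BG_C (T := T) (q := q) (p := p) h3) (hQ (e (a (f i)).1.1))
    rw [Nat.zero_add, h2] at h1
    exact h1
  have hwU : ∀ i l, ∀ μ ∈ (U i l).support, wt τ μ ≤ w (e (a (f i)).1.1) := by
    intro i l
    rw [hUi]
    exact I3_cX _ (I3_C _ (hw _)).1
  have hlead : ∀ i l, partWt τ (w (e (a (f i)).1.1)) (U i l) =
      cfG b (C (∏ l, X l ^ ((a (f i)).1.2 l : ℕ)) * H (a (f i)).1.1) l := by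
    intro i l
    rw [hUi, hHdef]
    unfold cfG
    rw [partWt_cX, (I3_C _ (hw _)).2]
  have hdet := TB.R1_det U (fun i => w (e (a (f i)).1.1)) hwU
  -- the leading part of the determinant does not vanish
  have h1 : ev P₀ y₀ (Matrix.of fun i l => partWt τ (w (e (a (f i)).1.1)) (U i l)).det ≠ 0 := by
    rw [I3_ev_det]
    have h2 : (Matrix.of fun i l => ev P₀ y₀ ((Matrix.of fun i l =>
        partWt τ (w (e (a (f i)).1.1)) (U i l)) i l)) = Matrix.of fun i =>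
        cf b (spG P₀ y₀ (C (∏ l, X l ^ ((a (f i)).1.2 l : ℕ)) * H (a (f i)).1.1 :
          Pol K N q p n)) := by
      ext i l
      rw [Matrix.of_apply, Matrix.of_apply, Matrix.of_apply, hlead, cf_spG]
    rw [h2]
    have h3 := hli.comp f f.injective
    have h4 := (Matrix.linearIndependent_rows_iff_isUnit (A := Matrix.of fun i =>
        cf b (spG P₀ y₀ (C (∏ l, X l ^ ((a (f i)).1.2 l : ℕ)) * H (a (f i)).1.1 :
          Pol K N q p n)))).1 h3
    rw [Matrix.isUnit_iff_isUnit_det] at h4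
    exact h4.ne_zero
  have h2 : T.sp P₀ U.det ≠ 0 := by
    intro h3
    refine h1 (G1_ev_sp T h₀.2.1 ?_)
    rw [← hdet.2, TB.sp_eq, TB.spR_partWt, ← TB.sp_eq, h3]
    ext m
    rw [SG.R1_coeff, coeff_zero, ite_self]
  have h3 : T.WH (∑ i, D (e (a (f i)).1.1)) U.det :=
    TB.R1_WH_det T U _ fun i l => by
      rw [hUi]
      exact cfG_WH (hmon i) l
  have h4 : ev P₀ y₀ U.det ≠ 0 := fun h5 => h2 (h₀.2.2 _ _ h3 h5)
  rw [I3_ev_det] at h4
  by_contra hx0
  refine EF.ver_ne (k := b) hx0 (Matrix.eq_zero_of_mulVec_eq_zero h4 ?_)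
  funext i
  have h5 := sum_cfG P₀ y₀ (hmon i) x
  rw [R1c_sp, map_mul, hx, mul_zero] at h5
  rw [Pi.zero_apply, ← h5]
  unfold Matrix.mulVec dotProduct
  refine Finset.sum_congr rfl fun l _ => ?_
  show ev P₀ y₀ (U i l) * ver b x l = _
  rw [hUi]

end

end Pool.Agent.Lib.MP_17a322_nt.VC
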