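import Pool.Agent.Lib.MP_17a322_nt.VC.R1
import Pool.Agent.Lib.MP_17a322_nt.VC.I2
import Pool.Agent.Lib.MP_17a322_nt.VC.I3
import Pool.Agent.Lib.MP_17a322_nt.EF.Y2
import Pool.Agent.Lib.MP_17a322_nt.EF.R1
import Pool.Agent.Lib.MP_17a322_nt.EF.R3
import Pool.Agent.Lib.MP_17a322_nt.EF.W1
import Pool.Agent.Lib.MP_17a322_nt.EG.C1
import Pool.Agent.Lib.MP_17a322_nt.TB.R1

/-!
Families over principal torus bundles over `A`: the leading parts of the elements of the ideal.
-/

universe u

namespace Pool.Agent.Lib.MP_17a322_nt.VC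

open MvPolynomial Height
open Pool.Agent.Lib.MP_17a322_nt.VA
open Pool.Agent.Lib.MP_17a322_nt.SL
open Pool.Agent.Lib.MP_17a322_nt.EF (Mo mo mn ver cf fam fm rk part hSub BH)
open Pool.Agent.Lib.MP_17a322_nt.TB (Tor ev maxWt partWt wt supp)
open Pool.Agent.Lib.MP_17a322_nt.EG
open Pool.Agent.Lib.MP_17a322_nt.VB (Pl)

section

variable {K : Type u} [Field K] {N q p n m s w : ℕ} {A : AV K N} (T : Tor A q p)

/-- A form with constant coefficients. -/
private noncomputable def i4Q (K : Type u) [Field K] (N q p n k : ℕ) (b : Fin (Mo n k).card → K) :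
    Pol K N q p n :=
  C (∑ l, C (C (b l)) * mn (MvPolynomial (Fin (N + 1)) K) n k l)

private theorem i4Q_BG (k : ℕ) (b : Fin (Mo n k).card → K) :
    BG T 0 k (i4Q K N q p n k b) := by
  refine BG_C T ?_
  refine B1_sum _ _ fun l _ => ?_
  have h3 : BH 0 k (mn (MvPolynomial (Fin (N + 1)) K) n k l) := by
    constructor
    · rw [EF.R3_mn (MvPolynomial (Fin (N + 1)) K) n k l]
      refine isHomogeneous_monomial _ ?_
      rw [Finsupp.degree_eq_sum]
      exact EF.R1_mo l
    · intro b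
      rw [EF.R3_mn, coeff_monomial]
      split_ifs
      · exact isHomogeneous_one _ _
      · exact isHomogeneous_zero _ _ _
  have h5 := EF.W_BH_mul (EF.W_BH_C (n := n) (isHomogeneous_C (Fin (N + 1)) (b l))) h3
  rwa [add_zero, zero_add] at h5

private theorem i4Q_sp (k : ℕ) (b : Fin (Mo n k).card → K) {L : Type u} [Field L] [Algebra K L]
    (P : A.Pts L) (y : Fin q × Fin p → L) :
    spG P y (i4Q K N q p n k b) = ∑ l, C (algebraMap K L (b l)) * mn L n k l := by
  unfold i4Q
  rw [spG_C]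
  unfold EF.sp
  rw [map_sum]
  refine Finset.sum_congr rfl fun l _ => ?_
  rw [map_mul, map_C]
  congr 1
  · congr 1
    exact aeval_C _ _
  · rw [EF.R3_mn, EF.R3_mn, map_monomial, map_one]

/-- The leading parts of the elements of the ideal are in the ideal of the leading parts. -/
theorem I_two [Infinite K] {t : ℕ} (ht : 0 < t) {DH dH : Fin m → ℕ} {H : Fin m → Pol K N q p n}
    (hH : ∀ i, BG T (DH i) (dH i) (H i)) (hg : Good T H t) {D k : ℕ} (hk : 0 < k)
    {F : Pol K N q p n} (hF : BG T D k F) {L : Type u} [Field L] [IsAlgClosed L] [Algebra K L]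
    {P₀ : A.Pts L} {y₀ : Fin q × Fin p → L} (h₀ : GenB T P₀ y₀)
    (hFI : spG P₀ y₀ F ∈ fbG P₀ y₀ H) (τ : Fin q → ℝ) (w : ℝ)
    (hw : ∀ μ ∈ F.support, wt τ μ ≤ w) : spG P₀ y₀ (partWt τ w F) ∈ fbG P₀ y₀ (ldH τ H) := by
  classical
  by_contra hcon
  obtain ⟨hJ, hJt⟩ := hg τ L P₀ y₀ h₀
  have hJH : ∀ i, BG T (DH i) (dH i) (ldH τ H i) := fun i => BG_ld (hH i) τ
  have hJg := fbG_gr T hJH P₀ y₀
  -- the choice of the forms
  let φ : Option (Fin (Mo n k).card) → MvPolynomial (Fin n) L := fun z =>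
    z.elim (spG P₀ y₀ (partWt τ w F)) fun l => mn L n k l
  let G : Fin t → Finset (Option (Fin (Mo n k).card)) := fun i =>
    if (i : ℕ) = 0 then {none} else Finset.univ.image some
  have hmn : ∀ l, (mn L n k l).IsHomogeneous k := by
    intro l
    rw [EF.R3_mn]
    refine isHomogeneous_monomial _ ?_
    rw [Finsupp.degree_eq_sum]
    exact EF.R1_mo l
  have hφ : ∀ i, ∀ g ∈ G i, (φ g).IsHomogeneous k := by
    intro i g _
    rcases g with _ | l
    · exact spG_hom P₀ y₀ (BG_partWt hF τ w)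
    · exact hmn l
  obtain ⟨b, hb⟩ := EF.Y_choose (K := K) (t := t) (fbG P₀ y₀ (ldH τ H)) hJg
    (by
      intro 𝔭 _ h𝔭
      rw [← hJt]
      exact EF.y2_le h𝔭) G φ hφ (by
      intro i 𝔭 h𝔭 hJ𝔭 hG
      by_cases hi : (i : ℕ) = 0
      · have h1 : spG P₀ y₀ (partWt τ w F) ∈ 𝔭 := by
          refine hG none ?_
          show none ∈ (if (i : ℕ) = 0 then {none} else Finset.univ.image some :
            Finset (Option (Fin (Mo n k).card)))
          rw [if_pos hi]
          exact Finset.mem_singleton_self _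
        have h2 : fbG P₀ y₀ (ldH τ H) < 𝔭 :=
          lt_of_le_of_ne hJ𝔭 fun h => hcon (by rw [h]; exact h1)
        have h3 := EF.y2_lt (L := L) h2
        rw [hJt] at h3
        rw [hi, zero_add, Nat.cast_one]
        exact h3
      · refine CodA_all (L := L) (n := n) (t := t) (I := fbG P₀ y₀ (ldH τ H)) hk
          (i := (i : ℕ) + 1) i.2 𝔭 h𝔭 hJ𝔭 ?_
        rintro _ ⟨l, rfl⟩
        refine hG (some l) ?_
        show some l ∈ (if (i : ℕ) = 0 then {none} else Finset.univ.image some :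
          Finset (Option (Fin (Mo n k).card)))
        rw [if_neg hi]
        exact Finset.mem_image_of_mem _ (Finset.mem_univ _))
  -- the forms
  let Q : Fin (t - 1) → Pol K N q p n := fun j =>
    i4Q K N q p n k fun l => b ⟨j + 1, by omega⟩ (some l)
  let Ω : Fin m ⊕ Option (Fin (t - 1)) → Pol K N q p n :=
    Sum.elim H fun z => z.elim F Q
  have hΩ : ∀ z, BG T (Sum.elim DH (fun z : Option (Fin (t - 1)) => z.elim D fun _ => 0) z)
      (Sum.elim dH (fun _ => k) z) (Ω z) := by
    rintro (i | (_ | j))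
    · exact hH i
    · exact hF
    · exact i4Q_BG T k _
  have hlead := I_lead T hΩ τ
    (Sum.elim (fun i => EG.mx τ (H i)) fun z : Option (Fin (t - 1)) => z.elim w fun _ => 0)
    (by
      rintro (i | (_ | j)) μ hμ
      · exact le_mx τ hμ
      · exact hw μ hμ
      · exact (TB.R1_C τ _).1 μ hμ) h₀ (by
      intro X hX
      refine hb X (fun f hf => ?_) fun i => ?_
      · have h1 : fbG P₀ y₀ (ldH τ H) ≤ RingHom.ker (eval X) := by
          unfold fbG
          rw [Ideal.span_le]
          rintro _ ⟨i, rfl⟩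
          exact hX (Sum.inl i)
        exact h1 hf
      · by_cases hi : (i : ℕ) = 0
        · have h1 : eval X (spG P₀ y₀ (partWt τ w F)) = 0 := hX (Sum.inr none)
          show eval X (∑ g ∈ (if (i : ℕ) = 0 then {none} else Finset.univ.image some :
            Finset (Option (Fin (Mo n k).card))), C (algebraMap K L (b i g)) * φ g) = 0
          rw [if_pos hi, Finset.sum_singleton, map_mul]
          show _ * eval X (spG P₀ y₀ (partWt τ w F)) = 0
          rw [h1, mul_zero]
        · have h1 : eval X (spG P₀ y₀ (partWt τ 0 (Q ⟨(i : ℕ) - 1, by omega⟩))) = 0 :=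
            hX (Sum.inr (some ⟨(i : ℕ) - 1, by omega⟩))
          have h2 : partWt τ 0 (Q ⟨(i : ℕ) - 1, by omega⟩) = Q ⟨(i : ℕ) - 1, by omega⟩ :=
            (TB.R1_C τ _).2
          have h3 : (⟨(i : ℕ) - 1 + 1, by omega⟩ : Fin t) = i := Fin.ext (by simp; omega)
          have h4 : spG P₀ y₀ (Q ⟨(i : ℕ) - 1, by omega⟩) =
              ∑ l, C (algebraMap K L (b i (some l))) * mn L n k l := by
            refine (i4Q_sp (A := A) k _ P₀ y₀).trans ?_
            refine Finset.sum_congr rfl fun l _ => ?_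
            show C (algebraMap K L (b ⟨(i : ℕ) - 1 + 1, _⟩ (some l))) * _ = _
            rw [h3]
          rw [h2, h4] at h1
          show eval X (∑ g ∈ (if (i : ℕ) = 0 then {none} else Finset.univ.image some :
            Finset (Option (Fin (Mo n k).card))), C (algebraMap K L (b i g)) * φ g) = 0
          rw [if_neg hi, Finset.sum_image (fun _ _ _ _ h => Option.some_injective _ h)]
          exact h1)
  -- a common zero
  obtain ⟨hI, hIt⟩ := Good_zero T hg P₀ y₀ h₀
  obtain ⟨X, hX0, hXI, hXQ⟩ := I_dim ht hk hI (fbG_gr T hH P₀ y₀) hIt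
    (fun j => spG P₀ y₀ (Q j)) fun j => spG_hom P₀ y₀ (i4Q_BG T k _)
  refine hX0 (hlead X ?_)
  rintro (i | (_ | j))
  · exact hXI _ (Ideal.subset_span ⟨i, rfl⟩)
  · exact hXI _ hFI
  · exact hXQ j

end

end Pool.Agent.Lib.MP_17a322_nt.VC
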