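import Pool.Agent.Lib.MP_17a322_nt.VC.S1
import Pool.Agent.Lib.MP_17a322_nt.VC.I1
import Pool.Agent.Lib.MP_17a322_nt.VC.I2
import Pool.Agent.Lib.MP_17a322_nt.VC.I4
import Pool.Agent.Lib.MP_17a322_nt.EG.R1
import Pool.Agent.Lib.MP_17a322_nt.EF.W1
import Pool.Agent.Lib.MP_17a322_nt.VB.A1

/-!
Families over principal torus bundles over `A`: forms whose leading parts are independent modulo the
ideal of the leading parts.
-/

universe u

namespace Pool.Agent.Lib.MP_17a322_nt.VC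

open MvPolynomial Height
open Pool.Agent.Lib.MP_17a322_nt.VA
open Pool.Agent.Lib.MP_17a322_nt.SL
open Pool.Agent.Lib.MP_17a322_nt.EF (BH Mo mo mn ver cf uncf_cf mo_inj R3_mn)
open Pool.Agent.Lib.MP_17a322_nt.TB (Tor ev maxWt partWt wt supp yd wt_yd spR_coeff sp_eq spR_partWt
  spR_support)
open Pool.Agent.Lib.MP_17a322_nt.EG
open Pool.Agent.Lib.MP_17a322_nt.VB (Pl mnr InRow IndP IndV Rk ExcV hV mnr_map)

/-! ### the part of weight at most `w` -/

section

variable {q p n : ℕ} {R : Type*} [CommRing R]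

/-- The part of weight at most `w`. -/
noncomputable def I5t (τ : Fin q → ℝ) (w : ℝ) (b : MvPolynomial (Fin q × Fin p) R) :
    MvPolynomial (Fin q × Fin p) R :=
  open Classical in ∑ μ ∈ b.support.filter fun μ => wt τ μ ≤ w, monomial μ (coeff μ b)

theorem I5t_coeff (τ : Fin q → ℝ) (w : ℝ) (b : MvPolynomial (Fin q × Fin p) R)
    (m : Fin q × Fin p →₀ ℕ) :
    coeff m (I5t τ w b) = open Classical in if wt τ m ≤ w then coeff m b else 0 := by
  classical
  unfold I5t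
  rw [coeff_sum]
  simp only [coeff_monomial]
  rw [Finset.sum_ite_eq']
  by_cases h2 : wt τ m ≤ w
  · rw [if_pos h2]
    by_cases h3 : m ∈ b.support
    · rw [if_pos (Finset.mem_filter.2 ⟨h3, h2⟩)]
    · rw [if_neg fun h4 => h3 (Finset.mem_filter.1 h4).1, notMem_support_iff.1 h3]
  · rw [if_neg h2]
    have h3 : m ∉ b.support.filter fun m => wt τ m ≤ w := fun h4 =>
      h2 (Finset.mem_filter.1 h4).2
    rw [if_neg h3]

theorem I5t_wt {τ : Fin q → ℝ} {w : ℝ} {b : MvPolynomial (Fin q × Fin p) R}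
    {m : Fin q × Fin p →₀ ℕ} (hm : coeff m (I5t τ w b) ≠ 0) : wt τ m ≤ w := by
  classical
  rw [I5t_coeff] at hm
  by_contra h
  rw [if_neg h] at hm
  exact hm rfl

theorem I5t_part (τ : Fin q → ℝ) (w : ℝ) (b : MvPolynomial (Fin q × Fin p) R) :
    partWt τ w (I5t τ w b) = partWt τ w b := by
  classical
  ext m
  rw [EG.coeff_partWt, EG.coeff_partWt, I5t_coeff]
  by_cases h : wt τ m = w
  · rw [if_pos h, if_pos h, if_pos h.le]
  · rw [if_neg h, if_neg h]

end

section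

variable {K : Type u} [Field K] {N q p n m s w : ℕ} {A : AV K N} (T : Tor A q p)

theorem I5t_WH {D : ℕ} {b : Pl K N q p} (hb : T.WH D b) (τ : Fin q → ℝ) (w : ℝ) :
    T.WH D (I5t τ w b) := by
  classical
  intro m hm
  rw [I5t_coeff] at hm ⊢
  by_cases h : wt τ m ≤ w
  · rw [if_pos h] at hm ⊢
    exact hb m hm
  · rw [if_neg h] at hm
    exact absurd rfl hm

theorem I5_sp_part {L : Type u} [Field L] [Algebra K L] (P : A.Pts L) (τ : Fin q → ℝ) (w : ℝ)
    (b : Pl K N q p) : T.sp P (partWt τ w b) = SG.partWt τ w (T.sp P b) := by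
  rw [sp_eq, sp_eq, spR_partWt]

theorem I5t_sp {L : Type u} [Field L] [Algebra K L] (P : A.Pts L) {τ : Fin q → ℝ} {w : ℝ}
    {b : Pl K N q p} (h : ∀ m, coeff m (T.sp P b) ≠ 0 → SG.wt τ m ≤ w) :
    T.sp P (I5t τ w b) = T.sp P b := by
  classical
  ext m
  have h1 : (I5t τ w b).support ⊆ b.support := by
    intro μ hμ
    rw [mem_support_iff, I5t_coeff] at hμ
    rw [mem_support_iff]
    intro h0
    rw [h0, ite_self] at hμ
    exact hμ rfl
  have h2 : coeff m (T.sp P (I5t τ w b)) = ∑ μ ∈ b.support,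
      if yd μ = m then (aeval (A.x P) : MvPolynomial (Fin (N + 1)) K →ₐ[K] L).toRingHom
        (coeff μ (I5t τ w b)) * ∏ i, aeval (A.x P) (T.η i.1 i.2) ^ μ i else 0 := by
    rw [sp_eq, spR_coeff]
    refine Finset.sum_subset h1 fun μ _ hμ => ?_
    rw [notMem_support_iff.1 hμ, map_zero, zero_mul, ite_self]
  by_cases h3 : SG.wt τ m ≤ w
  · rw [h2, sp_eq, spR_coeff]
    refine Finset.sum_congr rfl fun μ _ => ?_
    by_cases h4 : yd μ = m
    · rw [if_pos h4, if_pos h4, I5t_coeff, if_pos (by rw [← wt_yd, h4]; exact h3)]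
    · rw [if_neg h4, if_neg h4]
  · have h4 : coeff m (T.sp P b) = 0 := by
      by_contra h5
      exact h3 (h m h5)
    rw [h4, h2]
    refine Finset.sum_eq_zero fun μ _ => ?_
    by_cases h5 : yd μ = m
    · rw [if_pos h5, I5t_coeff, if_neg (by rw [← wt_yd, h5]; exact h3), map_zero, zero_mul]
    · rw [if_neg h5]

theorem I5t_ev {L : Type u} [Field L] [Algebra K L] {P : A.Pts L} {y : Fin q × Fin p → L}
    (hy : T.On P y) {τ : Fin q → ℝ} {w : ℝ} {b : Pl K N q p}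
    (h : ∀ m, coeff m (T.sp P b) ≠ 0 → SG.wt τ m ≤ w) : ev P y (I5t τ w b) = ev P y b := by
  have h1 : T.sp P (I5t τ w b - b) = 0 := by
    rw [← TB.R2_sp_eq, map_sub, TB.R2_sp_eq, TB.R2_sp_eq, I5t_sp T P h, sub_self]
  have h2 := G1_ev_sp T hy h1
  have h3 : ev P y (I5t τ w b - b) = ev P y (I5t τ w b) - ev P y b :=
    map_sub (G1_ev P y) _ _
  rw [h3] at h2
  exact sub_eq_zero.1 h2

/-- The weights of the values on the bundle. -/
theorem I5_sp_wt {k : ℕ} {L : Type u} [Field L] [Algebra K L] (P : A.Pts L) (τ : Fin q → ℝ)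
    (Λ : Fin k → Pl K N q p) (l : Fin k) : ∀ m ∈ (T.sp P (Λ l)).support,
      SG.wt τ m ≤ maxWt τ Λ := by
  intro m hm
  rw [sp_eq] at hm
  obtain ⟨μ, hμ, rfl⟩ := spR_support _ _ _ hm
  rw [wt_yd]
  exact TB.le_maxWt τ Λ hμ

/-! ### the form with given coefficients -/

/-- The form of degree `k` with the coefficients `ζ l`. -/
noncomputable def I5F (k : ℕ) (ζ : Fin (Mo n k).card → Pl K N q p) : Pol K N q p n :=
  ∑ l, emb (ζ l) * C (mn (MvPolynomial (Fin (N + 1)) K) n k l)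

theorem I5_emb_BG {D : ℕ} {b : Pl K N q p} (hb : T.WH D b) :
    BG T D 0 (emb b : Pol K N q p n) := by
  intro μ hμ
  have h1 : coeff μ (emb b : Pol K N q p n) = C (coeff μ b) := by
    unfold emb
    rw [coeff_map]
  rw [h1] at hμ ⊢
  have h2 : coeff μ b ≠ 0 := fun h => hμ (by rw [h, C_0])
  obtain ⟨δ, h3, h4⟩ := hb μ h2
  exact ⟨δ, EF.W_BH_C h3, h4⟩

theorem I5F_BG {D k : ℕ} {ζ : Fin (Mo n k).card → Pl K N q p} (hζ : ∀ l, T.WH D (ζ l)) :
    BG T D k (I5F k ζ) := by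
  refine BG_sum _ _ fun l _ => ?_
  have h1 := BG_mul (I5_emb_BG (n := n) T (hζ l)) (BG_C T (Ra_mn_BH (K := K) (N := N) n k l))
  rw [add_zero, zero_add] at h1
  exact h1

theorem I5_coeff (b : Pl K N q p) (f : MvPolynomial (Fin n) (MvPolynomial (Fin (N + 1)) K))
    (ν : Fin q × Fin p →₀ ℕ) (μ : Fin n →₀ ℕ) :
    coeff μ (coeff ν (emb b * C f : Pol K N q p n)) = coeff ν b * coeff μ f := by
  unfold emb
  rw [mul_comm, coeff_C_mul, coeff_map, mul_comm, coeff_C_mul]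

theorem I5F_cfG {k : ℕ} (ζ : Fin (Mo n k).card → Pl K N q p) (l : Fin (Mo n k).card) :
    cfG k (I5F k ζ) l = ζ l := by
  classical
  ext1 ν
  unfold cfG I5F
  rw [coeff_cX, coeff_sum, coeff_sum, Finset.sum_eq_single l]
  · rw [I5_coeff, R3_mn, coeff_monomial, if_pos rfl, mul_one]
  · intro l' _ hl'
    rw [I5_coeff, R3_mn, coeff_monomial, if_neg, mul_zero]
    intro h
    exact hl' (mo_inj (Finsupp.equivFunOnFinite.symm.injective h))
  · intro h
    exact absurd (Finset.mem_univ l) h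

theorem I5F_wt {D k : ℕ} {ζ : Fin (Mo n k).card → Pl K N q p} (hζ : ∀ l, T.WH D (ζ l))
    {τ : Fin q → ℝ} {w : ℝ} (h : ∀ l m, coeff m (ζ l) ≠ 0 → wt τ m ≤ w) :
    ∀ μ ∈ (I5F k ζ).support, wt τ μ ≤ w := by
  intro μ hμ
  obtain ⟨l, hl⟩ := (cfG_supp (I5F_BG T hζ) μ).1 (mem_support_iff.1 hμ)
  rw [I5F_cfG] at hl
  exact h l μ hl

theorem I5F_part {k : ℕ} (ζ : Fin (Mo n k).card → Pl K N q p) (τ : Fin q → ℝ) (w : ℝ)
    (l : Fin (Mo n k).card) : cfG k (partWt τ w (I5F k ζ)) l = partWt τ w (ζ l) := by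
  rw [← I5F_cfG ζ l]
  unfold cfG
  rw [partWt_cX]

end

/-! ### minors -/

section

/-- The rule of Cramer. -/
theorem I5_cramer {R : Type*} [CommRing R] {g n : ℕ} (M : Fin g → Fin n → R) (e : Fin g → Fin n)
    (i : Fin g) : ∃ c : Fin g → R, ∀ l, mnr M (Function.update e i l) = ∑ k, c k * M k l := by
  refine ⟨fun k => (Matrix.of fun i j => M i (e j)).adjugate i k, fun l => ?_⟩
  have h1 : (Matrix.of fun i' j => M i' (Function.update e i l j)) =
      (Matrix.of fun i j => M i (e j)).updateCol i fun k => M k l := by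
    ext1 i' j
    rw [Matrix.of_apply, Matrix.updateCol_apply]
    by_cases hj : j = i
    · rw [hj, Function.update_self, if_pos rfl]
    · rw [Function.update_of_ne hj, if_neg hj, Matrix.of_apply]
  unfold mnr
  rw [h1, ← Matrix.cramer_apply, Matrix.cramer_eq_adjugate_mulVec]
  rfl

theorem I5_update {R : Type*} [CommRing R] {g n : ℕ} (M : Fin g → Fin n → R) (e : Fin g → Fin n)
    (i i' : Fin g) :
    mnr M (Function.update e i (e i')) = if i = i' then mnr M e else 0 := by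
  by_cases h : i = i'
  · rw [if_pos h, h, Function.update_eq_self]
  · rw [if_neg h]
    unfold mnr
    refine Matrix.det_zero_of_column_eq h fun k => ?_
    rw [Matrix.of_apply, Matrix.of_apply, Function.update_self,
      Function.update_of_ne (Ne.symm h)]

end

section

variable {K : Type u} [Field K] {N q p n m s w : ℕ} {A : AV K N} (T : Tor A q p)

theorem I5_mnr_sp {g n : ℕ} {L : Type u} [Field L] [Algebra K L] (P : A.Pts L)
    (M : Matrix (Fin g) (Fin n) (Pl K N q p)) (e : Fin g → Fin n) :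
    mnr (fun i l => T.sp P (M i l)) e = T.sp P (mnr M e) := by
  have h := mnr_map (TB.R2_sp T P) M e
  rw [TB.R2_sp_eq] at h
  exact h

theorem I5_mnr_ev {g n : ℕ} {L : Type u} [Field L] [Algebra K L] (P : A.Pts L)
    (y : Fin q × Fin p → L) (M : Matrix (Fin g) (Fin n) (Pl K N q p)) (e : Fin g → Fin n) :
    mnr (fun i l => ev P y (M i l)) e = ev P y (mnr M e) :=
  mnr_map (G1_ev P y) M e

theorem I5_mnr_WH {g n : ℕ} {D' : Fin g → ℕ} {M : Matrix (Fin g) (Fin n) (Pl K N q p)}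
    (hM : ∀ i l, T.WH (D' i) (M i l)) (e : Fin g → Fin n) : T.WH (∑ i, D' i) (mnr M e) :=
  TB.R1_WH_det T (Matrix.of fun i j => M i (e j)) D' fun i l => hM i (e l)

theorem I5_part_WH {D : ℕ} {b : Pl K N q p} (hb : T.WH D b) (τ : Fin q → ℝ) (w : ℝ) :
    T.WH D (partWt τ w b) := by
  classical
  intro m hm
  rw [EG.coeff_partWt] at hm ⊢
  by_cases h : wt τ m = w
  · rw [if_pos h] at hm ⊢
    exact hb m hm
  · rw [if_neg h] at hm
    exact absurd rfl hm

/-- Independence at a generic point of the bundle gives independence on the bundle. -/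
theorem I5_dom {ι : Type} [Fintype ι] {n : ℕ} {v : ι → Fin n → Pl K N q p} {Dv : ι → ℕ}
    (hv : ∀ x l, T.WH (Dv x) (v x l)) {L : Type u} [Field L] [Algebra K L] {P₀ : A.Pts L}
    {y₀ : Fin q × Fin p → L} (h₀ : GenB T P₀ y₀)
    (h : LinearIndependent L fun x l => ev P₀ y₀ (v x l)) :
    LinearIndependent (MvPolynomial (Fin q) L) fun x l => T.sp P₀ (v x l) := by
  classical
  obtain ⟨k, ⟨σ⟩⟩ : ∃ k, Nonempty (Fin k ≃ ι) := ⟨_, ⟨(Fintype.equivFin ι).symm⟩⟩
  have h1 := S_rk T (G := fun i l => v (σ i) l) (D' := fun i => Dv (σ i)) (fun i l => hv (σ i) l)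
    h₀ (h.comp σ σ.injective)
  obtain ⟨e, he⟩ := h1 L P₀ h₀.1
  rw [← linearIndependent_equiv σ, Fintype.linearIndependent_iff]
  intro a ha
  have h5 := Matrix.eq_zero_of_vecMul_eq_zero he (v := a) (by
    funext l
    have h6 := congrFun ha (e l)
    rw [Finset.sum_apply] at h6
    exact h6)
  exact congrFun h5

/-- The leading parts of the minors are in the ideal of the leading parts. -/
theorem I5_row [Infinite K] {t : ℕ} (ht : 0 < t) {DH dH : Fin m → ℕ} {H : Fin m → Pol K N q p n}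
    (hH : ∀ i, BG T (DH i) (dH i) (H i)) (hg : Good T H t) {k g' : ℕ} (hk : 0 < k)
    {G' : Matrix (Fin g') (Fin (Mo n k).card) (Pl K N q p)} (hG' : IsRw T H k G')
    {L : Type u} [Field L] [IsAlgClosed L] [Algebra K L]
    {P₀ : A.Pts L} {y₀ : Fin q × Fin p → L} (h₀ : GenB T P₀ y₀) {τ : Fin q → ℝ} {w : ℝ}
    (e : Fin g' → Fin (Mo n k).card)
    (hmax : ∀ e' m, coeff m (mnr (fun i l => T.sp P₀ (G' i l)) e') ≠ 0 → SG.wt τ m ≤ w)
    (i : Fin g') : ∃ F : MvPolynomial (Fin n) L, F.IsHomogeneous k ∧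
      F ∈ fbG P₀ y₀ (ldH τ H) ∧
      ∀ l, cf k F l = ev P₀ y₀ (partWt τ w (mnr G' (Function.update e i l))) := by
  obtain ⟨⟨D', hD'⟩, hrow, -⟩ := hG'
  have hb : ∀ l, T.WH (∑ i, D' i) (mnr G' (Function.update e i l)) := fun l =>
    I5_mnr_WH T hD' _
  have hζ : ∀ l, T.WH (∑ i, D' i) (I5t τ w (mnr G' (Function.update e i l))) := fun l =>
    I5t_WH T (hb l) τ w
  obtain ⟨F, hF⟩ : ∃ F : Pol K N q p n,
      F = I5F k fun l => I5t τ w (mnr G' (Function.update e i l)) := ⟨_, rfl⟩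
  have hF₁ : BG T (∑ i, D' i) k F := by
    rw [hF]
    exact I5F_BG T hζ
  have hev : ∀ l, ev P₀ y₀ (I5t τ w (mnr G' (Function.update e i l))) =
      mnr (fun i l => ev P₀ y₀ (G' i l)) (Function.update e i l) := by
    intro l
    rw [I5_mnr_ev]
    refine I5t_ev T h₀.2.1 fun m hm => hmax (Function.update e i l) m ?_
    rw [I5_mnr_sp]
    exact hm
  have hmem : spG P₀ y₀ F ∈ fbG P₀ y₀ H := by
    refine ((hrow L P₀ y₀ h₀).2 _ (spG_hom P₀ y₀ hF₁)).2 ?_
    obtain ⟨c, hc⟩ := I5_cramer (fun i l => ev P₀ y₀ (G' i l)) e i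
    have h1 : cf k (spG P₀ y₀ F) = ∑ j, c j • fun l => ev P₀ y₀ (G' j l) := by
      funext l
      rw [cf_spG, hF, I5F_cfG, hev, hc, Finset.sum_apply]
      rfl
    rw [h1]
    exact Submodule.sum_mem _ fun j _ => Submodule.smul_mem _ _ (Submodule.subset_span ⟨j, rfl⟩)
  have hwt : ∀ μ ∈ F.support, wt τ μ ≤ w := by
    rw [hF]
    exact I5F_wt T hζ fun l m hm => I5t_wt hm
  have h2 := I_two T ht hH hg hk hF₁ h₀ hmem τ w hwt
  refine ⟨_, spG_hom P₀ y₀ (BG_partWt hF₁ τ w), h2, fun l => ?_⟩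
  rw [cf_spG, hF, I5F_part, I5t_part]

/-- Independence at the generic point. -/
theorem I5_li [Infinite K] {t : ℕ} (ht : 0 < t) {DH dH : Fin m → ℕ} {H : Fin m → Pol K N q p n}
    (hH : ∀ i, BG T (DH i) (dH i) (H i)) (hg : Good T H t) {k g' : ℕ} (hk : 0 < k)
    {G' : Matrix (Fin g') (Fin (Mo n k).card) (Pl K N q p)} (hG' : IsRw T H k G') {s' D : ℕ}
    (Φ : Fin s' → Pol K N q p n) (hΦ : ∀ i, BG T D k (Φ i)) (τ : Fin q → ℝ)
    (J : Finset (Fin s')) {L : Type u} [Field L] [IsAlgClosed L] [Algebra K L]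
    {P₀ : A.Pts L} {y₀ : Fin q × Fin p → L} (h₀ : GenB T P₀ y₀)
    (h : ∀ b : Fin s' → L, ∑ i ∈ J, C (b i) * spG P₀ y₀ (ld τ (Φ i)) ∈ fbG P₀ y₀ (ldH τ H) →
      ∀ i ∈ J, b i = 0) (e : Fin g' → Fin (Mo n k).card) (w : ℝ)
    (hpart : SG.partWt τ w (mnr (fun i l => T.sp P₀ (G' i l)) e) ≠ 0)
    (hmax : ∀ e' m, coeff m (mnr (fun i l => T.sp P₀ (G' i l)) e') ≠ 0 → SG.wt τ m ≤ w) :
    LinearIndependent L fun (x : Fin g' ⊕ J) l => ev P₀ y₀
      ((Sum.elim (fun i l => partWt τ w (mnr G' (Function.update e i l)))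
        (fun (j : J) l => partWt τ (maxWt τ (cfG k (Φ j))) (cfG k (Φ j) l)) :
          Fin g' ⊕ J → Fin (Mo n k).card → Pl K N q p) x l) := by
  classical
  choose F hF1 hF2 hF3 using fun i => I5_row T ht hH hg hk hG' h₀ e hmax i
  obtain ⟨⟨D', hD'⟩, -, -⟩ := hG'
  rw [Fintype.linearIndependent_iff]
  intro c hc
  rw [Fintype.sum_sum_type] at hc
  simp only [Sum.elim_inl, Sum.elim_inr] at hc
  obtain ⟨b, hb⟩ : ∃ b : Fin s' → L, ∀ j : J, b j = c (Sum.inr j) :=
    ⟨fun i => if hi : i ∈ J then c (Sum.inr ⟨i, hi⟩) else 0, fun j => dif_pos j.2⟩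
  have hsum : ∑ i ∈ J, C (b i) * spG P₀ y₀ (ld τ (Φ i)) =
      ∑ j : J, C (c (Sum.inr j)) * spG P₀ y₀ (ld τ (Φ j)) := by
    rw [← Finset.sum_coe_sort J fun i => C (b i) * spG P₀ y₀ (ld τ (Φ i))]
    exact Finset.sum_congr rfl fun j _ => by rw [hb]
  have hZ : ∑ i, C (c (Sum.inl i)) * F i +
      ∑ j : J, C (c (Sum.inr j)) * spG P₀ y₀ (ld τ (Φ j)) = 0 := by
    have h1 : (∑ i, C (c (Sum.inl i)) * F i +
        ∑ j : J, C (c (Sum.inr j)) * spG P₀ y₀ (ld τ (Φ j))).IsHomogeneous k := by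
      refine (IsHomogeneous.sum _ _ _ fun i _ => ?_).add (IsHomogeneous.sum _ _ _ fun j _ => ?_)
      · have h2 := (isHomogeneous_C (Fin n) (c (Sum.inl i))).mul (hF1 i)
        rwa [zero_add] at h2
      · have h2 := (isHomogeneous_C (Fin n) (c (Sum.inr j))).mul
          (spG_hom P₀ y₀ (BG_ld (hΦ j) τ))
        rwa [zero_add] at h2
    rw [← uncf_cf h1]
    have h2 : cf k (∑ i, C (c (Sum.inl i)) * F i +
        ∑ j : J, C (c (Sum.inr j)) * spG P₀ y₀ (ld τ (Φ j))) = 0 := by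
      rw [← hc, ← EF.cfl_apply, map_add, map_sum, map_sum]
      simp only [← smul_eq_C_mul, map_smul, EF.cfl_apply]
      refine congrArg₂ _ (Finset.sum_congr rfl fun i _ => ?_)
        (Finset.sum_congr rfl fun j _ => ?_)
      · refine congrArg _ (funext fun l => ?_)
        exact hF3 i l
      · refine congrArg _ (funext fun l => ?_)
        rw [cf_spG, partWt_cfG (hΦ j)]
    rw [h2]
    unfold EF.uncf
    exact Finset.sum_eq_zero fun l _ => by rw [Pi.zero_apply, monomial_zero]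
  have hbJ := h b (by
    rw [hsum, eq_neg_of_add_eq_zero_right hZ]
    exact Ideal.neg_mem_iff _ |>.2 (Ideal.sum_mem _ fun i _ => Ideal.mul_mem_left _ _ (hF2 i)))
  have hr : ∀ j : J, c (Sum.inr j) = 0 := fun j => by
    rw [← hb]
    exact hbJ j j.2
  rintro (i' | j)
  · have h1 := congrFun hc (e i')
    rw [Pi.add_apply, Finset.sum_apply, Finset.sum_apply] at h1
    simp only [Pi.smul_apply, hr, smul_eq_mul, zero_mul, Finset.sum_const_zero, add_zero,
      Pi.zero_apply] at h1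
    rw [Finset.sum_eq_single i'] at h1
    · rw [I5_update, if_pos rfl] at h1
      refine (mul_eq_zero.1 h1).resolve_right fun h2 => hpart ?_
      have h3 := h₀.2.2 _ _ (I5_part_WH T (I5_mnr_WH T hD' e) τ w) h2
      rw [I5_sp_part] at h3
      rw [I5_mnr_sp]
      exact h3
    · intro i _ hi
      rw [I5_update, if_neg hi]
      have h2 : partWt τ w (0 : Pl K N q p) = 0 := by
        ext1 m
        rw [EG.coeff_partWt, coeff_zero, ite_self]
      rw [h2]
      have h3 : ev P₀ y₀ (0 : Pl K N q p) = 0 := map_zero (G1_ev P₀ y₀)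
      rw [h3, mul_zero]
    · intro h
      exact absurd (Finset.mem_univ i') h
  · exact hr j

/-- Forms whose leading parts are independent modulo the ideal of the leading parts. -/
theorem I_ind [Infinite K] {t : ℕ} (ht : 0 < t) {DH dH : Fin m → ℕ} {H : Fin m → Pol K N q p n}
    (hH : ∀ i, BG T (DH i) (dH i) (H i)) (hg : Good T H t) {k g' : ℕ} (hk : 0 < k)
    {G' : Matrix (Fin g') (Fin (Mo n k).card) (Pl K N q p)} (hG' : IsRw T H k G') {s' D : ℕ}
    (Φ : Fin s' → Pol K N q p n) (hΦ : ∀ i, BG T D k (Φ i)) (τ : Fin q → ℝ)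
    (J : Finset (Fin s')) {L : Type u} [Field L] [IsAlgClosed L] [Algebra K L]
    {P₀ : A.Pts L} {y₀ : Fin q × Fin p → L} (h₀ : GenB T P₀ y₀)
    (h : ∀ b : Fin s' → L, ∑ i ∈ J, C (b i) * spG P₀ y₀ (ld τ (Φ i)) ∈ fbG P₀ y₀ (ldH τ H) →
      ∀ i ∈ J, b i = 0) : IndV T G' (fun i l => cfG k (Φ i) l) τ J := by
  classical
  have hG := hG'
  obtain ⟨⟨D', hD'⟩, hrow, -⟩ := hG
  refine I_tr T (D' := D') hD' (fun j l => cfG_WH (hΦ j) l) h₀.1 ?_
  refine I_one (fun j l m hm => I5_sp_wt T P₀ τ (cfG k (Φ j)) l m hm) ?_ ?_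
  · exact S_rk T hD' h₀ (hrow L P₀ y₀ h₀).1 L P₀ h₀.1
  · intro e w hpart hmax
    have h2 := I5_dom T (Dv := Sum.elim (fun _ => ∑ i, D' i) fun _ => D) (fun x l => by
      rcases x with i | j
      · exact I5_part_WH T (I5_mnr_WH T hD' _) τ w
      · exact I5_part_WH T (cfG_WH (hΦ j) l) τ _) h₀
      (I5_li T ht hH hg hk hG' Φ hΦ τ J h₀ h e w hpart hmax)
    have h3 : (Sum.elim (fun (i : Fin g') l => SG.partWt τ w
        (mnr (fun i l => T.sp P₀ (G' i l)) (Function.update e i l)))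
        fun (j : J) l => SG.partWt τ (maxWt τ (cfG k (Φ j))) (T.sp P₀ (cfG k (Φ j) l))) =
        fun (x : Fin g' ⊕ J) l => T.sp P₀
      ((Sum.elim (fun i l => partWt τ w (mnr G' (Function.update e i l)))
        (fun (j : J) l => partWt τ (maxWt τ (cfG k (Φ j))) (cfG k (Φ j) l)) :
          Fin g' ⊕ J → Fin (Mo n k).card → Pl K N q p) x l) := by
      funext x l
      rcases x with i | j
      · rw [Sum.elim_inl, Sum.elim_inl, I5_sp_part, I5_mnr_sp]
      · rw [Sum.elim_inr, Sum.elim_inr, I5_sp_part]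
    show LinearIndependent (MvPolynomial (Fin q) L) (Sum.elim (fun (i : Fin g') l =>
      SG.partWt τ w (mnr (fun i l => T.sp P₀ (G' i l)) (Function.update e i l)))
        fun (j : J) l => SG.partWt τ (maxWt τ (cfG k (Φ j))) (T.sp P₀ (cfG k (Φ j) l)))
    rw [h3]
    exact h2

end

end Pool.Agent.Lib.MP_17a322_nt.VC
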