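import Pool.Agent.Lib.MP_17a322_nt.VC.R2
import Pool.Agent.Lib.MP_17a322_nt.VC.I4
import Pool.Agent.Lib.MP_17a322_nt.VB.A1

/-!
Families over principal torus bundles over `A`: the ideals of the leading parts have the same
dimensions.
-/

universe u

namespace Pool.Agent.Lib.MP_17a322_nt.VC

open MvPolynomial Height
open Pool.Agent.Lib.MP_17a322_nt.VA
open Pool.Agent.Lib.MP_17a322_nt.SL
open Pool.Agent.Lib.MP_17a322_nt.EF (BH Mo mo mn ver cf fam fm rk part hSub)
open Pool.Agent.Lib.MP_17a322_nt.TB (Tor ev maxWt partWt wt supp)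
open Pool.Agent.Lib.MP_17a322_nt.EG
open Pool.Agent.Lib.MP_17a322_nt.VB (Pl mnr)

section

variable {K : Type u} [Field K] {N q p n m : ℕ} {A : AV K N} (T : Tor A q p)

/-- The form of degree `k` with the coefficients `z`. -/
private noncomputable def i6F (k : ℕ) (z : Fin (Mo n k).card → Pl K N q p) : Pol K N q p n :=
  ∑ l, (emb (z l) : Pol K N q p n) * C (mn (MvPolynomial (Fin (N + 1)) K) n k l)

private theorem i6F_cfG (k : ℕ) (z : Fin (Mo n k).card → Pl K N q p) (l : Fin (Mo n k).card) :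
    cfG k (i6F k z) l = z l := by
  classical
  ext1 ν
  unfold cfG
  rw [coeff_cX]
  have h1 : coeff ν (i6F k z) = EF.uncf k (fun l => coeff ν (z l)) := by
    unfold i6F EF.uncf emb
    rw [coeff_sum]
    refine Finset.sum_congr rfl fun l _ => ?_
    rw [mul_comm, coeff_C_mul, coeff_map, mul_comm, EF.R3_mn, C_mul_monomial, mul_one]
  rw [h1]
  exact congrFun (EF.cf_uncf _) l

private theorem i6_emb {ρ : ℕ} {R : Pl K N q p} (hR : T.WH ρ R) :
    BG T ρ 0 (emb R : Pol K N q p n) := by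
  intro μ hμ
  have h1 : coeff μ (emb R : Pol K N q p n) = C (coeff μ R) := by
    unfold emb
    rw [coeff_map]
  rw [h1] at hμ ⊢
  have h2 : coeff μ R ≠ 0 := fun h => hμ (by rw [h, C_0])
  obtain ⟨δ, h3, h4⟩ := hR μ h2
  exact ⟨δ, EF.W_BH_C h3, h4⟩

private theorem i6F_BG {D k : ℕ} {z : Fin (Mo n k).card → Pl K N q p} (hz : ∀ l, T.WH D (z l)) :
    BG T D k (i6F k z) := by
  unfold i6F
  refine BG_sum _ _ fun l _ => ?_
  have h3 : BH 0 k (mn (MvPolynomial (Fin (N + 1)) K) n k l) := by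
    constructor
    · rw [EF.R3_mn (MvPolynomial (Fin (N + 1)) K) n k l]
      refine isHomogeneous_monomial _ ?_
      rw [Finsupp.degree_eq_sum]
      exact EF.R1_mo l
    · intro b
      rw [EF.R3_mn, coeff_monomial]
      split_ifs
      · exact isHomogeneous_one _ _
      · exact isHomogeneous_zero _ _ _
  have h1 := BG_mul (i6_emb (n := n) T (hz l)) (BG_C (T := T) (q := q) (p := p) h3)
  rwa [add_zero, zero_add] at h1

/-- The monomials of weight at most `w`. -/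
private noncomputable def i6t (τ : Fin q → ℝ) (w : ℝ) (f : Pl K N q p) : Pl K N q p :=
  open Classical in ∑ μ ∈ f.support.filter fun μ => wt τ μ ≤ w, monomial μ (coeff μ f)

private theorem i6t_coeff (τ : Fin q → ℝ) (w : ℝ) (f : Pl K N q p) (μ : Fin q × Fin p →₀ ℕ) :
    coeff μ (i6t τ w f) = open Classical in if wt τ μ ≤ w then coeff μ f else 0 := by
  classical
  unfold i6t
  rw [coeff_sum]
  simp only [coeff_monomial]
  rw [Finset.sum_ite_eq']
  by_cases h : wt τ μ ≤ w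
  · rw [if_pos h]
    by_cases h1 : coeff μ f = 0
    · rw [h1, ite_self]
    · rw [if_pos (Finset.mem_filter.2 ⟨mem_support_iff.2 h1, h⟩)]
  · have h1 : μ ∉ f.support.filter fun μ => wt τ μ ≤ w := fun h1 => h (Finset.mem_filter.1 h1).2
    rw [if_neg h, if_neg h1]

private theorem i6t_WH {D : ℕ} {f : Pl K N q p} (hf : T.WH D f) (τ : Fin q → ℝ) (w : ℝ) :
    T.WH D (i6t τ w f) := by
  intro μ hμ
  rw [i6t_coeff] at hμ ⊢
  split_ifs at hμ ⊢ with h
  · exact hf μ hμ
  · exact absurd rfl hμ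

private theorem i6t_part (τ : Fin q → ℝ) (w : ℝ) (f : Pl K N q p) :
    partWt τ w (i6t τ w f) = partWt τ w f := by
  classical
  ext1 μ
  rw [coeff_partWt, coeff_partWt, i6t_coeff]
  by_cases h : wt τ μ = w
  · rw [if_pos h, if_pos h, if_pos h.le]
  · rw [if_neg h, if_neg h]

private theorem i6_sum (τ : Fin q → ℝ) (f : Pl K N q p) (S : Finset ℝ)
    (hS : ∀ μ ∈ f.support, wt τ μ ∈ S) : ∑ h ∈ S, partWt τ h f = f := by
  classical
  ext1 μ
  rw [coeff_sum]
  simp only [coeff_partWt]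
  rw [Finset.sum_ite_eq]
  by_cases h : coeff μ f = 0
  · rw [h, ite_self]
  · rw [if_pos (hS μ (mem_support_iff.2 h))]

private theorem i6t_ev {L : Type u} [Field L] [Algebra K L] (P : A.Pts L)
    (y : Fin q × Fin p → L) (τ : Fin q → ℝ) (w : ℝ) (f : Pl K N q p)
    (h : ∀ w', w < w' → ev P y (partWt τ w' f) = 0) : ev P y (i6t τ w f) = ev P y f := by
  classical
  have h1 : f = i6t τ w f + ∑ h ∈ (f.support.image (wt τ)).filter (w < ·), partWt τ h f := by
    ext1 μ
    rw [coeff_add, i6t_coeff, coeff_sum]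
    simp only [coeff_partWt]
    rw [Finset.sum_ite_eq]
    by_cases h2 : coeff μ f = 0
    · rw [h2, ite_self, ite_self, add_zero]
    · by_cases h3 : wt τ μ ≤ w
      · rw [if_pos h3, if_neg, add_zero]
        intro h4
        exact absurd (Finset.mem_filter.1 h4).2 (not_lt.2 h3)
      · rw [if_neg h3, if_pos, zero_add]
        exact Finset.mem_filter.2 ⟨Finset.mem_image_of_mem _ (mem_support_iff.2 h2), not_le.1 h3⟩
  have h2 : ev P y (∑ h ∈ (f.support.image (wt τ)).filter (w < ·), partWt τ h f) = 0 := by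
    show G1_ev P y _ = 0
    rw [map_sum]
    exact Finset.sum_eq_zero fun w' hw' => h w' (Finset.mem_filter.1 hw').2
  have h3 : ev P y f = ev P y (i6t τ w f) +
      ev P y (∑ h ∈ (f.support.image (wt τ)).filter (w < ·), partWt τ h f) := by
    conv_lhs => rw [h1]
    exact map_add (G1_ev P y) _ _
  rw [h3, h2, add_zero]

/-- The largest weight of the parts that do not vanish at the point. -/
private theorem i6_max {ι : Type} [Finite ι] (f : ι → Pl K N q p) (τ : Fin q → ℝ) {L : Type u}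
    [Field L] [Algebra K L] (P : A.Pts L) (y : Fin q × Fin p → L) (h : ∃ i, ev P y (f i) ≠ 0) :
    ∃ i w, ev P y (partWt τ w (f i)) ≠ 0 ∧
      ∀ j w', w < w' → ev P y (partWt τ w' (f j)) = 0 := by
  classical
  have := Fintype.ofFinite ι
  obtain ⟨S, hS⟩ : ∃ S : Finset ℝ, S = Finset.univ.biUnion fun i => (f i).support.image (wt τ) :=
    ⟨_, rfl⟩
  have hS1 : ∀ i, ∀ μ ∈ (f i).support, wt τ μ ∈ S := fun i μ hμ => by
    rw [hS]
    exact Finset.mem_biUnion.2 ⟨i, Finset.mem_univ _, Finset.mem_image_of_mem _ hμ⟩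
  have hS2 : ∀ i w', ev P y (partWt τ w' (f i)) ≠ 0 → w' ∈ S := by
    intro i w' h1
    have h2 : partWt τ w' (f i) ≠ 0 := by
      intro h3
      refine h1 ?_
      rw [h3]
      exact map_zero (G1_ev P y)
    obtain ⟨μ, hμ⟩ := ne_zero_iff.1 h2
    rw [coeff_partWt] at hμ
    by_cases h3 : wt τ μ = w'
    · rw [if_pos h3] at hμ
      rw [← h3]
      exact hS1 i μ (mem_support_iff.2 hμ)
    · rw [if_neg h3] at hμ
      exact absurd rfl hμ
  obtain ⟨i, hi⟩ := h
  obtain ⟨w, hw, hw0⟩ : ∃ w ∈ S, ev P y (partWt τ w (f i)) ≠ 0 := by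
    by_contra hcon
    push Not at hcon
    refine hi ?_
    have h1 : ev P y (∑ h ∈ S, partWt τ h (f i)) = 0 := by
      show G1_ev P y _ = 0
      rw [map_sum]
      exact Finset.sum_eq_zero fun w' hw' => hcon w' hw'
    rwa [i6_sum τ (f i) S (hS1 i)] at h1
  obtain ⟨S', hS'⟩ : ∃ S' : Finset ℝ, ∀ w', w' ∈ S' ↔
      w' ∈ S ∧ ∃ i, ev P y (partWt τ w' (f i)) ≠ 0 :=
    ⟨S.filter fun w' => ∃ i, ev P y (partWt τ w' (f i)) ≠ 0, fun w' => Finset.mem_filter⟩
  have hne : S'.Nonempty := ⟨w, (hS' w).2 ⟨hw, i, hw0⟩⟩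
  obtain ⟨-, i', hi'⟩ := (hS' _).1 (S'.max'_mem hne)
  refine ⟨i', _, hi', fun j w' hw' => ?_⟩
  by_contra h1
  exact absurd (S'.le_max' w' ((hS' w').2 ⟨hS2 j w' h1, j, h1⟩)) (not_le.2 hw')

private theorem i6_ev_mnr {g κ : ℕ} (G : Matrix (Fin g) (Fin κ) (Pl K N q p)) (e : Fin g → Fin κ)
    {L : Type u} [Field L] [Algebra K L] (P : A.Pts L) (y : Fin q × Fin p → L) :
    ev P y (mnr G e) = (Matrix.of fun i j => ev P y (G i (e j))).det := by
  show G1_ev P y (Matrix.of fun i j => G i (e j)).det = _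
  rw [RingHom.map_det]
  rfl

/-- If the leading parts of the rows are independent, the rows are independent. -/
private theorem i6_lead {ι κ : Type} [Finite ι] [Finite κ] (U : ι → κ → Pl K N q p) (D : ι → ℕ)
    (hU : ∀ i l, T.WH (D i) (U i l)) (τ : Fin q → ℝ) (w : ι → ℝ)
    (hw : ∀ i l, ∀ μ ∈ (U i l).support, wt τ μ ≤ w i) {L : Type u} [Field L] [Algebra K L]
    {P₀ : A.Pts L} {y₀ : Fin q × Fin p → L} (h₀ : GenB T P₀ y₀)
    (h : LinearIndependent L fun i l => ev P₀ y₀ (partWt τ (w i) (U i l))) :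
    LinearIndependent L fun i l => ev P₀ y₀ (U i l) := by
  classical
  have := Fintype.ofFinite ι
  obtain ⟨k, ⟨e⟩⟩ : ∃ k, Nonempty (Fin k ≃ ι) :=
    ⟨Fintype.card ι, ⟨(Fintype.equivFin _).symm⟩⟩
  obtain ⟨c, hc⟩ := EF.R0_minor _ (h.comp e e.injective)
  obtain ⟨M, hM⟩ : ∃ M : Matrix (Fin k) (Fin k) (Pl K N q p),
      M = Matrix.of fun i j => U (e i) (c j) := ⟨_, rfl⟩
  have hMi : ∀ i j, M i j = U (e i) (c j) := fun i j => by rw [hM, Matrix.of_apply]
  have hdet := TB.R1_det M (fun i => w (e i)) (fun i l => by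
    rw [hMi]
    exact hw _ _)
  have h1 : ev P₀ y₀ (Matrix.of fun i l => partWt τ (w (e i)) (M i l)).det ≠ 0 := by
    have h2 : ev P₀ y₀ (Matrix.of fun i l => partWt τ (w (e i)) (M i l)).det =
        (Matrix.of fun i l => ev P₀ y₀ (partWt τ (w (e i)) (M i l))).det := by
      show G1_ev P₀ y₀ _ = _
      rw [RingHom.map_det]
      rfl
    rw [h2, hM]
    exact hc
  have h2 : T.sp P₀ M.det ≠ 0 := by
    intro h3
    refine h1 (G1_ev_sp T h₀.2.1 ?_)
    rw [← hdet.2, TB.sp_eq, TB.spR_partWt, ← TB.sp_eq, h3]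
    ext m
    rw [SG.R1_coeff, coeff_zero, ite_self]
  have h3 : T.WH (∑ i, D (e i)) M.det :=
    TB.R1_WH_det T M _ fun i l => by
      rw [hMi]
      exact hU _ _
  have h4 : ev P₀ y₀ M.det ≠ 0 := fun h5 => h2 (h₀.2.2 _ _ h3 h5)
  have h5 : ev P₀ y₀ M.det = (Matrix.of fun i j => ev P₀ y₀ (M i j)).det := by
    show G1_ev P₀ y₀ _ = _
    rw [RingHom.map_det]
    rfl
  rw [h5] at h4
  rw [← linearIndependent_equiv e, Fintype.linearIndependent_iff]
  intro a ha
  have h6 := Matrix.eq_zero_of_vecMul_eq_zero h4 (v := a) (by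
    funext l
    have h6 := congrFun ha (c l)
    rw [Finset.sum_apply] at h6
    rw [hM]
    exact h6)
  exact congrFun h6

private theorem i6_zero {H : Fin m → Pol K N q p n} {g' : ℕ}
    {G' : Matrix (Fin g') (Fin (Mo n 0).card) (Pl K N q p)} (hG' : IsRw T H 0 G') {L : Type u}
    [Field L] [Algebra K L] {P₀ : A.Pts L} {y₀ : Fin q × Fin p → L} (h₀ : GenB T P₀ y₀)
    (hI : (fbG P₀ y₀ H).IsPrime) : g' = 0 := by
  by_contra hg
  obtain ⟨hli, hmem⟩ := hG'.2.1 L P₀ y₀ h₀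
  obtain ⟨i, -⟩ : ∃ i : Fin g', i = i := ⟨⟨0, Nat.pos_of_ne_zero hg⟩, rfl⟩
  obtain ⟨f, hf⟩ : ∃ f, f = EF.uncf 0 (fun l => ev P₀ y₀ (G' i l)) := ⟨_, rfl⟩
  have h1 : f.IsHomogeneous 0 := by
    rw [hf]
    exact EF.uncf_hom _
  have h2 : cf 0 f = fun l => ev P₀ y₀ (G' i l) := by
    rw [hf, EF.cf_uncf]
  have h3 : f ∈ fbG P₀ y₀ H := by
    rw [hmem f h1, h2]
    exact Submodule.subset_span ⟨i, rfl⟩
  have h4 : f ≠ 0 := by
    intro h5
    refine hli.ne_zero i ?_
    rw [← h2, h5]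
    funext l
    exact coeff_zero _
  have h5 : f = C (coeff 0 f) := totalDegree_eq_zero_iff_eq_C.1 (h1.totalDegree h4)
  refine hI.ne_top (Ideal.eq_top_of_isUnit_mem _ h3 ?_)
  rw [h5]
  refine (IsUnit.mk0 _ fun h6 => h4 ?_).map C
  rw [h5, h6, C_0]

private theorem i6_ge {DH dH : Fin m → ℕ} {H : Fin m → Pol K N q p n}
    (hH : ∀ i, BG T (DH i) (dH i) (H i)) {k g' g'' : ℕ}
    {G' : Matrix (Fin g') (Fin (Mo n k).card) (Pl K N q p)} (hG' : IsRw T H k G') {L : Type u}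
    [Field L] [Algebra K L] {P₀ : A.Pts L} {y₀ : Fin q × Fin p → L} (h₀ : GenB T P₀ y₀)
    (τ : Fin q → ℝ) {G'' : Matrix (Fin g'') (Fin (Mo n k).card) (Pl K N q p)}
    (hG'' : IsRw T (ldH τ H) k G'') : g'' ≤ g' := by
  classical
  obtain ⟨hli', hmem'⟩ := hG'.2.1 L P₀ y₀ h₀
  obtain ⟨hli'', hmem''⟩ := hG''.2.1 L P₀ y₀ h₀
  have hJH : ∀ i, BG T (DH i) (dH i) (ldH τ H i) := fun i => BG_ld (hH i) τ
  obtain ⟨I, a, ha, hs, hli⟩ := exists_linearIndependent' L
    fun z : {z : Fin m × (Fin n → Fin (k + 1)) // ∑ l, (z.2 l : ℕ) + dH z.1 = k} =>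
      cf k (spG P₀ y₀ (C (∏ l, X l ^ (z.1.2 l : ℕ)) * ldH τ H z.1.1 : Pol K N q p n))
  have hI : Finite I := Finite.of_injective a ha
  have := Fintype.ofFinite I
  have h1 : g'' ≤ Fintype.card I := by
    have h2 := finrank_span_eq_card hli
    have h3 := finrank_span_eq_card hli''
    rw [Fintype.card_fin] at h3
    rw [← h2, ← h3]
    refine Submodule.finrank_mono ?_
    rw [hs, Submodule.span_le]
    rintro _ ⟨i, rfl⟩
    have h4 : EF.uncf k (fun l => ev P₀ y₀ (G'' i l)) ∈ fbG P₀ y₀ (ldH τ H) := by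
      rw [hmem'' _ (EF.uncf_hom _), EF.cf_uncf]
      exact Submodule.subset_span ⟨i, rfl⟩
    rw [rw_mem T hJH P₀ y₀ (EF.uncf_hom _), EF.cf_uncf] at h4
    exact h4
  refine h1.trans ?_
  -- the equations instead of their leading parts
  have hmul : ∀ i, BG T (DH (a i).1.1) k (C (∏ l, X l ^ ((a i).1.2 l : ℕ)) *
      H (a i).1.1 : Pol K N q p n) := fun i => R2_mul (hH _) (a i).2
  have hwU : ∀ i l, ∀ μ ∈ (cfG k (C (∏ l, X l ^ ((a i).1.2 l : ℕ)) * H (a i).1.1 :
      Pol K N q p n) l).support, wt τ μ ≤ mx τ (H (a i).1.1) := by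
    intro i l μ hμ
    refine le_mx τ (mem_support_iff.2 fun h0 => ?_)
    unfold cfG at hμ
    rw [mem_support_iff, coeff_cX, coeff_C_mul, h0, mul_zero, coeff_zero] at hμ
    exact hμ rfl
  have hpart : ∀ i l, partWt τ (mx τ (H (a i).1.1)) (cfG k (C (∏ l, X l ^ ((a i).1.2 l : ℕ)) *
      H (a i).1.1 : Pol K N q p n) l) =
      cfG k (C (∏ l, X l ^ ((a i).1.2 l : ℕ)) * ldH τ H (a i).1.1 : Pol K N q p n) l := by
    intro i l
    unfold cfG
    rw [partWt_cX]
    congr 1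
    unfold ldH ld
    ext1 μ
    rw [coeff_partWt, coeff_C_mul, coeff_C_mul, coeff_partWt]
    by_cases h1 : wt τ μ = mx τ (H (a i).1.1)
    · rw [if_pos h1, if_pos h1]
    · rw [if_neg h1, if_neg h1, mul_zero]
  have h2 := i6_lead T (fun (i : I) l => cfG k (C (∏ l, X l ^ ((a i).1.2 l : ℕ)) * H (a i).1.1 :
    Pol K N q p n) l) (fun i => DH (a i).1.1) (fun i l => cfG_WH (hmul i) l) τ
    (fun i => mx τ (H (a i).1.1)) hwU h₀ (by
      have h3 : (fun (i : I) l => ev P₀ y₀ (partWt τ (mx τ (H (a i).1.1))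
          (cfG k (C (∏ l, X l ^ ((a i).1.2 l : ℕ)) * H (a i).1.1 : Pol K N q p n) l))) =
          (fun z : {z : Fin m × (Fin n → Fin (k + 1)) // ∑ l, (z.2 l : ℕ) + dH z.1 = k} =>
            cf k (spG P₀ y₀ (C (∏ l, X l ^ (z.1.2 l : ℕ)) * ldH τ H z.1.1 :
              Pol K N q p n))) ∘ a := by
        funext i l
        rw [hpart, Function.comp_apply, cf_spG]
      rw [h3]
      exact hli)
  have h3 := finrank_span_eq_card h2
  have h4 := finrank_span_eq_card hli'
  rw [Fintype.card_fin] at h4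
  rw [← h3, ← h4]
  refine Submodule.finrank_mono ?_
  rw [Submodule.span_le]
  rintro _ ⟨i, rfl⟩
  have h5 : spG P₀ y₀ (C (∏ l, X l ^ ((a i).1.2 l : ℕ)) * H (a i).1.1 : Pol K N q p n) ∈
      fbG P₀ y₀ H := by
    rw [R1c_sp]
    exact Ideal.mul_mem_left _ _ (Ideal.subset_span ⟨_, rfl⟩)
  rw [hmem' _ (spG_hom P₀ y₀ (hmul i)), ← R2_cf] at h5
  exact h5

private theorem i6_le [Infinite K] {t : ℕ} (ht : 0 < t) {DH dH : Fin m → ℕ}
    {H : Fin m → Pol K N q p n} (hH : ∀ i, BG T (DH i) (dH i) (H i)) (hg : Good T H t)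
    {k g' g'' : ℕ} (hk : 0 < k) {G' : Matrix (Fin g') (Fin (Mo n k).card) (Pl K N q p)}
    (hG' : IsRw T H k G') {L : Type u} [Field L] [IsAlgClosed L] [Algebra K L] {P₀ : A.Pts L}
    {y₀ : Fin q × Fin p → L} (h₀ : GenB T P₀ y₀) (τ : Fin q → ℝ)
    {G'' : Matrix (Fin g'') (Fin (Mo n k).card) (Pl K N q p)}
    (hG'' : IsRw T (ldH τ H) k G'') : g' ≤ g'' := by
  classical
  obtain ⟨D', hD'⟩ := hG'.1
  obtain ⟨hli', hmem'⟩ := hG'.2.1 L P₀ y₀ h₀
  obtain ⟨hli'', hmem''⟩ := hG''.2.1 L P₀ y₀ h₀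
  -- the minor of the largest weight
  obtain ⟨c, hc⟩ := EF.R0_minor _ hli'
  obtain ⟨e, w, he, hmax⟩ := i6_max (fun e : Fin g' → Fin (Mo n k).card => mnr G' e) τ P₀ y₀
    ⟨c, by
      rw [i6_ev_mnr]
      exact hc⟩
  obtain ⟨z, hz⟩ : ∃ z : Fin g' → Fin (Mo n k).card → Pl K N q p,
      z = fun i l => mnr G' (Function.update e i l) := ⟨_, rfl⟩
  have hzWH : ∀ i l, T.WH (∑ j, D' j) (z i l) := by
    intro i l
    rw [hz]
    exact TB.R1_WH_det T _ D' fun j l' => hD' j _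
  -- `z` is in the space of the rows
  obtain ⟨B, hB⟩ : ∃ B : Matrix (Fin g') (Fin g') (Pl K N q p),
      B = Matrix.of fun i j => G' i (e j) := ⟨_, rfl⟩
  have hzc : ∀ i l, z i l = ∑ j, B.adjugate i j * G' j l := by
    intro i l
    have h1 : (Matrix.of fun i' j => G' i' (Function.update e i l j)) =
        B.updateCol i fun j => G' j l := by
      ext1 i' j
      rw [Matrix.of_apply, Matrix.updateCol_apply, hB]
      by_cases hj : j = i
      · rw [hj, Function.update_self, if_pos rfl]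
      · rw [Function.update_of_ne hj, if_neg hj, Matrix.of_apply]
    rw [hz]
    show mnr G' (Function.update e i l) = _
    unfold mnr
    rw [h1, ← Matrix.cramer_apply, Matrix.cramer_eq_adjugate_mulVec]
    rfl
  have hzev : ∀ i, (fun l => ev P₀ y₀ (z i l)) ∈
      Submodule.span L (Set.range fun i l => ev P₀ y₀ (G' i l)) := by
    intro i
    have h1 : (fun l => ev P₀ y₀ (z i l)) =
        ∑ j, ev P₀ y₀ (B.adjugate i j) • fun l => ev P₀ y₀ (G' j l) := by
      funext l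
      rw [Finset.sum_apply, hzc]
      show G1_ev P₀ y₀ _ = _
      rw [map_sum]
      refine Finset.sum_congr rfl fun j _ => ?_
      rw [map_mul]
      rfl
    rw [h1]
    exact Submodule.sum_mem _ fun j _ => Submodule.smul_mem _ _ (Submodule.subset_span ⟨j, rfl⟩)
  -- the parts of weight `w`
  have hv : ∀ i, (fun l => ev P₀ y₀ (partWt τ w (z i l))) ∈
      Submodule.span L (Set.range fun i l => ev P₀ y₀ (G'' i l)) := by
    intro i
    obtain ⟨F, hFdef⟩ : ∃ F : Pol K N q p n, F = i6F k fun l => i6t τ w (z i l) := ⟨_, rfl⟩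
    have hF : BG T (∑ j, D' j) k F := by
      rw [hFdef]
      exact i6F_BG T fun l => i6t_WH T (hzWH i l) τ w
    have hFc : ∀ l, cfG k F l = i6t τ w (z i l) := fun l => by
      rw [hFdef, i6F_cfG]
    have hFI : spG P₀ y₀ F ∈ fbG P₀ y₀ H := by
      rw [hmem' _ (spG_hom P₀ y₀ hF), ← R2_cf]
      have h1 : (fun l => ev P₀ y₀ (cfG k F l)) = fun l => ev P₀ y₀ (z i l) := by
        funext l
        rw [hFc]
        refine i6t_ev P₀ y₀ τ w _ fun w' hw' => ?_
        rw [hz]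
        exact hmax _ w' hw'
      rw [h1]
      exact hzev i
    have hFw : ∀ μ ∈ F.support, wt τ μ ≤ w := by
      intro μ hμ
      obtain ⟨l, hl⟩ := (cfG_supp hF μ).1 (mem_support_iff.1 hμ)
      rw [hFc, i6t_coeff] at hl
      by_contra h1
      rw [if_neg h1] at hl
      exact hl rfl
    have h1 := I_two T ht hH hg hk hF h₀ hFI τ w hFw
    rw [hmem'' _ (spG_hom P₀ y₀ (BG_partWt hF τ w)), ← R2_cf] at h1
    have h2 : (fun l => ev P₀ y₀ (cfG k (partWt τ w F) l)) =
        fun l => ev P₀ y₀ (partWt τ w (z i l)) := by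
      funext l
      rw [← i6t_part, ← hFc]
      unfold cfG
      rw [partWt_cX]
    rwa [h2] at h1
  have hvd : ∀ i j, ev P₀ y₀ (partWt τ w (z i (e j))) =
      if i = j then ev P₀ y₀ (partWt τ w (mnr G' e)) else 0 := by
    intro i j
    rw [hz]
    show ev P₀ y₀ (partWt τ w (mnr G' (Function.update e i (e j)))) = _
    by_cases hij : i = j
    · rw [if_pos hij, hij, Function.update_eq_self]
    · rw [if_neg hij]
      have h1 : mnr G' (Function.update e i (e j)) = 0 := by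
        unfold mnr
        refine Matrix.det_zero_of_column_eq (i := i) (j := j) hij fun l => ?_
        rw [Matrix.of_apply, Matrix.of_apply, Function.update_self,
          Function.update_of_ne (Ne.symm hij)]
      rw [h1]
      have h2 : partWt τ w (0 : Pl K N q p) = 0 := by
        ext1 μ
        rw [coeff_partWt, coeff_zero, ite_self]
      rw [h2]
      exact map_zero (G1_ev P₀ y₀)
  have hvli : LinearIndependent L fun i l => ev P₀ y₀ (partWt τ w (z i l)) := by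
    rw [Fintype.linearIndependent_iff]
    intro a ha i
    have h1 := congrFun ha (e i)
    rw [Finset.sum_apply] at h1
    have h2 : ∑ j, (a j • fun l => ev P₀ y₀ (partWt τ w (z j l))) (e i) =
        a i * ev P₀ y₀ (partWt τ w (mnr G' e)) := by
      rw [Finset.sum_eq_single i]
      · show a i * ev P₀ y₀ (partWt τ w (z i (e i))) = _
        rw [hvd, if_pos rfl]
      · intro j _ hj
        show a j * ev P₀ y₀ (partWt τ w (z j (e i))) = _
        rw [hvd, if_neg hj, mul_zero]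
      · intro h
        exact absurd (Finset.mem_univ i) h
    rw [h2] at h1
    exact (mul_eq_zero.1 h1).resolve_right he
  have h3 := finrank_span_eq_card hvli
  have h4 := finrank_span_eq_card hli''
  rw [Fintype.card_fin] at h3 h4
  rw [← h3, ← h4]
  refine Submodule.finrank_mono ?_
  rw [Submodule.span_le]
  rintro _ ⟨i, rfl⟩
  exact hv i

/-- The dimensions are the same. -/
theorem I_rk [Infinite K] {t : ℕ} (ht : 0 < t) {DH dH : Fin m → ℕ} {H : Fin m → Pol K N q p n}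
    (hH : ∀ i, BG T (DH i) (dH i) (H i)) (hg : Good T H t) {L : Type u} [Field L]
    [IsAlgClosed L] [Algebra K L] {P₀ : A.Pts L} {y₀ : Fin q × Fin p → L} (h₀ : GenB T P₀ y₀)
    (τ : Fin q → ℝ) (k : ℕ) : rk (fbG P₀ y₀ (ldH τ H)) k = rk (fbG P₀ y₀ H) k := by
  have hJH : ∀ i, BG T (DH i) (dH i) (ldH τ H i) := fun i => BG_ld (hH i) τ
  obtain ⟨g', G', hG'⟩ := rw_exists T hH k
  obtain ⟨g'', G'', hG''⟩ := rw_exists T hJH k
  have h1 := rw_rk T hG' h₀
  have h2 := rw_rk T hG'' h₀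
  have h3 : g' = g'' := by
    rcases Nat.eq_zero_or_pos k with hk | hk
    · subst hk
      rw [i6_zero T hG' h₀ (Good_zero T hg P₀ y₀ h₀).1, i6_zero T hG'' h₀ (hg τ L P₀ y₀ h₀).1]
    · exact le_antisymm (i6_le T ht hH hg hk hG' h₀ τ hG'') (i6_ge T hH hG' h₀ τ hG'')
  omega

end

end Pool.Agent.Lib.MP_17a322_nt.VC
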