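import Pool.Agent.Lib.MP_17a322_nt.VC.BDefs
import Pool.Agent.Lib.MP_17a322_nt.EG.K3

/-!
Families over principal torus bundles over `A`: charts, the equations without the parts that vanish.
-/

universe u

namespace Pool.Agent.Lib.MP_17a322_nt.VC

open MvPolynomial Height
open Pool.Agent.Lib.MP_17a322_nt.VA
open Pool.Agent.Lib.MP_17a322_nt.SL
open Pool.Agent.Lib.MP_17a322_nt.TB (ev partWt maxWt wt supp)
open Pool.Agent.Lib.MP_17a322_nt.EG
open Pool.Agent.Lib.MP_17a322_nt.VB (Pl)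
open Pool.Agent.Lib.MP_17a322_nt.SV3 (Bun md)

section

variable {K : Type u} [Field K] {N q p p' n m s w : ℕ} {A : AV K N} (B : Bun A q p p')

theorem K1_coeff_redV (H : Fin m → Pol K N q p n) (i : Fin m) (ν : Fin q × Fin p →₀ ℕ) :
    coeff ν (redV B H i) = open Classical in if md ν ∈ NewV B (H i) then coeff ν (H i) else 0 := by
  classical
  unfold redV
  exact @K3_coeff_sum _ _ _ _ _ _ (H i) (fun μ => md μ ∈ NewV B (H i)) _ ν

theorem K1_coeff_redF (H : Fin m → Pol K N q p n) (f : Fin w → Pol K N q p n) (l : Fin w)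
    (ν : Fin q × Fin p →₀ ℕ) :
    coeff ν (redF B H f l) = open Classical in if md ν ∈ NewF B H f then coeff ν (f l) else 0 := by
  classical
  unfold redF
  exact @K3_coeff_sum _ _ _ _ _ _ (f l) (fun μ => md μ ∈ NewF B H f) _ ν

theorem redV_BB {D d : ℕ} {H : Fin m → Pol K N q p n} {i : Fin m} (hH : BB B D d (H i)) :
    BB B D d (redV B H i) := by
  classical
  intro μ hμ
  rw [K1_coeff_redV] at hμ ⊢
  split_ifs at hμ ⊢ with h
  · exact hH μ hμ
  · exact absurd rfl hμ

theorem K1_spG_zero {L : Type u} [Field L] [Algebra K L] (P : A.Pts L) (y : Fin q × Fin p → L) :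
    spG P y (0 : Pol K N q p n) = 0 := map_zero (spH P y)

/-- the parts outside `NewV` vanish -/
theorem K1_outV (H : Fin m → Pol K N q p n) (i : Fin m)
    (Q : (Fin q × Fin p →₀ ℕ) → Prop) [DecidablePred Q] (hQ : ∀ μ μ', md μ = md μ' → Q μ → Q μ')
    (hQ' : ∀ μ, Q μ → md μ ∉ NewV B (H i)) {L : Type u} [Field L] [Algebra K L]
    {P : A.Pts L} {y : Fin q × Fin p → L} (hy : B.On P y) :
    spG P y (∑ μ ∈ (H i).support.filter Q, monomial μ (coeff μ (H i)) : Pol K N q p n) = 0 := by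
  classical
  have h := K3_out (f := fun _ : Fin 1 => H i) 0 Q hQ
  rw [h, spG_sum]
  refine Finset.sum_eq_zero fun a ha => ?_
  obtain ⟨μ, hμ, rfl⟩ := Finset.mem_image.mp ha
  have h5 := hQ' μ (Finset.mem_filter.mp hμ).2
  by_contra h6
  exact h5 ⟨L, _, _, P, y, hy, h6⟩

/-- The values are the same. -/
theorem redV_sp (H : Fin m → Pol K N q p n) (i : Fin m) {L : Type u} [Field L] [Algebra K L]
    {P : A.Pts L} {y : Fin q × Fin p → L} (hy : B.On P y) :
    spG P y (redV B H i) = spG P y (H i) := by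
  classical
  have h5 : H i = redV B H i + ∑ μ ∈ (H i).support.filter (fun μ => md μ ∉ NewV B (H i)),
      monomial μ (coeff μ (H i)) := by
    ext1 ν
    rw [coeff_add, K3_coeff_sum, K1_coeff_redV]
    by_cases h4 : md ν ∈ NewV B (H i)
    · simp [h4]
    · simp [h4]
  have h6 := congrArg (fun g => spG P y g) h5
  simp only [spG_add] at h6
  rw [h6, K1_outV B H i _ (by
    intro μ μ' h3 h4
    rw [← h3]
    exact h4) (fun μ h => h) hy, add_zero]

theorem redV_mx (H : Fin m → Pol K N q p n) (i : Fin m) (τ : Fin q → ℝ) :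
    EG.mx τ (redV B H i) = supV B (H i) τ := by
  classical
  have hs : ∀ μ, μ ∈ supp (fun _ : Fin 1 => redV B H i) ↔
      md μ ∈ NewV B (H i) ∧ coeff μ (H i) ≠ 0 := by
    intro μ
    rw [mem_supp]
    simp only [mem_support_iff, K1_coeff_redV, exists_const]
    constructor
    · intro hl
      by_cases h : md μ ∈ NewV B (H i)
      · rw [if_pos h] at hl
        exact ⟨h, hl⟩
      · rw [if_neg h] at hl
        exact absurd rfl hl
    · rintro ⟨h, hl⟩
      rwa [if_pos h]
  let F : supp (fun _ : Fin 1 => redV B H i) → NewV B (H i) :=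
    fun μ => ⟨md μ.1, ((hs μ.1).mp μ.2).1⟩
  have hF : Function.Surjective F := by
    rintro ⟨a, ha⟩
    obtain ⟨L, _, _, P, y, hy, hl⟩ := id ha
    have h0 : ptG a (H i) ≠ 0 := fun h => hl (by rw [h]; exact K1_spG_zero P y)
    obtain ⟨μ, hμ⟩ := MvPolynomial.ne_zero_iff.mp h0
    rw [K3_coeff_pt] at hμ
    by_cases h : md μ = a
    · rw [if_pos h] at hμ
      exact ⟨⟨μ, (hs μ).mpr ⟨h ▸ ha, hμ⟩⟩, Subtype.ext h⟩
    · rw [if_neg h] at hμ
      exact absurd rfl hμ
  unfold EG.mx maxWt supV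
  rw [← hF.iSup_comp]
  refine iSup_congr fun μ => ?_
  exact K3_wt τ μ.1

/-- The leading parts have the same values. -/
theorem redV_ld (H : Fin m → Pol K N q p n) (i : Fin m) (τ : Fin q → ℝ) {L : Type u} [Field L]
    [Algebra K L] {P : A.Pts L} {y : Fin q × Fin p → L} (hy : B.On P y) :
    spG P y (ld τ (redV B H i)) = spG P y (ldV B τ H i) := by
  classical
  unfold ld ldV
  rw [redV_mx]
  set c := supV B (H i) τ with hc
  have h2 : partWt τ c (H i) = partWt τ c (redV B H i) +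
      ∑ μ ∈ (H i).support.filter (fun μ => md μ ∉ NewV B (H i) ∧
        ∑ i, (md μ i : ℝ) * τ i = c), monomial μ (coeff μ (H i)) := by
    ext1 ν
    rw [coeff_add, K3_coeff_sum, coeff_partWt, coeff_partWt, K1_coeff_redV, K3_wt]
    by_cases h3 : ∑ i, (md ν i : ℝ) * τ i = c
    · by_cases h4 : md ν ∈ NewV B (H i)
      · simp [h3, h4]
      · simp [h3, h4]
    · simp [h3]
  rw [h2, spG_add, K1_outV B H i _ (by
    intro μ μ' h3 h4
    rw [← h3]
    exact h4) (fun μ h => h.1) hy, add_zero]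

theorem redV_fbG (H : Fin m → Pol K N q p n) (τ : Fin q → ℝ) {L : Type u} [Field L]
    [Algebra K L] {P : A.Pts L} {y : Fin q × Fin p → L} (hy : B.On P y) :
    fbG P y (ldH τ (redV B H)) = fbG P y (ldV B τ H) := by
  unfold fbG ldH
  congr 2
  funext i
  exact redV_ld B H i τ hy

theorem redV_good {ch : Fin q → Fin p'} (h : B.Ch ch) {t : ℕ} {H : Fin m → Pol K N q p n}
    (hg : GoodV B H t) : Good (B.tor ch h) (redV B H) t := by
  intro τ L _ _ _ P y hy
  have h1 := (K_gen B h P y).mpr hy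
  rw [redV_fbG B H τ h1.2.1]
  exact hg τ L P y h1

theorem redF_BB {D d : ℕ} (H : Fin m → Pol K N q p n) {f : Fin w → Pol K N q p n}
    (hf : ∀ l, BB B D d (f l)) (l : Fin w) : BB B D d (redF B H f l) := by
  classical
  intro μ hμ
  rw [K1_coeff_redF] at hμ ⊢
  split_ifs at hμ ⊢ with h
  · exact hf l μ hμ
  · exact absurd rfl hμ

theorem K1_zerV_zero (H : Fin m → Pol K N q p n) : ZerV B H (0 : Pol K N q p n) := by
  intro L _ _ _ P y _
  rw [K1_spG_zero]
  exact Ideal.zero_mem _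

theorem redF_maxWt (H : Fin m → Pol K N q p n) (f : Fin w → Pol K N q p n) (τ : Fin q → ℝ) :
    maxWt τ (redF B H f) = supF B H f τ := by
  classical
  have hs : ∀ μ, μ ∈ supp (redF B H f) ↔ md μ ∈ NewF B H f ∧ ∃ l, coeff μ (f l) ≠ 0 := by
    intro μ
    rw [mem_supp]
    simp only [mem_support_iff, K1_coeff_redF]
    constructor
    · rintro ⟨l, hl⟩
      by_cases h : md μ ∈ NewF B H f
      · rw [if_pos h] at hl
        exact ⟨h, l, hl⟩
      · rw [if_neg h] at hl
        exact absurd rfl hl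
    · rintro ⟨h, l, hl⟩
      exact ⟨l, by rwa [if_pos h]⟩
  let F : supp (redF B H f) → NewF B H f := fun μ => ⟨md μ.1, ((hs μ.1).mp μ.2).1⟩
  have hF : Function.Surjective F := by
    rintro ⟨a, ha⟩
    obtain ⟨l, hl⟩ := id ha
    have h0 : ptG a (f l) ≠ 0 := fun h => hl (h ▸ K1_zerV_zero B H)
    obtain ⟨μ, hμ⟩ := MvPolynomial.ne_zero_iff.mp h0
    rw [K3_coeff_pt] at hμ
    by_cases h : md μ = a
    · rw [if_pos h] at hμ
      exact ⟨⟨μ, (hs μ).mpr ⟨h ▸ ha, l, hμ⟩⟩, Subtype.ext h⟩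
    · rw [if_neg h] at hμ
      exact absurd rfl hμ
  unfold maxWt supF
  rw [← hF.iSup_comp]
  refine iSup_congr fun μ => ?_
  exact K3_wt τ μ.1

end

end Pool.Agent.Lib.MP_17a322_nt.VC
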