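import Pool.Agent.Lib.MP_17a322_nt.VC.Defs
import Pool.Agent.Lib.MP_17a322_nt.EG.G1
import Pool.Agent.Lib.MP_17a322_nt.VB.K2

/-!
Families over principal torus bundles over `A`: transfer between the generic points of the bundle.
-/

universe u

namespace Pool.Agent.Lib.MP_17a322_nt.VC

open MvPolynomial Height
open Pool.Agent.Lib.MP_17a322_nt.VA
open Pool.Agent.Lib.MP_17a322_nt.SL
open Pool.Agent.Lib.MP_17a322_nt.EF (Mo mo rk part hSub)
open Pool.Agent.Lib.MP_17a322_nt.TB (Tor ev maxWt partWt wt supp)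
open Pool.Agent.Lib.MP_17a322_nt.EG
open Pool.Agent.Lib.MP_17a322_nt.VB (Pl mnr InRow IndP IndV Rk ExcV hV)

section

variable {K : Type u} [Field K] {N q p n m s w : ℕ} {A : AV K N} (T : Tor A q p)

/-! ### S: transfer between the generic points of the bundle -/

/-- A nonzero value at one generic point. -/
theorem S_ne {D : ℕ} {R : Pl K N q p} (hR : T.WH D R) {L₀ : Type u} [Field L₀] [Algebra K L₀]
    {P₀ : A.Pts L₀} {y₀ : Fin q × Fin p → L₀} (h₀ : GenB T P₀ y₀) (h : ev P₀ y₀ R ≠ 0)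
    {L : Type u} [Field L] [Algebra K L] {P : A.Pts L} (hP : Gen A P) :
    T.sp P R ≠ 0 ∧ ∀ y : Fin q × Fin p → L, GenB T P y → ev P y R ≠ 0 := by
  have h1 : T.sp P R ≠ 0 := fun h2 => h (G1_ev_sp T h₀.2.1 (G1_sp_zero T hR hP h2 P₀))
  exact ⟨h1, fun y hy h2 => h1 (hy.2.2 D R hR h2)⟩

private theorem S1_ev_det {k : ℕ} (M : Matrix (Fin k) (Fin k) (Pl K N q p)) {L : Type u} [Field L]
    [Algebra K L] (P : A.Pts L) (y : Fin q × Fin p → L) :
    ev P y M.det = (Matrix.of fun i j => ev P y (M i j)).det := by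
  show G1_ev P y M.det = _
  rw [RingHom.map_det]
  rfl

private theorem S1_sp_det {k : ℕ} (M : Matrix (Fin k) (Fin k) (Pl K N q p)) {L : Type u} [Field L]
    [Algebra K L] (P : A.Pts L) :
    T.sp P M.det = (Matrix.of fun i j => T.sp P (M i j)).det := by
  rw [← TB.R2_sp_eq, RingHom.map_det]
  rfl

theorem S_li {ι κ : Type} [Finite ι] [Finite κ] {u : ι → κ → Pl K N q p} {Du : ι → ℕ}
    (hu : ∀ i l, T.WH (Du i) (u i l)) {L₀ : Type u} [Field L₀] [Algebra K L₀] {P₀ : A.Pts L₀}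
    {y₀ : Fin q × Fin p → L₀} (h₀ : GenB T P₀ y₀)
    (h : LinearIndependent L₀ fun i l => ev P₀ y₀ (u i l)) {L : Type u} [Field L] [Algebra K L]
    {P : A.Pts L} {y : Fin q × Fin p → L} (hP : GenB T P y) :
    LinearIndependent L fun i l => ev P y (u i l) := by
  classical
  have := Fintype.ofFinite ι
  obtain ⟨k, ⟨e⟩⟩ : ∃ k, Nonempty (Fin k ≃ ι) :=
    ⟨Fintype.card ι, ⟨(Fintype.equivFin _).symm⟩⟩
  obtain ⟨c, hc⟩ := EF.R0_minor _ (h.comp e e.injective)
  have h1 : ev P₀ y₀ (Matrix.of fun i j => u (e i) (c j)).det ≠ 0 := by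
    rw [S1_ev_det]
    exact hc
  have h2 : T.WH (∑ i, Du (e i)) (Matrix.of fun i j => u (e i) (c j)).det :=
    TB.R1_WH_det T _ _ fun i l => hu (e i) (c l)
  have h3 := (S_ne T h2 h₀ h1 hP.1).2 y hP
  rw [S1_ev_det] at h3
  rw [← linearIndependent_equiv e, Fintype.linearIndependent_iff]
  intro a ha
  have h5 := Matrix.eq_zero_of_vecMul_eq_zero h3 (v := a) (by
    funext l
    have h6 := congrFun ha (c l)
    rw [Finset.sum_apply] at h6
    exact h6)
  exact congrFun h5

theorem S_span {ι κ : Type} [Finite ι] [Finite κ] {u : ι → κ → Pl K N q p} {Du : ι → ℕ}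
    (hu : ∀ i l, T.WH (Du i) (u i l)) {z : κ → Pl K N q p} {Dz : ℕ} (hz : ∀ l, T.WH Dz (z l))
    {L₀ : Type u} [Field L₀] [Algebra K L₀] {P₀ : A.Pts L₀} {y₀ : Fin q × Fin p → L₀}
    (h₀ : GenB T P₀ y₀) (h : (fun l => ev P₀ y₀ (z l)) ∈
      Submodule.span L₀ (Set.range fun i l => ev P₀ y₀ (u i l)))
    {L : Type u} [Field L] [Algebra K L] {P : A.Pts L} {y : Fin q × Fin p → L}
    (hP : GenB T P y) : (fun l => ev P y (z l)) ∈
      Submodule.span L (Set.range fun i l => ev P y (u i l)) := by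
  classical
  obtain ⟨I, a, ha, hs, hli⟩ := exists_linearIndependent' L₀ fun i l => ev P₀ y₀ (u i l)
  have hI : Finite I := Finite.of_injective a ha
  rw [← hs] at h
  by_contra h1
  -- at the point `(P, y)` the rows `a i` and `z` are independent
  have h2 : LinearIndependent L fun i l => ev P y (u (a i) l) :=
    S_li T (u := fun i => u (a i)) (Du := fun i => Du (a i)) (fun i l => hu (a i) l) h₀ hli hP
  have h3 : (fun l => ev P y (z l)) ∉
      Submodule.span L (Set.range fun i l => ev P y (u (a i) l)) := by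
    intro h4
    refine h1 (Submodule.span_mono ?_ h4)
    rintro _ ⟨i, rfl⟩
    exact ⟨a i, rfl⟩
  have h5 : LinearIndependent L fun (o : Option I) l =>
      ev P y ((fun o : Option I => o.elim z fun i => u (a i)) o l) := by
    rw [linearIndependent_option]
    exact ⟨h2, h3⟩
  have h6 := S_li T (u := fun o : Option I => o.elim z fun i => u (a i))
    (Du := fun o : Option I => o.elim Dz fun i => Du (a i)) (by
      rintro (_ | i) l
      · exact hz l
      · exact hu (a i) l) hP h5 h₀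
  rw [linearIndependent_option] at h6
  exact h6.2 h

theorem S_rk {g n : ℕ} {G : Matrix (Fin g) (Fin n) (Pl K N q p)} {D' : Fin g → ℕ}
    (hG : ∀ i l, T.WH (D' i) (G i l)) {L₀ : Type u} [Field L₀] [Algebra K L₀] {P₀ : A.Pts L₀}
    {y₀ : Fin q × Fin p → L₀} (h₀ : GenB T P₀ y₀)
    (h : LinearIndependent L₀ fun i l => ev P₀ y₀ (G i l)) : Rk T G := by
  obtain ⟨c, hc⟩ := EF.R0_minor _ h
  have h1 : ev P₀ y₀ (Matrix.of fun i j => G i (c j)).det ≠ 0 := by
    rw [S1_ev_det]
    exact hc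
  have h2 : T.WH (∑ i, D' i) (Matrix.of fun i j => G i (c j)).det :=
    TB.R1_WH_det T _ _ fun i l => hG i (c l)
  intro L _ _ P hP
  refine ⟨c, ?_⟩
  have h3 := (S_ne T h2 h₀ h1 hP).1
  rw [S1_sp_det] at h3
  exact h3

end

end Pool.Agent.Lib.MP_17a322_nt.VC
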