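import Pool.Agent.Lib.MP_17a322_nt.VC.R2
import Pool.Agent.Lib.MP_17a322_nt.VC.S1
import Pool.Agent.Lib.MP_17a322_nt.VC.I4
import Pool.Agent.Lib.MP_17a322_nt.VC.K1
import Pool.Agent.Lib.MP_17a322_nt.EG.K3

/-!
Families over principal torus bundles over `A`: the reduction of the equations `f l`.
-/

universe u

namespace Pool.Agent.Lib.MP_17a322_nt.VC

open MvPolynomial Height
open Pool.Agent.Lib.MP_17a322_nt.VA
open Pool.Agent.Lib.MP_17a322_nt.SL
open Pool.Agent.Lib.MP_17a322_nt.EF (Mo mo ver cf)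
open Pool.Agent.Lib.MP_17a322_nt.TB (Tor ev partWt maxWt wt)
open Pool.Agent.Lib.MP_17a322_nt.EG
open Pool.Agent.Lib.MP_17a322_nt.VB (Pl)
open Pool.Agent.Lib.MP_17a322_nt.SV3 (Bun md)

section

variable {K : Type u} [Field K] {N q p n m : ℕ} {A : AV K N} (T : Tor A q p)

/-- The bordered determinants are weighted homogeneous. -/
theorem K2_WH {r k D d : ℕ} {G' : Matrix (Fin r) (Fin (Mo n k).card) (Pl K N q p)}
    {D' : Fin r → ℕ} (hG' : ∀ i l, T.WH (D' i) (G' i l)) {f : Pol K N q p n} (hf : BG T D d f)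
    (e : Fin (r + 1) → Fin (Mo n k).card) :
    T.WH (∑ i : Fin (r + 1), (Fin.snoc (α := fun _ => ℕ) D' D : Fin (r + 1) → ℕ) i)
      (bm G' (cfG k f) e).det := by
  refine TB.R1_WH_det T _ _ fun i l => ?_
  refine Fin.lastCases ?_ (fun i => ?_) i
  · rw [bm_last, Fin.snoc_last]
    exact cfG_WH hf _
  · rw [bm_cast, Fin.snoc_castSucc]
    exact hG' i _

theorem K2_ev {r k : ℕ} (G' : Matrix (Fin r) (Fin (Mo n k).card) (Pl K N q p))
    (f : Pol K N q p n) (e : Fin (r + 1) → Fin (Mo n k).card) {L : Type u} [Field L]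
    [Algebra K L] (P : A.Pts L) (y : Fin q × Fin p → L) :
    ev P y (bm G' (cfG k f) e).det =
      (bm (fun i l => ev P y (G' i l)) (cf k (spG P y f)) e).det := by
  show G1_ev P y _ = _
  rw [bm_map]
  have h1 : (fun l => G1_ev P y (cfG k f l)) = cf k (spG P y f) := by
    funext l
    exact (cf_spG P y k f l).symm
  rw [h1]
  rfl

theorem K2_minor {r k : ℕ} (G' : Matrix (Fin r) (Fin (Mo n k).card) (Pl K N q p))
    (e : Fin r → Fin (Mo n k).card) {L : Type u} [Field L] [Algebra K L] (P : A.Pts L)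
    (y : Fin q × Fin p → L) :
    ev P y (Matrix.of fun a b : Fin r => G' a (e b)).det =
      (Matrix.of fun a b : Fin r => ev P y (G' a (e b))).det := by
  show G1_ev P y _ = _
  rw [RingHom.map_det]
  rfl

/-- A form in the ideal of the generic fibre vanishes on the closed subset outside a divisor. -/
theorem K2_zer {DH dH : Fin m → ℕ} {H : Fin m → Pol K N q p n}
    (hH : ∀ i, BG T (DH i) (dH i) (H i)) {D d : ℕ} {g : Pol K N q p n} (hg : BG T D d g)
    (h0 : ∀ (L : Type u) [Field L] [IsAlgClosed L] [Algebra K L] (P : A.Pts L)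
      (y : Fin q × Fin p → L), GenB T P y → spG P y g ∈ fbG P y H) :
    ∃ (R : Pl K N q p) (ρ : ℕ), T.WH ρ R ∧
      (∀ (L : Type u) [Field L] [Algebra K L] (P : A.Pts L) (y : Fin q × Fin p → L),
        GenB T P y → ev P y R ≠ 0) ∧
      ∀ (P : A.Pts K) (y : Fin q × Fin p → K), T.On P y → ev P y R ≠ 0 →
        ∀ X : Fin n → K, (∀ i, eval X (spG P y (H i)) = 0) → eval X (spG P y g) = 0 := by
  obtain ⟨r, G', hG'⟩ := rw_exists T hH d
  obtain ⟨D', hD'⟩ := hG'.1
  obtain ⟨L₀, _, _, _, P₀, y₀, h₀⟩ := genB_exists T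
  obtain ⟨hli, hiff⟩ := hG'.2.1 L₀ P₀ y₀ h₀
  obtain ⟨e₀, he₀⟩ := EF.R0_minor _ hli
  have hW : T.WH (∑ i, D' i) (Matrix.of fun a b : Fin r => G' a (e₀ b)).det :=
    TB.R1_WH_det T _ _ fun i l => hD' _ _
  have hR : ev P₀ y₀ (Matrix.of fun a b : Fin r => G' a (e₀ b)).det ≠ 0 := by
    rw [K2_minor]
    exact he₀
  refine ⟨_, _, hW, fun L _ _ P y hP => (S_ne T hW h₀ hR hP.1).2 y hP, ?_⟩
  intro P y hy hRP X hX
  rw [K2_minor] at hRP
  have h1 := (hiff _ (spG_hom P₀ y₀ hg)).1 (h0 L₀ P₀ y₀ h₀)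
  have h2 : ∀ e, (bm (fun i l => ev P y (G' i l)) (cf d (spG P y g)) e).det = 0 := by
    intro e
    rw [← K2_ev]
    refine G1_ev_sp T hy (G1_sp_zero T (K2_WH T hD' hg e) h₀.1 ?_ P)
    refine h₀.2.2 _ _ (K2_WH T hD' hg e) ?_
    rw [K2_ev]
    exact bm_zero h1 e
  have h3 : ∀ i, ∑ l, ev P y (G' i l) * ver d X l = 0 := rw_ker T hG' P y hX
  obtain ⟨W, hW'⟩ : ∃ W : Fin r → Fin (Mo n d).card → K, W = fun i l => ev P y (G' i l) :=
    ⟨_, rfl⟩
  have h2' : ∀ e, (bm W (cf d (spG P y g)) e).det = 0 := by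
    rw [hW']
    exact h2
  have h3' : ∀ i, ∑ l, W i l * ver d X l = 0 := by
    rw [hW']
    exact h3
  have hRP' : (Matrix.of fun a b : Fin r => W a (e₀ b)).det ≠ 0 := by
    rw [hW']
    exact hRP
  have h4 : ∑ l, ver d X l * (bm W (cf d (spG P y g))
      (Fin.snoc (α := fun _ => Fin (Mo n d).card) e₀ l)).det = 0 :=
    Finset.sum_eq_zero fun l _ => by rw [h2', mul_zero]
  have h5 : ∀ l, (bm W (cf d (spG P y g))
      (Fin.snoc (α := fun _ => Fin (Mo n d).card) e₀ l)).det =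
      (∑ i : Fin r, (-1) ^ (((i.castSucc : Fin (r + 1)) : ℕ) +
        ((Fin.last r : Fin (r + 1)) : ℕ)) * W i l *
        (Matrix.of fun (a b : Fin r) =>
          (Fin.snoc (α := fun _ => Fin (Mo n d).card → K) W
            (cf d (spG P y g)) : Fin (r + 1) → Fin (Mo n d).card → K)
              (i.castSucc.succAbove a) (e₀ b)).det) +
      cf d (spG P y g) l * (Matrix.of fun a b : Fin r => W a (e₀ b)).det := by
    intro l
    rw [bm_col, Fin.snoc_last]
    congr 1
    · refine Finset.sum_congr rfl fun i _ => ?_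
      congr 2
      ext a b
      rw [Matrix.submatrix_apply, Matrix.of_apply, Fin.succAbove_last]
      unfold bm
      rw [Matrix.of_apply, Fin.snoc_castSucc]
    · congr 2
      ext a b
      rw [Matrix.of_apply, Matrix.of_apply, Fin.snoc_castSucc]
  simp only [h5, mul_add, Finset.mul_sum, Finset.sum_add_distrib] at h4
  rw [Finset.sum_comm] at h4
  have h6 : ∀ i : Fin r, ∑ l, ver d X l * ((-1) ^ (((i.castSucc : Fin (r + 1)) : ℕ) +
        ((Fin.last r : Fin (r + 1)) : ℕ)) * W i l *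
        (Matrix.of fun (a b : Fin r) =>
          (Fin.snoc (α := fun _ => Fin (Mo n d).card → K) W
            (cf d (spG P y g)) : Fin (r + 1) → Fin (Mo n d).card → K)
              (i.castSucc.succAbove a) (e₀ b)).det) = 0 := by
    intro i
    obtain ⟨c, hc⟩ : ∃ c : K, c = (Matrix.of fun (a b : Fin r) =>
          (Fin.snoc (α := fun _ => Fin (Mo n d).card → K) W
            (cf d (spG P y g)) : Fin (r + 1) → Fin (Mo n d).card → K)
              (i.castSucc.succAbove a) (e₀ b)).det := ⟨_, rfl⟩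
    rw [← hc]
    have h7 : ∀ l, ver d X l * ((-1) ^ (((i.castSucc : Fin (r + 1)) : ℕ) +
        ((Fin.last r : Fin (r + 1)) : ℕ)) * W i l * c) =
        ((-1) ^ (((i.castSucc : Fin (r + 1)) : ℕ) + ((Fin.last r : Fin (r + 1)) : ℕ)) * c) *
          (W i l * ver d X l) := by
      intro l
      ring
    rw [Finset.sum_congr rfl fun l _ => h7 l, ← Finset.mul_sum, h3', mul_zero]
  rw [Finset.sum_congr rfl fun i _ => h6 i, Finset.sum_const_zero, zero_add] at h4
  have h8 : ∑ l, ver d X l * (cf d (spG P y g) l *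
      (Matrix.of fun a b : Fin r => W a (e₀ b)).det) =
      (∑ l, cf d (spG P y g) l * ver d X l) *
      (Matrix.of fun a b : Fin r => W a (e₀ b)).det := by
    rw [Finset.sum_mul]
    refine Finset.sum_congr rfl fun l _ => ?_
    ring
  rw [h8] at h4
  have h9 := (mul_eq_zero.1 h4).resolve_right hRP'
  rw [← h9]
  exact EF.eval_cf (spG_hom P y hg) X

end

section

variable {K : Type u} [Field K] {N q p p' n m s w : ℕ} {A : AV K N} (B : Bun A q p p')

theorem K2_coeff_red (H : Fin m → Pol K N q p n) (f : Fin w → Pol K N q p n) (l : Fin w)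
    (ν : Fin q × Fin p →₀ ℕ) :
    coeff ν (redF B H f l) =
      open Classical in if md ν ∈ NewF B H f then coeff ν (f l) else 0 := by
  classical
  unfold redF
  exact @K3_coeff_sum _ _ _ _ _ _ (f l) (fun μ => md μ ∈ NewF B H f) _ ν

/-- Over the points of the bundle. -/
theorem K2_fb {H : Fin m → Pol K N q p n} {L : Type u} [Field L] [Algebra K L] {P : A.Pts L}
    {y : Fin q × Fin p → L} (hy : B.On P y) : fbG P y (redV B H) = fbG P y H := by
  unfold fbG
  congr 2
  funext i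
  exact redV_sp B H i hy

theorem K2_fb' {H : Fin m → Pol K N q p n} (τ : Fin q → ℝ) {L : Type u} [Field L]
    [Algebra K L] {P : A.Pts L} {y : Fin q × Fin p → L} (hy : B.On P y) :
    fbG P y (ldH τ (redV B H)) = fbG P y (ldV B τ H) := by
  unfold fbG
  congr 2
  funext i
  exact redV_ld B H i τ hy

/-- A part that vanishes on the generic fibre vanishes on the leading parts of the equations. -/
theorem K2_pt [Infinite K] {ch : Fin q → Fin p'} (h : B.Ch ch) {t : ℕ} (ht : 0 < t)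
    {H : Fin m → Pol K N q p n} (hH : ∀ i, ∃ a b : ℕ, BB B a b (H i)) (hg : GoodV B H t)
    {D d : ℕ} (hd : 0 < d) {g : Pol K N q p n} (hgB : BB B D d g) (a : Fin q → ℕ)
    (h0 : ZerV B H (ptG a g)) (τ : Fin q → ℝ) {L : Type u} [Field L] [IsAlgClosed L]
    [Algebra K L] {P : A.Pts L} {y : Fin q × Fin p → L} (hP : GenP B P y) :
    spG P y (ptG a g) ∈ fbG P y (ldV B τ H) := by
  classical
  choose DH dH hH' using hH
  have h1 : ∀ i, BG (B.tor ch h) (DH i) (dH i) (redV B H i) := fun i => redV_BB B (hH' i)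
  have h2 := h0 L P y hP
  rw [← K2_fb B hP.2.1] at h2
  obtain ⟨w, hw⟩ : ∃ w : ℝ, w = ∑ i, (a i : ℝ) * τ i := ⟨_, rfl⟩
  have hwt : ∀ μ : Fin q × Fin p →₀ ℕ, md μ = a → wt τ μ = w := by
    rintro μ rfl
    rw [K3_wt, hw]
  have h3 : ∀ μ, coeff μ (ptG a g) ≠ 0 → wt τ μ = w := by
    intro μ hμ
    rw [K3_coeff_pt] at hμ
    by_cases h4 : md μ = a
    · exact hwt μ h4
    · rw [if_neg h4] at hμ
      exact absurd rfl hμ
  have h4 : partWt τ w (ptG a g) = ptG a g := by
    ext1 μ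
    rw [TB.coeff_partWt]
    by_cases h5 : wt τ μ = w
    · rw [if_pos h5]
    · rw [if_neg h5]
      by_contra h6
      exact h5 (h3 μ fun h7 => h6 h7.symm)
  have h5 := I_two (B.tor ch h) ht h1 (redV_good B h hg) hd
    (show BG (B.tor ch h) D d (ptG a g) from K3_BB_pt B hgB a) ((K_gen B h P y).1 hP) h2 τ w
    fun μ hμ => (h3 μ (mem_support_iff.1 hμ)).le
  rw [h4, K2_fb' B τ hP.2.1] at h5
  exact h5

/-- The leading parts differ by parts that vanish on the generic fibre. -/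
theorem redF_codim [Infinite K] {ch : Fin q → Fin p'} (h : B.Ch ch) {t : ℕ} (ht : 0 < t)
    {H : Fin m → Pol K N q p n} (hH : ∀ i, ∃ a b : ℕ, BB B a b (H i)) (hg : GoodV B H t)
    {D d : Fin s → ℕ} (hd : ∀ j, 0 < d j) {f : Fin s → Fin w → Pol K N q p n}
    (hf : ∀ j l, BB B (D j) (d j) (f j l)) (τ : Fin q → ℝ) (U : Finset (Fin s)) {i : ℕ}
    (hc : CodimF B H t τ (cutF B H f τ U) i) :
    CodimG (B.tor ch h) (redV B H) t τ (cutB (fun j => redF B H (f j)) τ U) i := by
  classical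
  intro L _ _ _ P y hP 𝔭 h𝔭 hle hG
  have hP' := (K_gen B h P y).2 hP
  rw [K2_fb' B τ hP'.2.1] at hle
  refine hc L P y hP' 𝔭 h𝔭 hle ?_
  rintro g ⟨j, hj, l, rfl⟩
  have h1 := hG (spG P y (partWt τ (maxWt τ (redF B H (f j))) (redF B H (f j) l)))
    ⟨_, ⟨j, hj, l, rfl⟩, rfl⟩
  rw [redF_maxWt] at h1
  set c := supF B H (f j) τ with hcc
  have h2 : partWt τ c (f j l) = partWt τ c (redF B H (f j) l) +
      ∑ μ ∈ (f j l).support.filter (fun μ => md μ ∉ NewF B H (f j) ∧
        ∑ i, (md μ i : ℝ) * τ i = c), monomial μ (coeff μ (f j l)) := by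
    ext1 ν
    rw [coeff_add, K3_coeff_sum, TB.coeff_partWt, TB.coeff_partWt, K2_coeff_red, K3_wt]
    by_cases h3 : ∑ i, (md ν i : ℝ) * τ i = c
    · by_cases h4 : md ν ∈ NewF B H (f j)
      · simp [h3, h4]
      · simp [h3, h4]
    · simp [h3]
  rw [h2, spG_add]
  refine 𝔭.add_mem h1 ?_
  rw [K3_out l _ (by
    intro μ μ' h3 h4
    rw [← h3]
    exact h4), spG_sum]
  refine Ideal.sum_mem _ fun a ha => hle ?_
  obtain ⟨μ, hμ, rfl⟩ := Finset.mem_image.mp ha
  have h5 := (Finset.mem_filter.mp hμ).2.1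
  have h6 : ZerV B H (ptG (md μ) (f j l)) := by
    by_contra h7
    exact h5 ⟨l, h7⟩
  exact K2_pt B h ht hH hg (hd j) (hf j l) _ h6 τ hP'

/-- The values agree outside a divisor. -/
theorem redF_val {ch : Fin q → Fin p'} (h : B.Ch ch) {H : Fin m → Pol K N q p n}
    (hH : ∀ i, ∃ a b : ℕ, BB B a b (H i)) {D d : ℕ} {f : Fin w → Pol K N q p n}
    (hf : ∀ l, BB B D d (f l)) :
    ∃ (R : Pl K N q p) (ρ : ℕ), (B.tor ch h).WH ρ R ∧
      (∀ (L : Type u) [Field L] [IsAlgClosed L] [Algebra K L] (P : A.Pts L)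
        (y : Fin q × Fin p → L), GenP B P y → ev P y R ≠ 0) ∧
      ∀ (P : A.Pts K) (y : Fin q × Fin p → K), (B.tor ch h).On P y → B.On P y →
        ev P y R ≠ 0 → ∀ X : Fin n → K, (∀ i, eval X (spG P y (H i)) = 0) → ∀ l,
          eval X (spG P y (redF B H f l)) = eval X (spG P y (f l)) := by
  classical
  choose DH dH hH' using hH
  have key' : ∀ z : Fin w × (Fin q → ℕ),
      ∃ (R : Pl K N q p) (ρ : ℕ), (B.tor ch h).WH ρ R ∧
      (∀ (L : Type u) [Field L] [Algebra K L] (P : A.Pts L) (y : Fin q × Fin p → L),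
        GenB (B.tor ch h) P y → ev P y R ≠ 0) ∧
      (z.2 ∉ NewF B H f → ∀ (P : A.Pts K) (y : Fin q × Fin p → K), (B.tor ch h).On P y →
        ev P y R ≠ 0 → ∀ X : Fin n → K, (∀ i, eval X (spG P y (H i)) = 0) →
          eval X (spG P y (ptG z.2 (f z.1))) = 0) := by
    intro z
    by_cases hz : z.2 ∈ NewF B H f
    · refine ⟨1, 0, ?_, fun L _ _ P y _ => ?_, fun h1 => absurd hz h1⟩
      · intro μ hμ
        refine ⟨0, ?_, ?_⟩
        · rw [coeff_one]
          split_ifs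
          · exact isHomogeneous_one _ _
          · exact isHomogeneous_zero _ _ _
        · rw [coeff_one] at hμ
          by_cases h1 : 0 = μ
          · rw [← h1]
            simp
          · rw [if_neg h1] at hμ
            exact absurd rfl hμ
      · have h1 : ev P y (1 : Pl K N q p) = 1 := map_one (G1_ev P y)
        rw [h1]
        exact one_ne_zero
    · have h1 : ZerV B H (ptG z.2 (f z.1)) := by
        by_contra h2
        exact hz ⟨z.1, h2⟩
      obtain ⟨R, ρ, h2, h3, h4⟩ := K2_zer (B.tor ch h) (H := H) (DH := DH) (dH := dH) hH'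
        (D := D) (d := d) (g := ptG z.2 (f z.1)) (K3_BB_pt B (hf z.1) z.2)
        fun L _ _ _ P y hP => h1 L P y ((K_gen B h P y).2 hP)
      exact ⟨R, ρ, h2, h3, fun _ => h4⟩
  choose R ρ h1 h2 h3 using key'
  let Ω : Finset (Fin w × (Fin q → ℕ)) :=
    Finset.univ ×ˢ (Finset.univ.biUnion fun l => (f l).support.image md)
  have hprod : ∀ (L : Type u) [Field L] [Algebra K L] (P : A.Pts L) (y : Fin q × Fin p → L),
      ev P y (∏ z ∈ Ω, R z) = ∏ z ∈ Ω, ev P y (R z) := fun L _ _ P y =>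
    map_prod (G1_ev P y) _ _
  refine ⟨∏ z ∈ Ω, R z, ∑ z ∈ Ω, ρ z, TB.R1_WH_prod (B.tor ch h) _ _ _ fun z _ => h1 z,
    ?_, ?_⟩
  · intro L _ _ _ P y hP
    rw [hprod]
    exact Finset.prod_ne_zero_iff.2 fun z _ => h2 z L P y ((K_gen B h P y).1 hP)
  · intro P y hy _ hR X hX l
    rw [hprod] at hR
    have h5 : f l = redF B H f l + ∑ μ ∈ (f l).support.filter (fun μ => md μ ∉ NewF B H f),
        monomial μ (coeff μ (f l)) := by
      ext1 ν
      rw [coeff_add, K3_coeff_sum, K2_coeff_red]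
      by_cases h4 : md ν ∈ NewF B H f
      · simp [h4]
      · simp [h4]
    have h6 := congrArg (fun g => eval X (spG P y g)) h5
    simp only [spG_add, map_add] at h6
    rw [h6]
    refine (add_eq_left.mpr ?_).symm
    rw [K3_out l _ (by
      intro μ μ' h3 h4
      rw [← h3]
      exact h4), spG_sum, map_sum]
    refine Finset.sum_eq_zero fun a ha => ?_
    obtain ⟨μ, hμ, rfl⟩ := Finset.mem_image.mp ha
    have h6 := Finset.mem_filter.mp hμ
    have h7 : (l, md μ) ∈ Ω := Finset.mem_product.mpr ⟨Finset.mem_univ _,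
      Finset.mem_biUnion.mpr ⟨l, Finset.mem_univ _, Finset.mem_image_of_mem _ h6.1⟩⟩
    exact h3 (l, md μ) h6.2 P y hy (Finset.prod_ne_zero_iff.mp hR _ h7) X hX

end

end Pool.Agent.Lib.MP_17a322_nt.VC
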