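import Pool.Agent.Lib.MP_17a322_nt.VC.Defs
import Pool.Agent.Lib.MP_17a322_nt.VC.R1
import Pool.Agent.Lib.MP_17a322_nt.EG.G1
import Pool.Agent.Lib.MP_17a322_nt.EG.B1
import Pool.Agent.Lib.MP_17a322_nt.VB.A1
import Pool.Agent.Lib.MP_17a322_nt.EF.U2

/-!
Families over principal torus bundles over `A`: the normalised height of the fibres and the rows of
the generic fibre.
-/

universe u

namespace Pool.Agent.Lib.MP_17a322_nt.VC

open MvPolynomial Height
open Pool.Agent.Lib.MP_17a322_nt.VA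
open Pool.Agent.Lib.MP_17a322_nt.SL
open Pool.Agent.Lib.MP_17a322_nt.EF (BH Mo mo cf uncf rk part hSub uncf_hom cf_uncf uncf_cf cf_equiv
  U2_hSub)
open Pool.Agent.Lib.MP_17a322_nt.TB (Tor ev R1_WH_det R1_WH_mul)
open Pool.Agent.Lib.MP_17a322_nt.EG
open Pool.Agent.Lib.MP_17a322_nt.VB (Pl mnr Rk hV mnr_map exists_mnr li_of_mnr)

section

variable {K : Type u} [Field K] {N q p n m : ℕ} {A : AV K N} (T : Tor A q p)

/-- A polynomial that does not vanish at a point of the bundle does not vanish at the generic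
points. -/
theorem U1_ne {D : ℕ} {R : Pl K N q p} (hR : T.WH D R) {L L' : Type u} [Field L] [Algebra K L]
    [Field L'] [Algebra K L'] {P : A.Pts L} {y : Fin q × Fin p → L} (hy : T.On P y)
    (h : ev P y R ≠ 0) {P' : A.Pts L'} {y' : Fin q × Fin p → L'} (h' : GenB T P' y') :
    ev P' y' R ≠ 0 := fun h0 =>
  h (G1_ev_sp T hy (G1_sp_zero T hR h'.1 (h'.2.2 D R hR h0) P))

theorem U1_mnr {c : ℕ} {κ : Type*} (w : Fin c → κ → Pl K N q p) (e : Fin c → κ) {L : Type u}
    [Field L] [Algebra K L] (P : A.Pts L) (y : Fin q × Fin p → L) :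
    ev P y (mnr w e) = mnr (fun i l => ev P y (w i l)) e :=
  (mnr_map (G1_ev P y) w e).symm

theorem U1_WH {c : ℕ} {κ : Type*} {w : Fin c → κ → Pl K N q p} {D : Fin c → ℕ}
    (hw : ∀ i l, T.WH (D i) (w i l)) (e : Fin c → κ) : T.WH (∑ i, D i) (mnr w e) := by
  unfold mnr
  exact R1_WH_det T _ D fun i l => hw i (e l)

/-- Independence at any point of the bundle implies independence at the generic points. -/
theorem U1_up {κ : Type*} [Finite κ] {c : ℕ} {w : Fin c → κ → Pl K N q p} {D : Fin c → ℕ}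
    (hw : ∀ i l, T.WH (D i) (w i l)) {L L' : Type u} [Field L] [Algebra K L] [Field L']
    [Algebra K L'] {P : A.Pts L} {y : Fin q × Fin p → L} (hy : T.On P y) {P' : A.Pts L'}
    {y' : Fin q × Fin p → L'} (h' : GenB T P' y')
    (h : LinearIndependent L fun i l => ev P y (w i l)) :
    LinearIndependent L' fun i l => ev P' y' (w i l) := by
  obtain ⟨e, he⟩ := exists_mnr h
  rw [← U1_mnr] at he
  have h1 := U1_ne T (U1_WH T hw e) hy he h'
  rw [U1_mnr] at h1
  exact li_of_mnr e h1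

/-- Relations at a generic point hold everywhere. -/
theorem U1_mem {κ : Type*} [Finite κ] {c : ℕ} {w : Fin c → κ → Pl K N q p} {D : Fin c → ℕ}
    (hw : ∀ i l, T.WH (D i) (w i l)) {w₀ : κ → Pl K N q p} {D₀ : ℕ} (hw₀ : ∀ l, T.WH D₀ (w₀ l))
    {L L' : Type u} [Field L] [Algebra K L] [Field L'] [Algebra K L'] {P : A.Pts L}
    {y : Fin q × Fin p → L} (hy : T.On P y) {P' : A.Pts L'} {y' : Fin q × Fin p → L'}
    (h' : GenB T P' y') (hmem : (fun l => ev P' y' (w₀ l)) ∈
      Submodule.span L' (Set.range fun i l => ev P' y' (w i l)))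
    (h : LinearIndependent L fun i l => ev P y (w i l)) :
    (fun l => ev P y (w₀ l)) ∈ Submodule.span L (Set.range fun i l => ev P y (w i l)) := by
  by_contra hcon
  have h3 : LinearIndependent L (Fin.cons (α := fun _ => κ → L)
      (fun l => ev P y (w₀ l)) fun i l => ev P y (w i l)) :=
    linearIndependent_finCons.2 ⟨h, hcon⟩
  have h4 := U1_up T (w := Fin.cons (α := fun _ => κ → Pl K N q p) w₀ w)
    (D := Fin.cons (α := fun _ => ℕ) D₀ D) (fun i l => by
      refine Fin.cases ?_ (fun j => ?_) i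
      · exact hw₀ l
      · exact hw j l) hy h' (by
    have h5 : (fun i l => ev P y
        (Fin.cons (α := fun _ => κ → Pl K N q p) w₀ w i l)) =
        Fin.cons (α := fun _ => κ → L)
          (fun l => ev P y (w₀ l)) fun i l => ev P y (w i l) := by
      funext i
      refine Fin.cases ?_ (fun j => ?_) i
      · rfl
      · rfl
    rw [h5]
    exact h3)
  have h6 : (fun i l => ev P' y'
      (Fin.cons (α := fun _ => κ → Pl K N q p) w₀ w i l)) =
      Fin.cons (α := fun _ => κ → L')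
        (fun l => ev P' y' (w₀ l)) fun i l => ev P' y' (w i l) := by
    funext i
    refine Fin.cases ?_ (fun j => ?_) i
    · rfl
    · rfl
  rw [h6] at h4
  exact (linearIndependent_finCons.1 h4).2 hmem

/-- A monomial is a form. -/
theorem U1_mon (ν : Fin n → ℕ) :
    BH 0 (∑ l, ν l) (∏ l, X l ^ ν l : MvPolynomial (Fin n) (MvPolynomial (Fin (N + 1)) K)) := by
  classical
  have h0 : (∏ l, X l ^ ν l : MvPolynomial (Fin n) (MvPolynomial (Fin (N + 1)) K)) =
      monomial (Finsupp.equivFunOnFinite.symm ν) 1 := by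
    rw [monomial_eq, C_1, one_mul, Finsupp.prod_fintype _ _ fun i => pow_zero _]
    rfl
  constructor
  · refine IsHomogeneous.prod _ _ _ fun l _ => ?_
    have h1 := (isHomogeneous_X (MvPolynomial (Fin (N + 1)) K) l).pow (ν l)
    rwa [one_mul] at h1
  · intro μ
    rw [h0, coeff_monomial]
    split_ifs
    · exact isHomogeneous_one _ _
    · exact isHomogeneous_zero _ _ _

/-- Outside of a form, the rows span the forms of degree `k` of the ideal of the fibre. -/
theorem U1_rows {DH dH : Fin m → ℕ} {H : Fin m → Pol K N q p n}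
    (hH : ∀ i, BG T (DH i) (dH i) (H i)) (k : ℕ) {g' : ℕ}
    (G' : Matrix (Fin g') (Fin (Mo n k).card) (Pl K N q p)) (hG' : IsRw T H k G') :
    ∃ (R : Pl K N q p) (ρ : ℕ), T.WH ρ R ∧
      (∀ (L : Type u) [Field L] [IsAlgClosed L] [Algebra K L] (P : A.Pts L)
        (y : Fin q × Fin p → L), GenB T P y → ev P y R ≠ 0) ∧
      ∀ (L : Type u) [Field L] [Algebra K L] (P : A.Pts L) (y : Fin q × Fin p → L), T.On P y →
        ev P y R ≠ 0 →
        LinearIndependent L (fun i l => ev P y (G' i l)) ∧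
        ∀ f : MvPolynomial (Fin n) L, f.IsHomogeneous k →
          (f ∈ fbG P y H ↔
            cf k f ∈ Submodule.span L (Set.range fun i l => ev P y (G' i l))) := by
  classical
  obtain ⟨L₀, _, _, _, P₀, y₀, hP₀⟩ := genB_exists T
  -- the multiples of the equations
  obtain ⟨W, hW⟩ : ∃ W : {z : Fin m × (Fin n → Fin (k + 1)) // ∑ l, (z.2 l : ℕ) + dH z.1 = k} →
      Fin (Mo n k).card → Pl K N q p, ∀ z, W z =
        cfG k (C (∏ l, X l ^ (z.1.2 l : ℕ)) * H z.1.1) := ⟨_, fun z => rfl⟩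
  have hw : ∀ z l, T.WH (DH z.1.1) (W z l) := by
    intro z l
    rw [hW]
    have h1 := BG_mul (BG_C T (U1_mon (K := K) (N := N) fun l => (z.1.2 l : ℕ))) (hH z.1.1)
    rw [zero_add] at h1
    exact cfG_WH h1 l
  have hwf : ∀ (L : Type u) [Field L] [Algebra K L] (P : A.Pts L) (y : Fin q × Fin p → L)
      (f : MvPolynomial (Fin n) L), f.IsHomogeneous k → (f ∈ fbG P y H ↔
        cf k f ∈ Submodule.span L (Set.range fun z l => ev P y (W z l))) := by
    intro L _ _ P y f hf
    rw [rw_mem T hH P y hf]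
    have h2 : (fun z : {z : Fin m × (Fin n → Fin (k + 1)) // ∑ l, (z.2 l : ℕ) + dH z.1 = k} =>
        cf k (spG P y (C (∏ l, X l ^ (z.1.2 l : ℕ)) * H z.1.1 : Pol K N q p n))) =
        fun z l => ev P y (W z l) := by
      funext z l
      rw [hW]
      exact cf_spG P y k _ l
    rw [h2]
  obtain ⟨⟨D', hD'⟩, hG2, -⟩ := hG'
  obtain ⟨hG3, hG4⟩ := hG2 L₀ P₀ y₀ hP₀
  -- the spans at the generic point
  have hspan : Submodule.span L₀ (Set.range fun z l => ev P₀ y₀ (W z l)) =
      Submodule.span L₀ (Set.range fun i l => ev P₀ y₀ (G' i l)) := by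
    ext x
    rw [← cf_uncf (k := k) x, ← hwf L₀ P₀ y₀ _ (uncf_hom x), hG4 _ (uncf_hom x)]
  obtain ⟨κ, j, hj, hjs, hjli⟩ := exists_linearIndependent' (K := L₀)
    (fun z l => ev P₀ y₀ (W z l))
  have hκ : Finite κ := Finite.of_injective j hj
  have hκ' := Fintype.ofFinite κ
  have hcard : Fintype.card κ = g' := by
    have h1 := finrank_span_eq_card hjli
    rw [hjs, hspan, finrank_span_eq_card hG3, Fintype.card_fin] at h1
    exact h1.symm
  obtain ⟨e⟩ : Nonempty (Fin g' ≃ κ) := ⟨(Fintype.equivFinOfCardEq hcard).symm⟩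
  have hJ : LinearIndependent L₀ fun i l => ev P₀ y₀ (W (j (e i)) l) :=
    hjli.comp e e.injective
  obtain ⟨e₁, he₁⟩ := exists_mnr hJ
  obtain ⟨e₂, he₂⟩ := exists_mnr hG3
  obtain ⟨f₁, hf₁⟩ : ∃ f : Pl K N q p, f = mnr (fun i l => W (j (e i)) l) e₁ := ⟨_, rfl⟩
  obtain ⟨f₂, hf₂⟩ : ∃ f : Pl K N q p, f = mnr (fun i l => G' i l) e₂ := ⟨_, rfl⟩
  have hWH₁ : T.WH (∑ i, DH (j (e i)).1.1) f₁ := by
    rw [hf₁]
    exact U1_WH T (fun i l => hw (j (e i)) l) e₁
  have hWH₂ : T.WH (∑ i, D' i) f₂ := by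
    rw [hf₂]
    exact U1_WH T (fun i l => hD' i l) e₂
  have hev : ∀ {L : Type u} [Field L] [Algebra K L] (P : A.Pts L) (y : Fin q × Fin p → L),
      ev P y (f₁ * f₂) = ev P y f₁ * ev P y f₂ := by
    intro L _ _ P y
    exact map_mul (G1_ev P y) f₁ f₂
  have hWH := R1_WH_mul T hWH₁ hWH₂
  refine ⟨f₁ * f₂, _, hWH, ?_, ?_⟩
  · intro L _ _ _ P y hP
    refine U1_ne T hWH hP₀.2.1 ?_ hP
    rw [hev, hf₁, hf₂, U1_mnr, U1_mnr]
    exact mul_ne_zero he₁ he₂
  · intro L _ _ P y hy hP
    rw [hev] at hP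
    have hP₁ := left_ne_zero_of_mul hP
    have hP₂ := right_ne_zero_of_mul hP
    rw [hf₁, U1_mnr] at hP₁
    rw [hf₂, U1_mnr] at hP₂
    have hL₁ := li_of_mnr e₁ hP₁
    have hL₂ := li_of_mnr e₂ hP₂
    refine ⟨hL₂, fun f hf => ?_⟩
    rw [hwf L P y f hf]
    have h1 : Submodule.span L (Set.range fun z l => ev P y (W z l)) =
        Submodule.span L (Set.range fun i l => ev P y (G' i l)) := by
      apply le_antisymm
      · rw [Submodule.span_le]
        rintro _ ⟨z, rfl⟩
        refine U1_mem T (w := fun i l => G' i l) hD' (w₀ := W z) (fun l => hw z l) hy hP₀ ?_ hL₂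
        rw [← hspan]
        exact Submodule.subset_span ⟨z, rfl⟩
      · rw [Submodule.span_le]
        rintro _ ⟨i, rfl⟩
        have h2 := U1_mem T (w := fun i l => W (j (e i)) l) (fun i l => hw (j (e i)) l)
          (w₀ := G' i) (fun l => hD' i l) hy hP₀ (by
            have h3 : (fun l => ev P₀ y₀ (G' i l)) ∈ Submodule.span L₀
                (Set.range fun i l => ev P₀ y₀ (G' i l)) :=
              Submodule.subset_span ⟨i, rfl⟩
            rw [← hspan, ← hjs] at h3
            refine Submodule.span_mono ?_ h3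
            rintro _ ⟨c, rfl⟩
            refine ⟨e.symm c, ?_⟩
            show (fun l => ev P₀ y₀ (W (j (e (e.symm c))) l)) = _
            rw [e.apply_symm_apply]
            rfl) hL₁
        refine Submodule.span_mono ?_ h2
        rintro _ ⟨c, rfl⟩
        exact ⟨j (e c), rfl⟩
    rw [h1]

end

/-- The dimension of the forms of degree `k` modulo an ideal. -/
theorem U1_rk {n : ℕ} {L : Type*} [Field L] (I : Ideal (MvPolynomial (Fin n) L)) (k : ℕ) {g' : ℕ}
    (B : Fin g' → Fin (Mo n k).card → L) (hli : LinearIndependent L B)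
    (hmem : ∀ f : MvPolynomial (Fin n) L, f.IsHomogeneous k →
      (f ∈ I ↔ cf k f ∈ Submodule.span L (Set.range B))) : g' + rk I k = (Mo n k).card := by
  classical
  obtain ⟨e, he⟩ := cf_equiv n k L
  have : FiniteDimensional L (homogeneousSubmodule (Fin n) L k) := Module.Finite.equiv e.symm
  have h1 := LinearMap.finrank_range_add_finrank_ker
    ((Ideal.Quotient.mkₐ L I).toLinearMap.domRestrict (homogeneousSubmodule (Fin n) L k))
  rw [LinearMap.range_domRestrict, e.finrank_eq, Module.finrank_fin_fun] at h1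
  have h2 : (LinearMap.ker ((Ideal.Quotient.mkₐ L I).toLinearMap.domRestrict
      (homogeneousSubmodule (Fin n) L k))).map (e : homogeneousSubmodule (Fin n) L k →ₗ[L] _) =
      Submodule.span L (Set.range B) := by
    ext y
    rw [Submodule.mem_map]
    constructor
    · rintro ⟨Q, hQ, rfl⟩
      rw [LinearMap.mem_ker, LinearMap.domRestrict_apply] at hQ
      have h3 : (Q : MvPolynomial (Fin n) L) ∈ I := Ideal.Quotient.eq_zero_iff_mem.1 hQ
      show e Q ∈ _
      rw [he]
      exact (hmem _ ((mem_homogeneousSubmodule _ _).1 Q.2)).1 h3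
    · intro hy
      refine ⟨e.symm y, ?_, e.apply_symm_apply y⟩
      rw [LinearMap.mem_ker, LinearMap.domRestrict_apply]
      refine Ideal.Quotient.eq_zero_iff_mem.2 ?_
      refine (hmem _ ((mem_homogeneousSubmodule _ _).1 (e.symm y).2)).2 ?_
      rw [← he, e.apply_symm_apply]
      exact hy
  have h3 := LinearEquiv.finrank_map_eq e (LinearMap.ker
    ((Ideal.Quotient.mkₐ L I).toLinearMap.domRestrict (homogeneousSubmodule (Fin n) L k)))
  rw [h2, finrank_span_eq_card hli, Fintype.card_fin] at h3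
  rw [← h3] at h1
  unfold rk
  rw [add_comm]
  exact h1

section

variable {K : Type u} [Field K] {N q p n m : ℕ} {A : AV K N} (T : Tor A q p)

theorem slopeI_nonneg [NumberField K] (t : ℕ) (I : Ideal (MvPolynomial (Fin n) K)) :
    0 ≤ slopeI t I := by
  unfold slopeI
  exact Real.iInf_nonneg fun k =>
    div_nonneg (mul_nonneg (Nat.cast_nonneg _) (logHeight_nonneg _)) (by positivity)

theorem U_rowsC [NumberField K] {t : ℕ} {DH dH : Fin m → ℕ} {H : Fin m → Pol K N q p n}
    (hH : ∀ i, BG T (DH i) (dH i) (H i)) (k g' r' : ℕ)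
    (G' : Matrix (Fin g') (Fin (Mo n k).card) (Pl K N q p)) (hG' : IsRw T H k G')
    (hgr : g' + r' = (Mo n k).card) :
    ∃ (R : Pl K N q p) (ρ : ℕ), T.WH ρ R ∧
      (∀ (L : Type u) [Field L] [IsAlgClosed L] [Algebra K L] (P : A.Pts L)
        (y : Fin q × Fin p → L), GenB T P y → ev P y R ≠ 0) ∧
      ∀ (P : A.Pts K) (y : Fin q × Fin p → K), T.On P y → ev P y R ≠ 0 →
        (k : ℝ) * r' * slopeI t (fbG P y H) ≤ t * hV G' P y := by
  classical
  obtain ⟨R, ρ, hR, hR0, h⟩ := U1_rows T hH k G' hG'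
  refine ⟨R, ρ, hR, hR0, fun P y hy hP => ?_⟩
  obtain ⟨h1, h2⟩ := h K P y hy hP
  have hhE : 0 ≤ hV G' P y := logHeight_nonneg _
  have ht : (0 : ℝ) ≤ t * hV G' P y := mul_nonneg (Nat.cast_nonneg _) hhE
  rcases k with _ | k
  · rw [Nat.cast_zero, zero_mul, zero_mul]
    exact ht
  have h3 := U1_rk (fbG P y H) (k + 1) _ h1 h2
  have h4 : rk (fbG P y H) (k + 1) = r' := by omega
  rcases Nat.eq_zero_or_pos r' with h5 | h5
  · rw [h5, Nat.cast_zero, mul_zero, zero_mul]
    exact ht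
  have h6 : part (fbG P y H) (k + 1) =
      Submodule.span K (Set.range fun i l => ev P y (G' i l)) := by
    unfold part
    apply le_antisymm
    · rw [Submodule.span_le]
      rintro _ ⟨f, hf, hfh, rfl⟩
      exact (h2 f hfh).1 hf
    · rw [Submodule.span_le]
      rintro _ ⟨i, rfl⟩
      refine Submodule.subset_span ⟨uncf (k + 1) fun l => ev P y (G' i l), ?_,
        uncf_hom _, (cf_uncf _).symm⟩
      rw [h2 _ (uncf_hom _), cf_uncf]
      exact Submodule.subset_span ⟨i, rfl⟩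
  have h7 : hSub (part (fbG P y H) (k + 1)) = hV G' P y :=
    U2_hSub _ (fun i l => ev P y (G' i l)) h1 h6.symm
  have h8 : slopeI t (fbG P y H) ≤ t * hV G' P y / ((k + 1 : ℕ) * r') := by
    unfold slopeI
    refine (ciInf_le ⟨0, ?_⟩ k).trans (le_of_eq ?_)
    · rintro _ ⟨j, rfl⟩
      exact div_nonneg (mul_nonneg (Nat.cast_nonneg _) (logHeight_nonneg _)) (by positivity)
    · rw [h7, h4]
  have h9 : (0 : ℝ) < ((k + 1 : ℕ) : ℝ) * r' := by positivity
  calc ((k + 1 : ℕ) : ℝ) * r' * slopeI t (fbG P y H) ≤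
      ((k + 1 : ℕ) : ℝ) * r' * (t * hV G' P y / ((k + 1 : ℕ) * r')) :=
        mul_le_mul_of_nonneg_left h8 h9.le
    _ = t * hV G' P y := by field_simp

theorem muI_nonneg [NumberField K] (t : ℕ) (I : Ideal (MvPolynomial (Fin n) K)) (k : ℕ) :
    0 ≤ muI t I k :=
  div_nonneg (mul_nonneg (Nat.cast_nonneg _) (logHeight_nonneg _)) (by positivity)

theorem U_rowsM [NumberField K] {t : ℕ} {DH dH : Fin m → ℕ} {H : Fin m → Pol K N q p n}
    (hH : ∀ i, BG T (DH i) (dH i) (H i)) (k g' r' : ℕ)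
    (G' : Matrix (Fin g') (Fin (Mo n k).card) (Pl K N q p)) (hG' : IsRw T H k G')
    (hgr : g' + r' = (Mo n k).card) :
    ∃ (R : Pl K N q p) (ρ : ℕ), T.WH ρ R ∧
      (∀ (L : Type u) [Field L] [IsAlgClosed L] [Algebra K L] (P : A.Pts L)
        (y : Fin q × Fin p → L), GenB T P y → ev P y R ≠ 0) ∧
      ∀ (P : A.Pts K) (y : Fin q × Fin p → K), T.On P y → ev P y R ≠ 0 →
        (k : ℝ) * r' * muI t (fbG P y H) k ≤ t * hV G' P y := by
  classical
  obtain ⟨R, ρ, hR, hR0, h⟩ := U1_rows T hH k G' hG'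
  refine ⟨R, ρ, hR, hR0, fun P y hy hP => ?_⟩
  obtain ⟨h1, h2⟩ := h K P y hy hP
  have hhE : 0 ≤ hV G' P y := logHeight_nonneg _
  have ht : (0 : ℝ) ≤ t * hV G' P y := mul_nonneg (Nat.cast_nonneg _) hhE
  rcases k with _ | k
  · rw [Nat.cast_zero, zero_mul, zero_mul]
    exact ht
  have h3 := U1_rk (fbG P y H) (k + 1) _ h1 h2
  have h4 : rk (fbG P y H) (k + 1) = r' := by omega
  rcases Nat.eq_zero_or_pos r' with h5 | h5
  · rw [h5, Nat.cast_zero, mul_zero, zero_mul]
    exact ht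
  have h6 : part (fbG P y H) (k + 1) =
      Submodule.span K (Set.range fun i l => ev P y (G' i l)) := by
    unfold part
    apply le_antisymm
    · rw [Submodule.span_le]
      rintro _ ⟨f, hf, hfh, rfl⟩
      exact (h2 f hfh).1 hf
    · rw [Submodule.span_le]
      rintro _ ⟨i, rfl⟩
      refine Submodule.subset_span ⟨uncf (k + 1) fun l => ev P y (G' i l), ?_,
        uncf_hom _, (cf_uncf _).symm⟩
      rw [h2 _ (uncf_hom _), cf_uncf]
      exact Submodule.subset_span ⟨i, rfl⟩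
  have h7 : hSub (part (fbG P y H) (k + 1)) = hV G' P y :=
    U2_hSub _ (fun i l => ev P y (G' i l)) h1 h6.symm
  have h9 : (0 : ℝ) < ((k + 1 : ℕ) : ℝ) * r' := by positivity
  unfold muI
  rw [h7, h4]
  refine le_of_eq ?_
  field_simp

end

end Pool.Agent.Lib.MP_17a322_nt.VC
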