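import Pool.Agent.Lib.MP_17a322_nt.VC.R1
import Pool.Agent.Lib.MP_17a322_nt.EG.P2

/-!
Families over principal torus bundles over `A`: general members, for all directions.
-/

universe u

namespace Pool.Agent.Lib.MP_17a322_nt.VC

open MvPolynomial Height
open Pool.Agent.Lib.MP_17a322_nt.VA
open Pool.Agent.Lib.MP_17a322_nt.SL
open Pool.Agent.Lib.MP_17a322_nt.TB (Tor ev maxWt partWt wt supp)
open Pool.Agent.Lib.MP_17a322_nt.EG
open Pool.Agent.Lib.MP_17a322_nt.VB (Pl)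

section

variable {K : Type u} [Field K] {N q p n m s w : ℕ} {A : AV K N} (T : Tor A q p)

/-- Finitely many directions represent all patterns of two families. -/
theorem pat_repsC {R : Type*} [CommRing R] {m' w' : ℕ}
    (f : Fin s → Fin w → MvPolynomial (Fin q × Fin p) R)
    (h : Fin m' → Fin w' → MvPolynomial (Fin q × Fin p) R) :
    ∃ (e : ℕ) (τs : Fin e → Fin q → ℝ), ∀ τ, ∃ κ, (∀ j, pat f τ j = pat f (τs κ) j) ∧
      ∀ i, pat h τ i = pat h (τs κ) i := by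
  classical
  have hf : (Set.range fun (τ : Fin q → ℝ) (j : Fin s) => pat f τ j).Finite := by
    refine (Set.Finite.pi' fun j : Fin s =>
      ((supp (f j)).powerset : Finset (Finset (Fin q × Fin p →₀ ℕ))).finite_toSet).subset ?_
    rintro _ ⟨τ, rfl⟩ j
    rw [Finset.mem_coe, Finset.mem_powerset]
    unfold pat
    exact Finset.filter_subset _ _
  have hh : (Set.range fun (τ : Fin q → ℝ) (j : Fin m') => pat h τ j).Finite := by
    refine (Set.Finite.pi' fun j : Fin m' =>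
      ((supp (h j)).powerset : Finset (Finset (Fin q × Fin p →₀ ℕ))).finite_toSet).subset ?_
    rintro _ ⟨τ, rfl⟩ j
    rw [Finset.mem_coe, Finset.mem_powerset]
    unfold pat
    exact Finset.filter_subset _ _
  have hfin : (Set.range fun (τ : Fin q → ℝ) =>
      ((fun j => pat f τ j, fun j => pat h τ j) : (Fin s → Finset (Fin q × Fin p →₀ ℕ)) ×
        (Fin m' → Finset (Fin q × Fin p →₀ ℕ)))).Finite := by
    refine (hf.prod hh).subset ?_
    rintro _ ⟨τ, rfl⟩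
    exact ⟨⟨τ, rfl⟩, ⟨τ, rfl⟩⟩
  set S := Set.range fun (τ : Fin q → ℝ) =>
      ((fun j => pat f τ j, fun j => pat h τ j) : (Fin s → Finset (Fin q × Fin p →₀ ℕ)) ×
        (Fin m' → Finset (Fin q × Fin p →₀ ℕ))) with hS
  have : Fintype S := hfin.fintype
  set eqv := Fintype.equivFin S with heqv
  have h1 : ∀ z : S, ∃ τ, ((fun j => pat f τ j, fun j => pat h τ j) :
      (Fin s → Finset (Fin q × Fin p →₀ ℕ)) × (Fin m' → Finset (Fin q × Fin p →₀ ℕ))) = z.1 :=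
    fun z => z.2
  choose rep hrep using h1
  refine ⟨Fintype.card S, fun κ => rep (eqv.symm κ), fun τ => ?_⟩
  obtain ⟨z, hz⟩ : ∃ z : S, z.1 = (fun j => pat f τ j, fun j => pat h τ j) :=
    ⟨⟨_, ⟨τ, rfl⟩⟩, rfl⟩
  have h2 := hrep (eqv.symm (eqv z))
  have h3 : eqv.symm (eqv z) = z := Equiv.symm_apply_apply _ _
  rw [h3, hz] at h2
  obtain ⟨h4, h5⟩ := Prod.mk.inj h2
  refine ⟨eqv z, fun j => ?_, fun j => ?_⟩
  · show _ = pat f (rep (eqv.symm (eqv z))) j
    rw [h3]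
    exact (congrFun h4 j).symm
  · show _ = pat h (rep (eqv.symm (eqv z))) j
    rw [h3]
    exact (congrFun h5 j).symm

theorem P_picksC [Infinite K] {t D d : ℕ} (hd : 0 < d) {DH dH : Fin m → ℕ}
    {H : Fin m → Pol K N q p n} (hH : ∀ i, BG T (DH i) (dH i) (H i)) (hg : Good T H t)
    (f : Fin s → Fin w → Pol K N q p n) (hf : ∀ j l, BG T D d (f j l)) {L : Type u} [Field L]
    [IsAlgClosed L] [Algebra K L] (P₀ : A.Pts L) (y₀ : Fin q × Fin p → L) (h₀ : GenB T P₀ y₀) :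
    ∃ (e D' : ℕ) (Q Q₀ : Fin e → Fin t → Pol K N q p n) (τs : Fin e → Fin q → ℝ),
      (∀ a i, BG T D' d (Q a i)) ∧ (∀ a i, BG T D' d (Q₀ a i)) ∧
      (∀ a, ∀ X : Fin n → L, (∀ f ∈ fbG P₀ y₀ (ldH (τs a) H), eval X f = 0) →
        (∀ i, eval X (spG P₀ y₀ (Q₀ a i)) = 0) → X = 0) ∧
      ∀ v : AbsoluteValue K ℝ, ∃ C : ℝ, 0 ≤ C ∧ ∀ (P : A.Pts K) (y : Fin q × Fin p → K),
        T.On P y → ∀ X : Fin n → K, X ≠ 0 → ∀ V : Fin t → Option (Finset (Fin s)),
        (∀ (i : Fin t) U, V i = some U →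
          CodA (fbG P₀ y₀ (ldH (T.tau v P y) H)) t (spG P₀ y₀ '' cutB f (T.tau v P y) U)
            (i + 1)) →
        ∃ a, Mat H Q Q₀ τs (T.tau v P y) a ∧
          ∀ (i : Fin t) U, V i = some U → eval X (spG P y (Q a i)) ≠ 0 →
            ∃ j ∈ U, (∃ l, eval X (spG P y (f j l)) ≠ 0) ∧
              lamB T v D d (f j) P y X ≤ lam1 T v D' d (Q a i) P y X + C := by
  classical
  obtain ⟨a, ha⟩ := A.exists_x_ne P₀
  choose ch hch using fun i => (h₀.2.1 i).1
  obtain ⟨e₁, τs, hτs⟩ := pat_repsC f (fun (i : Fin m) (_ : Fin 1) => H i)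
  have hldH : ∀ {τ τ' : Fin q → ℝ}, (∀ i, pat (fun (i : Fin m) (_ : Fin 1) => H i) τ i =
      pat (fun (i : Fin m) (_ : Fin 1) => H i) τ' i) → ∀ i, ld τ (H i) = ld τ' (H i) :=
    fun h i => pat_lead (h i) 0
  set Mx : Fin q → ℕ := fun i => ∑ j, ∑ μ ∈ supp (f j), ∑ c, μ (i, c) with hMxdef
  have hMx : ∀ j, ∀ μ ∈ supp (f j), ∀ i, ∑ c, μ (i, c) ≤ Mx i := by
    intro j μ hμ i
    exact (Finset.single_le_sum (f := fun μ : Fin q × Fin p →₀ ℕ => ∑ c, μ (i, c))
      (fun _ _ => Nat.zero_le _) hμ).trans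
      (Finset.single_le_sum (f := fun j => ∑ μ ∈ supp (f j), ∑ c, μ (i, c))
        (fun _ _ => Nat.zero_le _) (Finset.mem_univ j))
  -- the index set
  set Idx := Fin e₁ × (Fin t → Option (Finset (Fin s))) with hIdx
  set adm : Idx → Prop := fun z => ∀ (i : Fin t) U, z.2 i = some U →
    CodA (fbG P₀ y₀ (ldH (τs z.1) H)) t (spG P₀ y₀ '' cutB f (τs z.1) U) (i + 1) with hadm
  set Vr : Idx → Fin t → Option (Finset (Fin s)) := fun z => if adm z then z.2 else fun _ => none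
    with hVr
  have hVadm : ∀ z, ∀ (i : Fin t) U, Vr z i = some U →
      CodA (fbG P₀ y₀ (ldH (τs z.1) H)) t (spG P₀ y₀ '' cutB f (τs z.1) U) (i + 1) := by
    intro z i U hU
    simp only [hVr] at hU
    by_cases h : adm z
    · rw [if_pos h] at hU
      exact h i U hU
    · rw [if_neg h] at hU
      exact absurd hU (by simp)
  have hgr : ∀ τ : Fin q → ℝ, ∀ f ∈ fbG P₀ y₀ (ldH τ H), ∀ k,
      homogeneousComponent k f ∈ fbG P₀ y₀ (ldH τ H) := fun τ =>
    fbG_gr T (H := ldH τ H) (fun i => BG_partWt (hH i) _ _) P₀ y₀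
  have h1 := fun z : Idx => P_one T hd f hf P₀ y₀ h₀ (fbG P₀ y₀ (ldH (τs z.1) H))
    (hg (τs z.1) L P₀ y₀ h₀).1 (hgr _) (hg (τs z.1) L P₀ y₀ h₀).2 a ha ch hch Mx hMx (τs z.1)
    (Vr z) (hVadm z)
  choose Q Q₀ hQ hQ₀ hno hld hloc using h1
  choose C hC0 hC using hloc
  set eqv := Fintype.equivFin Idx with heqv
  refine ⟨Fintype.card Idx, D + ∑ i, T.k i * Mx i, fun b => Q (eqv.symm b),
    fun b => Q₀ (eqv.symm b), fun b => τs (eqv.symm b).1, fun b i => hQ _ i,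
    fun b i => hQ₀ _ i, fun b => hno _,
    fun v => ⟨∑ z, C z v, Finset.sum_nonneg fun z _ => hC0 z v, ?_⟩⟩
  intro P y hy X hX V hV
  obtain ⟨κ, hκ, hκ'⟩ := hτs (T.tau v P y)
  have hH' : ldH (T.tau v P y) H = ldH (τs κ) H := funext fun i => hldH hκ' i
  set z : Idx := (κ, V) with hz
  have hza : adm z := by
    intro i U hU
    have h2 := hV i U hU
    rw [cutB_eq hκ, hH'] at h2
    exact h2
  have hVz : Vr z = V := by
    simp only [hVr]
    rw [if_pos hza]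
  refine ⟨eqv z, ⟨?_, ?_⟩, ?_⟩
  · simp only [Equiv.symm_apply_apply]
    exact hldH hκ'
  · simp only [Equiv.symm_apply_apply]
    exact hld z _ hκ
  · simp only [Equiv.symm_apply_apply]
    intro i U hU hne
    obtain ⟨j, hj, h2, h3⟩ := hC z v P y hy hκ X hX i U (by rw [hVz]; exact hU) hne
    refine ⟨j, hj, h2, h3.trans ?_⟩
    have h4 : C z v ≤ ∑ z, C z v :=
      Finset.single_le_sum (f := fun z => C z v) (fun z _ => hC0 z v) (Finset.mem_univ z)
    linarith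

end

end Pool.Agent.Lib.MP_17a322_nt.VC
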