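import Pool.Agent.Lib.MP_17a322_nt.VC.Defs
import Pool.Agent.Lib.MP_17a322_nt.EG.P1

/-!
Families over principal torus bundles over `A`: empty intersections.
-/

universe u

namespace Pool.Agent.Lib.MP_17a322_nt.VC

open MvPolynomial Height
open Pool.Agent.Lib.MP_17a322_nt.VA
open Pool.Agent.Lib.MP_17a322_nt.SL
open Pool.Agent.Lib.MP_17a322_nt.EF (BH fib sp Mo mo ver cf Y4_trdeg exists_X_notMem)
open Pool.Agent.Lib.MP_17a322_nt.TB (Tor ev maxWt partWt wt supp)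
open Pool.Agent.Lib.MP_17a322_nt.EG
open Pool.Agent.Lib.MP_17a322_nt.VB (Pl)

section

variable {K : Type u} [Field K] {N q p n m s w : ℕ} {A : AV K N}

theorem P2_const {R : Type*} [CommRing R] (hw : 0 < w) (τ : Fin q → ℝ)
    (h : MvPolynomial (Fin q × Fin p) R) : maxWt τ (fun _ : Fin w => h) = EG.mx τ h := by
  have h1 : supp (fun _ : Fin w => h) = supp (fun _ : Fin 1 => h) := by
    ext ν
    rw [mem_supp, mem_supp]
    exact ⟨fun ⟨_, h⟩ => ⟨0, h⟩, fun ⟨_, h⟩ => ⟨⟨0, hw⟩, h⟩⟩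
  unfold EG.mx maxWt
  rw [h1]

/-- A multiple of the polynomial `h`. -/
noncomputable def P2g (a : Fin (N + 1)) (e e' : ℕ) (l : Fin n) (h : Pol K N q p n) :
    Pol K N q p n :=
  C (C (X a ^ e) * ∏ l', X l' ^ (Pi.single l e' : Fin n → ℕ) l') * h

theorem P2g_BG {T : Tor A q p} {D d : ℕ} {h : Pol K N q p n} (hh : BG T D d h)
    (a : Fin (N + 1)) {e e' D' d' : ℕ} (hD : e + D = D') (hd : e' + d = d') (l : Fin n) :
    BG T D' d' (P2g a e e' l h) := by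
  have h1 := BG_mul (BG_C T (LamG_coef_BH (K := K) (N := N) a e (Pi.single l e' : Fin n → ℕ))) hh
  have h2 : ∑ l', (Pi.single l e' : Fin n → ℕ) l' = e' := by
    rw [Finset.sum_pi_single' l e' Finset.univ, if_pos (Finset.mem_univ l)]
  rw [h2, hD, hd] at h1
  exact h1

theorem P2g_ld (τ : Fin q → ℝ) (a : Fin (N + 1)) (e e' : ℕ) (l : Fin n) (h : Pol K N q p n) :
    ld τ (P2g a e e' l h) = P2g a e e' l (ld τ h) := by
  unfold P2g
  rw [ld_mul, ld_C]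

theorem P2g_sp {L : Type u} [Field L] [Algebra K L] (P : A.Pts L) (y : Fin q × Fin p → L)
    (a : Fin (N + 1)) (e e' : ℕ) (l : Fin n) (h : Pol K N q p n) :
    spG P y (P2g a e e' l h) = C (A.x P a ^ e) * X l ^ e' * spG P y h := by
  unfold P2g
  rw [spG_mul, spG_C]
  unfold EF.sp
  rw [map_mul, map_C, map_prod]
  simp only [map_pow, map_X]
  have h1 : (aeval (A.x P)).toRingHom (X a : MvPolynomial (Fin (N + 1)) K) = A.x P a := by
    rw [AlgHom.toRingHom_eq_coe, RingHom.coe_coe, aeval_X]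
  have h2 : ∏ l', (X l' : MvPolynomial (Fin n) L) ^ (Pi.single l e' : Fin n → ℕ) l' = X l ^ e' := by
    rw [Finset.prod_eq_single l]
    · rw [Pi.single_eq_same]
    · intro l' _ hl'
      rw [Pi.single_eq_of_ne hl', pow_zero]
    · intro h
      exact absurd (Finset.mem_univ l) h
  rw [h1, h2]

/-- The family with the multiples of the equations. -/
noncomputable def P2f (a : Fin (N + 1)) (D d : ℕ) (DH dH : Fin m → ℕ) (H : Fin m → Pol K N q p n)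
    (f : Fin s → Fin w → Pol K N q p n) :
    Fin s ⊕ (Fin m × Fin n) → Fin w → Pol K N q p n :=
  Sum.elim f fun z _ => P2g a (D - DH z.1) (d - dH z.1) z.2 (H z.1)

theorem P2f_BG {T : Tor A q p} {D d : ℕ} {DH dH : Fin m → ℕ} {H : Fin m → Pol K N q p n}
    (hH : ∀ i, BG T (DH i) (dH i) (H i)) (hDH : ∀ i, DH i ≤ D) (hdH : ∀ i, dH i ≤ d)
    {f : Fin s → Fin w → Pol K N q p n} (hf : ∀ j l, BG T D d (f j l)) (a : Fin (N + 1))
    (z : Fin s ⊕ (Fin m × Fin n)) (l : Fin w) : BG T D d (P2f a D d DH dH H f z l) := by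
  rcases z with j | z
  · exact hf j l
  · exact P2g_BG (hH z.1) a (Nat.sub_add_cancel (hDH z.1)) (Nat.sub_add_cancel (hdH z.1)) z.2

/-- A prime ideal that contains the leading parts of the multiples of the equations. -/
theorem P2_trdeg {L : Type u} [Field L] [Algebra K L] {P₀ : A.Pts L} {y₀ : Fin q × Fin p → L}
    {a : Fin (N + 1)} (ha : A.x P₀ a ≠ 0) {D d t : ℕ} {DH dH : Fin m → ℕ}
    {H : Fin m → Pol K N q p n} {G : Set (Pol K N q p n)} {τ : Fin q → ℝ}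
    (hG : CodA (fbG P₀ y₀ (ldH τ H)) t (spG P₀ y₀ '' G) t) {𝔭 : Ideal (MvPolynomial (Fin n) L)}
    (hp : 𝔭.IsPrime) (h1 : ∀ g ∈ G, spG P₀ y₀ g ∈ 𝔭)
    (h2 : ∀ (i : Fin m) (l : Fin n), spG P₀ y₀ (P2g a (D - DH i) (d - dH i) l (ld τ (H i))) ∈ 𝔭) :
    Algebra.trdeg L (MvPolynomial (Fin n) L ⧸ 𝔭) = 0 := by
  by_cases hall : ∀ i, spG P₀ y₀ (ld τ (H i)) ∈ 𝔭
  · have h5 := hG 𝔭 hp (by
      unfold fbG ldH
      rw [Ideal.span_le]
      rintro _ ⟨i, rfl⟩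
      exact hall i) (by
      rintro _ ⟨g, hg, rfl⟩
      exact h1 g hg)
    obtain ⟨k, hk⟩ : ∃ k : ℕ, Algebra.trdeg L (MvPolynomial (Fin n) L ⧸ 𝔭) = k := by
      have h6 : Algebra.trdeg L (MvPolynomial (Fin n) L ⧸ 𝔭) < Cardinal.aleph0 :=
        lt_of_le_of_lt (le_trans le_self_add h5) (Cardinal.natCast_lt_aleph0 (n := t))
      exact Cardinal.lt_aleph0.1 h6
    rw [hk] at h5 ⊢
    have h6 : k + t ≤ t := by exact_mod_cast h5
    have h7 : k = 0 := by omega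
    rw [h7, Nat.cast_zero]
  · push Not at hall
    obtain ⟨i, hi⟩ := hall
    refine Y4_trdeg 𝔭 hp fun l => ?_
    have h5 := h2 i l
    rw [P2g_sp] at h5
    have h7 := (hp.mem_or_mem h5).resolve_right hi
    rcases hp.mem_or_mem h7 with h8 | h8
    · exfalso
      apply hp.ne_top
      rw [Ideal.eq_top_iff_one]
      have h9 := 𝔭.mul_mem_left (C ((A.x P₀ a ^ (D - DH i))⁻¹)) h8
      rwa [← C_mul, inv_mul_cancel₀ (pow_ne_zero _ ha), C_1] at h9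
    · exact hp.mem_of_pow_mem _ h8

theorem P2_cod {L : Type u} [Field L] [Algebra K L] {P₀ : A.Pts L} {y₀ : Fin q × Fin p → L}
    {a : Fin (N + 1)} (ha : A.x P₀ a ≠ 0) {D d t : ℕ} {DH dH : Fin m → ℕ}
    {H : Fin m → Pol K N q p n} {f : Fin s → Fin w → Pol K N q p n} (hw : 0 < w) {τ : Fin q → ℝ}
    {U : Finset (Fin s)}
    (hG : CodA (fbG P₀ y₀ (ldH τ H)) t (spG P₀ y₀ '' cutB f τ U) t) {s' : ℕ}
    (σ : (Fin s ⊕ (Fin m × Fin n)) ≃ Fin s') {U' : Finset (Fin s')}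
    (hl : ∀ j ∈ U, σ (Sum.inl j) ∈ U') (hr : ∀ z, σ (Sum.inr z) ∈ U')
    (I : Ideal (MvPolynomial (Fin n) L)) :
    CodA I n (spG P₀ y₀ '' cutB (fun j => P2f a D d DH dH H f (σ.symm j)) τ U') n := by
  intro 𝔭 hp _ hg
  rw [P2_trdeg (D := D) (d := d) (DH := DH) (dH := dH) ha hG hp, zero_add]
  · rintro _ ⟨j, hj, l, rfl⟩
    refine hg _ ⟨_, ⟨σ (Sum.inl j), hl j hj, l, rfl⟩, ?_⟩
    simp only [Equiv.symm_apply_apply]
    rfl
  · intro i l
    refine hg _ ⟨_, ⟨σ (Sum.inr (i, l)), hr (i, l), ⟨0, hw⟩, rfl⟩, ?_⟩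
    simp only [Equiv.symm_apply_apply]
    show spG P₀ y₀ (partWt τ (maxWt τ fun _ : Fin w => P2g a (D - DH i) (d - dH i) l (H i))
      (P2g a (D - DH i) (d - dH i) l (H i))) = _
    rw [P2_const hw, ← P2g_ld]
    rfl

theorem P2_bot {L : Type u} [Field L] [Algebra K L] (P₀ : A.Pts L)
    (H₀ : Fin 0 → MvPolynomial (Fin n) (MvPolynomial (Fin (N + 1)) K)) :
    (fib A H₀ P₀).IsPrime ∧ Algebra.trdeg L (MvPolynomial (Fin n) L ⧸ fib A H₀ P₀) = n := by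
  have hbot : fib A H₀ P₀ = ⊥ := by
    unfold fib
    rw [Set.range_eq_empty, Ideal.span_empty]
  rw [hbot]
  refine ⟨Ideal.isPrime_bot, ?_⟩
  rw [(AlgEquiv.quotientBot L (MvPolynomial (Fin n) L)).trdeg_eq,
    MvPolynomial.trdeg_of_isDomain, Cardinal.mk_fin, Cardinal.lift_natCast]

variable (T : Tor A q p)

/-- Empty intersections: one list of resultants. -/
theorem R_lowC {t D d : ℕ} (ht : 0 < t) (hd : 0 < d) {DH dH : Fin m → ℕ}
    {H : Fin m → Pol K N q p n} (hH : ∀ i, BG T (DH i) (dH i) (H i)) (hDH : ∀ i, DH i ≤ D)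
    (hdH : ∀ i, dH i ≤ d) (hg : Good T H t) (f : Fin s → Fin w → Pol K N q p n)
    (hf : ∀ j l, BG T D d (f j l)) {L : Type u} [Field L] [IsAlgClosed L] [Algebra K L]
    (P₀ : A.Pts L) (y₀ : Fin q × Fin p → L) (h₀ : GenB T P₀ y₀) :
    ∃ (e : ℕ) (R : Fin e → Pl K N q p) (ρ : Fin e → ℕ), (∀ c, T.WH (ρ c) (R c)) ∧
      (∀ c, T.NZ (R c)) ∧
      ∀ (v : AbsoluteValue K ℝ), ∃ C : ℝ, 0 ≤ C ∧ ∀ (P : A.Pts K) (y : Fin q × Fin p → K),
        T.On P y → ∀ X : Fin n → K, X ≠ 0 → (∀ i, eval X (spG P y (H i)) = 0) →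
        (∀ c, ev P y (R c) ≠ 0) →
        ∀ U, CodA (fbG P₀ y₀ (ldH (T.tau v P y) H)) t
            (spG P₀ y₀ '' cutB f (T.tau v P y) U) t →
          ∃ c, ∃ j ∈ U, lamB T v D d (f j) P y X ≤
            T.lam v (ρ c) (fun _ : Fin 1 => R c) P y (fun _ => 1) + C := by
  classical
  rcases Nat.eq_zero_or_pos w with hw | hw
  · subst hw
    refine ⟨0, Fin.elim0, Fin.elim0, fun c => c.elim0, fun c => c.elim0,
      fun v => ⟨0, le_rfl, ?_⟩⟩
    intro P y _ X _ _ _ U hU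
    exfalso
    obtain ⟨h1, h2⟩ := hg (T.tau v P y) L P₀ y₀ h₀
    have h3 : spG P₀ y₀ '' cutB f (T.tau v P y) U = ∅ := by
      rw [Set.image_eq_empty, Set.eq_empty_iff_forall_notMem]
      rintro g ⟨j, _, l, _⟩
      exact l.elim0
    rw [h3] at hU
    exact CodA_empty h1 h2 ht hU
  have hn : 0 < n := by
    obtain ⟨h1, h2⟩ := hg 0 L P₀ y₀ h₀
    have := h1
    obtain ⟨l, -⟩ := exists_X_notMem (fbG P₀ y₀ (ldH 0 H)) ht h2
    exact Fin.pos l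
  obtain ⟨a, ha⟩ : ∃ a, A.x P₀ a ≠ 0 := A.exists_x_ne P₀
  obtain ⟨s', ⟨σ⟩⟩ : ∃ s' : ℕ, Nonempty ((Fin s ⊕ (Fin m × Fin n)) ≃ Fin s') :=
    ⟨_, ⟨Fintype.equivFin _⟩⟩
  obtain ⟨f', hf'⟩ : ∃ f' : Fin s' → Fin w → Pol K N q p n,
      f' = fun j => P2f a D d DH dH H f (σ.symm j) := ⟨_, rfl⟩
  have hf'B : ∀ j l, BG T D d (f' j l) := by
    rw [hf']
    exact fun j l => P2f_BG hH hDH hdH hf a (σ.symm j) l
  obtain ⟨H₀, -⟩ : ∃ H₀ : Fin 0 → MvPolynomial (Fin n) (MvPolynomial (Fin (N + 1)) K), True :=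
    ⟨Fin.elim0, trivial⟩
  obtain ⟨hpr, htr⟩ := P2_bot P₀ H₀
  obtain ⟨e₁, τs, hτs⟩ := pat_reps f'
  set Idx := {z : Fin e₁ × Finset (Fin s') //
    CodA (fib A H₀ P₀) n (spG P₀ y₀ '' cutB f' (τs z.1) z.2) n} with hIdx
  have : Fintype Idx := Fintype.ofFinite _
  have h1 := fun z : Idx => R_oneG T hn hd H₀ (fun i => i.elim0) f' hf'B P₀ y₀ h₀ hpr htr
    (τs z.1.1) z.1.2 z.2
  choose R ρ hR hNZ hloc using h1
  choose C₁ hC0 hC using hloc
  set eqv := Fintype.equivFin Idx with heqv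
  refine ⟨Fintype.card Idx, fun b => R (eqv.symm b), fun b => ρ (eqv.symm b), fun b => hR _,
    fun b => hNZ _, fun v => ⟨∑ z, C₁ z v, Finset.sum_nonneg fun z _ => hC0 z v, ?_⟩⟩
  intro P y hy X₁ hX hHX hne U hU
  obtain ⟨U', hU'⟩ : ∃ U' : Finset (Fin s'), U' = Finset.univ.filter fun j =>
    ∀ j₀, σ.symm j = Sum.inl j₀ → j₀ ∈ U := ⟨_, rfl⟩
  have hmem : ∀ j, j ∈ U' ↔ ∀ j₀, σ.symm j = Sum.inl j₀ → j₀ ∈ U := fun j => by
    rw [hU', Finset.mem_filter]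
    exact ⟨fun h => h.2, fun h => ⟨Finset.mem_univ _, h⟩⟩
  have hcod := P2_cod (D := D) (d := d) (DH := DH) (dH := dH) (H := H) ha hw hU σ (U' := U')
    (fun j₀ hj₀ => (hmem _).2 fun j₁ h2 => by
      rw [Equiv.symm_apply_apply] at h2
      rw [← Sum.inl.inj h2]
      exact hj₀)
    (fun z => (hmem _).2 fun j₁ h2 => by
      rw [Equiv.symm_apply_apply] at h2
      exact absurd h2 (by simp)) (fib A H₀ P₀)
  rw [← hf'] at hcod
  obtain ⟨κ, hκ⟩ := hτs (T.tau v P y)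
  rw [cutB_eq hκ] at hcod
  set z : Idx := ⟨(κ, U'), hcod⟩ with hz
  have h2 : ev P y (R z) ≠ 0 := by
    have h3 := hne (eqv z)
    simp only [Equiv.symm_apply_apply] at h3
    exact h3
  obtain ⟨j, hj, ⟨l, hl⟩, h3⟩ := hC z v P y hy (fun j _ l => pat_lead (hκ j) l) X₁ hX
    (fun i => i.elim0) h2
  obtain ⟨x, hx⟩ : ∃ x, x = σ.symm j := ⟨_, rfl⟩
  have hfj : f' j = P2f a D d DH dH H f x := by rw [hf', hx]
  rw [hfj] at hl h3
  rcases x with j₀ | x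
  · refine ⟨eqv z, j₀, (hmem j).1 hj j₀ hx.symm, ?_⟩
    simp only [Equiv.symm_apply_apply]
    have h4 : C₁ z v ≤ ∑ z, C₁ z v :=
      Finset.single_le_sum (f := fun z => C₁ z v) (fun z _ => hC0 z v) (Finset.mem_univ z)
    have h5 : P2f a D d DH dH H f (Sum.inl j₀) = f j₀ := rfl
    rw [h5] at h3
    linarith
  · exfalso
    apply hl
    have h5 : P2f a D d DH dH H f (Sum.inr x) l =
      P2g a (D - DH x.1) (d - dH x.1) x.2 (H x.1) := rfl
    rw [h5, P2g_sp, map_mul, hHX x.1, mul_zero]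

end

end Pool.Agent.Lib.MP_17a322_nt.VC
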