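import Pool.Agent.Lib.MP_17a322_nt.VC.E1
import Pool.Agent.Lib.MP_17a322_nt.VC.E3
import Pool.Agent.Lib.MP_17a322_nt.VC.Y2
import Pool.Agent.Lib.MP_17a322_nt.VC.U1
import Pool.Agent.Lib.MP_17a322_nt.EG.Z1

/-!
Families over principal torus bundles over `A`: the final theorem.
-/

universe u

namespace Pool.Agent.Lib.MP_17a322_nt.VC

open MvPolynomial Height
open Pool.Agent.Lib.MP_17a322_nt.VA
open Pool.Agent.Lib.MP_17a322_nt.SL
open Pool.Agent.Lib.MP_17a322_nt.EF (Mo mo ver cf fam fm rk part hSub wgt SS)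
open Pool.Agent.Lib.MP_17a322_nt.TB (Tor ev maxWt partWt wt supp)
open Pool.Agent.Lib.MP_17a322_nt.EG
open Pool.Agent.Lib.MP_17a322_nt.VB (Pl mnr InRow IndP IndV Rk ExcV hV)

section

variable {K : Type u} [Field K] {N q p n m s w : ℕ} {A : AV K N} (T : Tor A q p)

/-- The codimension does not change. -/
theorem Z1f_codimC {t : ℕ} (H : Fin m → Pol K N q p n)
    (f : Fin s → Fin w → Pol K N q p n) (e k : Fin s → ℕ) (hk : ∀ j, 0 < k j) (τ : Fin q → ℝ)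
    (U : Finset (Fin s)) {i : ℕ} (h : CodimG T H t τ (cutB f τ U) i) :
    CodimG T H t τ (cutB (fun j => Z1f (e j) (k j) (f j)) τ U) i := by
  intro L _ _ _ P y hP 𝔭 hp hfib hg
  refine h L P y hP 𝔭 hp hfib ?_
  rintro _ ⟨g, ⟨j, hj, l, rfl⟩, rfl⟩
  obtain ⟨b₀, hb₀⟩ := Function.ne_iff.1 (EF.Z2_x_ne A P)
  have h1 := hg _ ⟨_, ⟨j, hj, finProdFinEquiv (b₀, l), rfl⟩, rfl⟩
  rw [Z1f_maxWt _ (hk j), (Z1f_lead (e j) (f j) τ _).2, Equiv.symm_apply_apply, Z1f_sp] at h1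
  have h2 : IsUnit (C (A.x P b₀ ^ e j) : MvPolynomial (Fin n) L) :=
    (IsUnit.mk0 _ (pow_ne_zero _ hb₀)).map C
  exact hp.mem_of_pow_mem _ ((Ideal.unit_mul_mem_iff_mem 𝔭 h2).1 h1)

end

section

variable {K : Type u} [Field K] [NumberField K] {N q p n m s w : ℕ} {A : AV K N} (T : Tor A q p)

/-- Arbitrary bidegrees. -/
theorem Z1_genC (Γ : AddSubgroup (A.Pts K)) (hΓ : Γ.FG) {t : ℕ} (ht : 0 < t)
    (H : Fin m → Pol K N q p n) (hH : ∀ i, ∃ a b : ℕ, BG T a b (H i)) (hg : Good T H t)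
    (D d : Fin s → ℕ) (hd : ∀ j, 0 < d j) (f : Fin s → Fin w → Pol K N q p n)
    (hf : ∀ j l, BG T (D j) (d j) (f j l)) (S : Finset (NumberField.FinitePlace K))
    (ci : NumberField.InfinitePlace K → Fin s → ℝ)
    (cf : NumberField.FinitePlace K → Fin s → ℝ) (hci0 : ∀ v j, 0 ≤ ci v j)
    (hcf0 : ∀ v j, 0 ≤ cf v j)
    (hci : ∀ v τ U, CodimG T H t τ (cutB f τ U) t ∨
      ∃ i : ℕ, CodimG T H t τ (cutB f τ U) i ∧ ∑ j ∈ U, ci v j ≤ i)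
    (hcf : ∀ v ∈ S, ∀ τ U, CodimG T H t τ (cutB f τ U) t ∨
      ∃ i : ℕ, CodimG T H t τ (cutB f τ U) i ∧ ∑ j ∈ U, cf v j ≤ i)
    (ε : ℝ) (hε : 0 < ε) :
    ∃ κ₀ : ℕ, ∀ κ ≥ κ₀, ∃ (C : ℝ) (F : Pol K N q p n), ExcG T H F ∧
      ∀ P ∈ Γ, ∀ y : Fin q × Fin p → K, T.On P y → ∀ X : Fin n → K, X ≠ 0 →
        (∀ i, eval X (spG P y (H i)) = 0) → eval X (spG P y F) ≠ 0 →
        (∀ j, (∃ v, ci v j ≠ 0) ∨ (∃ v ∈ S, cf v j ≠ 0) →
          ∃ l, eval X (spG P y (f j l)) ≠ 0) ∧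
        (∑ v : NumberField.InfinitePlace K, (v.mult : ℝ) *
            (∑ j, ci v j * (1 / (d j : ℝ) * lamB T v.val (D j) (d j) (f j) P y X))) +
          (∑ v ∈ S, (∑ j, cf v j * (1 / (d j : ℝ) * lamB T v.val (D j) (d j) (f j) P y X))) +
          muI t (fbG P y H) κ ≤
          t * logHeight X + ε * (logHeight X + logHeight (A.x P) + ∑ i, T.ht P y i) +
            C * (1 + T.NS S P y) := by
  classical
  choose DH dH hBH using hH
  obtain ⟨dd, hdd⟩ : ∃ dd, dd = (∏ j, d j) * (1 + ∑ i, dH i) := ⟨_, rfl⟩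
  have hprod : 0 < ∏ j, d j := Finset.prod_pos fun j _ => hd j
  have hdd0 : 0 < dd := by
    rw [hdd]
    exact Nat.mul_pos hprod (by omega)
  have hdHdd : ∀ i, dH i ≤ dd := by
    intro i
    have h1 : dH i ≤ ∑ i, dH i :=
      Finset.single_le_sum (f := dH) (fun _ _ => Nat.zero_le _) (Finset.mem_univ i)
    have h2 : 1 + ∑ i, dH i ≤ dd := by
      rw [hdd]
      exact Nat.le_mul_of_pos_left _ hprod
    omega
  have hdvd : ∀ j, ∃ k, 0 < k ∧ k * d j = dd := by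
    intro j
    obtain ⟨k, hk⟩ : d j ∣ dd := by
      rw [hdd]
      exact (Finset.dvd_prod_of_mem _ (Finset.mem_univ j)).mul_right _
    refine ⟨k, ?_, by rw [hk, mul_comm]⟩
    rcases Nat.eq_zero_or_pos k with h | h
    · rw [h, mul_zero] at hk
      omega
    · exact h
  choose k hk0 hk using hdvd
  obtain ⟨DD, hDD⟩ : ∃ DD, DD = (∑ j, k j * D j) + ∑ i, DH i := ⟨_, rfl⟩
  have hDHDD : ∀ i, DH i ≤ DD := by
    intro i
    have h1 : DH i ≤ ∑ i, DH i :=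
      Finset.single_le_sum (f := DH) (fun _ _ => Nat.zero_le _) (Finset.mem_univ i)
    omega
  have hDDj : ∀ j, ∃ e, e + k j * D j = DD := by
    intro j
    have h1 : k j * D j ≤ ∑ j, k j * D j :=
      Finset.single_le_sum (f := fun j => k j * D j) (fun _ _ => Nat.zero_le _)
        (Finset.mem_univ j)
    exact ⟨DD - k j * D j, by omega⟩
  choose e he using hDDj
  have hBG : ∀ j i, BG T DD dd (Z1f (e j) (k j) (f j) i) := by
    intro j i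
    have h1 := Z1f_BG T (e := e j) (k := k j) (hf j) i
    rw [he, hk] at h1
    exact h1
  obtain ⟨κ₀, hκ₀⟩ := Y_genC T Γ hΓ ht hdd0 H hBH hDHDD hdHdd hg
    (fun j => Z1f (e j) (k j) (f j)) hBG S ci cf hci0 hcf0
    (fun v τ U => (hci v τ U).imp (fun h => Z1f_codimC T H f e k hk0 τ U h)
      fun ⟨i, h1, h2⟩ => ⟨i, Z1f_codimC T H f e k hk0 τ U h1, h2⟩)
    (fun v hv τ U => (hcf v hv τ U).imp (fun h => Z1f_codimC T H f e k hk0 τ U h)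
      fun ⟨i, h1, h2⟩ => ⟨i, Z1f_codimC T H f e k hk0 τ U h1, h2⟩)
    (fun k P y => muI t (fbG P y H) k) (fun k P y => muI_nonneg t (fbG P y H) k)
    (fun k g' r' G' hG' hgr => U_rowsM T hBH k g' r' G' hG' hgr) ε hε
  refine ⟨κ₀, fun κ hκ => ?_⟩
  obtain ⟨C₀, F₀, hF₀, hmain⟩ := hκ₀ κ hκ
  refine ⟨C₀, F₀, hF₀, fun P hP y hy Y hY hHY hF => ?_⟩
  obtain ⟨h1, h2⟩ := hmain P hP y hy Y hY hHY hF
  have h3 : ∀ j, (∃ v, ci v j ≠ 0) ∨ (∃ v ∈ S, cf v j ≠ 0) →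
      ∃ l, eval Y (spG P y (f j l)) ≠ 0 := by
    intro j hj
    obtain ⟨i, hi⟩ := h1 j hj
    unfold Z1f at hi
    rw [Z1f_sp, map_mul, map_pow (eval Y)] at hi
    refine ⟨(finProdFinEquiv.symm i).2, fun h0 => hi ?_⟩
    rw [h0, zero_pow (hk0 j).ne', mul_zero]
  refine ⟨h3, le_of_eq_of_le ?_ h2⟩
  have hloc : ∀ (v : AbsoluteValue K ℝ) (j : Fin s) (c : ℝ),
      (c ≠ 0 → ∃ l, eval Y (spG P y (f j l)) ≠ 0) →
      c * (1 / (d j : ℝ) * lamB T v (D j) (d j) (f j) P y Y) =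
        c * (1 / (dd : ℝ) * lamB T v DD dd (Z1f (e j) (k j) (f j)) P y Y) := by
    intro v j c hc
    by_cases h0 : c = 0
    · rw [h0, zero_mul, zero_mul]
    · have h4 := Z1f_lam T v (k j) (e j) (hd j) (hk0 j) (f j) P y Y (hc h0) (D := D j)
      rw [he, hk] at h4
      rw [h4]
  have hi : ∑ v : NumberField.InfinitePlace K, (v.mult : ℝ) *
      ∑ j, ci v j * (1 / (d j : ℝ) * lamB T v.val (D j) (d j) (f j) P y Y) =
      ∑ v : NumberField.InfinitePlace K, (v.mult : ℝ) *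
        ∑ j, ci v j * (1 / (dd : ℝ) * lamB T v.val DD dd (Z1f (e j) (k j) (f j)) P y Y) := by
    refine Finset.sum_congr rfl fun v _ => ?_
    rw [Finset.sum_congr rfl fun j _ => hloc v.val j (ci v j) fun h => h3 j (Or.inl ⟨v, h⟩)]
  have hf' : ∑ v ∈ S, ∑ j, cf v j * (1 / (d j : ℝ) * lamB T v.val (D j) (d j) (f j) P y Y) =
      ∑ v ∈ S, ∑ j, cf v j *
        (1 / (dd : ℝ) * lamB T v.val DD dd (Z1f (e j) (k j) (f j)) P y Y) := by
    refine Finset.sum_congr rfl fun v hv => ?_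
    exact Finset.sum_congr rfl fun j _ => hloc v.val j (cf v j) fun h => h3 j (Or.inr ⟨v, hv, h⟩)
  unfold EF.SS
  rw [hi, hf']

/-- The final theorem for the bundles `Tor`. -/
theorem EFGC (Γ : AddSubgroup (A.Pts K)) (hΓ : Γ.FG) {t e : ℕ} (ht : 0 < t)
    (H : Fin m → Pol K N q p n) (hH : ∀ i, ∃ a b : ℕ, BG T a b (H i)) (hg : Good T H t)
    (D d : Fin s → ℕ) (hd : ∀ j, 0 < d j) (f : Fin s → Fin w → Pol K N q p n)
    (hf : ∀ j l, BG T (D j) (d j) (f j l)) (S : Finset (NumberField.FinitePlace K))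
    (ci : NumberField.InfinitePlace K → Fin s → ℝ)
    (cf : NumberField.FinitePlace K → Fin s → ℝ) (hci0 : ∀ v j, 0 ≤ ci v j)
    (hcf0 : ∀ v j, 0 ≤ cf v j)
    (hci : ∀ v τ U, CodimG T H t τ (cutB f τ U) t ∨
      ∃ i : ℕ, CodimG T H t τ (cutB f τ U) i ∧ ∑ j ∈ U, ci v j ≤ i)
    (hcf : ∀ v ∈ S, ∀ τ U, CodimG T H t τ (cutB f τ U) t ∨
      ∃ i : ℕ, CodimG T H t τ (cutB f τ U) i ∧ ∑ j ∈ U, cf v j ≤ i)
    (f₀ : Pl K N q p) (hf₀ : T.WH e f₀) (hf₀A : T.NZ f₀) (ε : ℝ) (hε : 0 < ε) :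
    ∃ κ₀ : ℕ, ∀ κ ≥ κ₀, ∃ (C : ℝ) (F : Pol K N q p n), ExcG T H F ∧
      ∀ P ∈ Γ, ∀ y : Fin q × Fin p → K, T.On P y → ∀ X : Fin n → K, X ≠ 0 →
        (∀ i, eval X (spG P y (H i)) = 0) → eval X (spG P y F) ≠ 0 →
        (∀ j, (∃ v, ci v j ≠ 0) ∨ (∃ v ∈ S, cf v j ≠ 0) →
          ∃ l, eval X (spG P y (f j l)) ≠ 0) ∧ ev P y f₀ ≠ 0 ∧
        (∑ v : NumberField.InfinitePlace K, (v.mult : ℝ) *
            ((∑ j, ci v j * (1 / (d j : ℝ) * lamB T v.val (D j) (d j) (f j) P y X)) +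
              T.lam v.val e (fun _ : Fin 1 => f₀) P y (fun _ => 1))) +
          (∑ v ∈ S, ((∑ j, cf v j * (1 / (d j : ℝ) * lamB T v.val (D j) (d j) (f j) P y X)) +
              T.lam v.val e (fun _ : Fin 1 => f₀) P y (fun _ => 1))) +
          muI t (fbG P y H) κ ≤
          t * logHeight X + ε * (logHeight X + logHeight (A.x P) + ∑ i, T.ht P y i) +
            C * (1 + T.NS S P y) := by
  obtain ⟨κ₀, hκ₀⟩ := Z1_genC T Γ hΓ ht H hH hg D d hd f hf S ci cf hci0 hcf0 hci hcf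
    (ε / 2) (half_pos hε)
  refine ⟨κ₀, fun κ hκ => ?_⟩
  obtain ⟨C₁, F₁, hF₁, h1⟩ := hκ₀ κ hκ
  obtain ⟨C₂, F₂, hF₂, h2⟩ := N_vertC T Γ hΓ H hg f₀ hf₀ hf₀A S (ε / 2) (half_pos hε)
  refine ⟨C₁ + C₂, F₁ * F₂, ExcG_mul T hg hF₁ hF₂, ?_⟩
  intro P hP y hy Y hY hHY hF
  rw [spG_mul, map_mul] at hF
  obtain ⟨h3, h4⟩ := h1 P hP y hy Y hY hHY (left_ne_zero_of_mul hF)
  obtain ⟨h5, h6⟩ := h2 P hP y hy Y (right_ne_zero_of_mul hF)
  refine ⟨h3, h5, ?_⟩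
  have h7 : 0 ≤ logHeight Y := logHeight_nonneg _
  have h8 : (∑ v : NumberField.InfinitePlace K, (v.mult : ℝ) *
        ((∑ j, ci v j * (1 / (d j : ℝ) * lamB T v.val (D j) (d j) (f j) P y Y)) +
          T.lam v.val e (fun _ : Fin 1 => f₀) P y (fun _ => 1))) =
      (∑ v : NumberField.InfinitePlace K, (v.mult : ℝ) *
        (∑ j, ci v j * (1 / (d j : ℝ) * lamB T v.val (D j) (d j) (f j) P y Y))) +
      ∑ v : NumberField.InfinitePlace K, (v.mult : ℝ) *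
        T.lam v.val e (fun _ : Fin 1 => f₀) P y (fun _ => 1) := by
    rw [← Finset.sum_add_distrib]
    exact Finset.sum_congr rfl fun v _ => mul_add _ _ _
  rw [h8, Finset.sum_add_distrib]
  nlinarith

end

end Pool.Agent.Lib.MP_17a322_nt.VC
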