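import Pool.Agent.Lib.MP_17a322_nt.VC.BDefs
import Pool.Agent.Lib.MP_17a322_nt.VC.E1
import Pool.Agent.Lib.MP_17a322_nt.VC.Z1
import Pool.Agent.Lib.MP_17a322_nt.VC.K1
import Pool.Agent.Lib.MP_17a322_nt.VC.K2
import Pool.Agent.Lib.MP_17a322_nt.EG.K1
import Pool.Agent.Lib.MP_17a322_nt.EG.B1
import Pool.Agent.Lib.MP_17a322_nt.SV3.F1

/-!
Families over a bundle `Bun`: the final theorem.
-/

universe u

namespace Pool.Agent.Lib.MP_17a322_nt.VC

open MvPolynomial Height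
open Pool.Agent.Lib.MP_17a322_nt.VA
open Pool.Agent.Lib.MP_17a322_nt.SL
open Pool.Agent.Lib.MP_17a322_nt.TB (ev partWt maxWt)
open Pool.Agent.Lib.MP_17a322_nt.EG
open Pool.Agent.Lib.MP_17a322_nt.VB (Pl)
open Pool.Agent.Lib.MP_17a322_nt.SV3 (Bun)

section

variable {K : Type u} [Field K] {N q p p' n m s w : ℕ} {A : AV K N} (B : Bun A q p p')

/-- The ideal of the fibre is the same. -/
private theorem K3_fb (H : Fin m → Pol K N q p n) {L : Type u} [Field L] [Algebra K L]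
    {P : A.Pts L} {y : Fin q × Fin p → L} (hy : B.On P y) :
    fbG P y (redV B H) = fbG P y H := by
  have h0 : ∀ i, spG P y (redV B H i) = spG P y (H i) := fun i => redV_sp B H i hy
  unfold fbG
  simp only [h0]

/-- The local heights. -/
private theorem K3_lam {ch : Fin q → Fin p'} (h : B.Ch ch) (H : Fin m → Pol K N q p n)
    {L : Type u} [Field L] [Algebra K L] (v : AbsoluteValue L ℝ) (D d : ℕ)
    (f : Fin w → Pol K N q p n) (P : A.Pts L) (y : Fin q × Fin p → L) (X : Fin n → L)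
    (hf : ∀ l, eval X (spG P y (redF B H f l)) = eval X (spG P y (f l))) :
    lamB (B.tor ch h) v D d (redF B H f) P y X = lamF B H v D d f P y X := by
  unfold lamB lamF
  have h1 : (B.tor ch h).tau v P y = B.tau v P y := rfl
  rw [h1, redF_maxWt]
  simp only [hf]

/-- Forms in the coordinates of `A`. -/
private theorem K3_WH_C (T : TB.Tor A q p) {R : MvPolynomial (Fin (N + 1)) K} {ρ : ℕ}
    (hR : R.IsHomogeneous ρ) : T.WH ρ (C R : Pl K N q p) := by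
  classical
  intro μ hμ
  rw [coeff_C] at hμ ⊢
  by_cases h : 0 = μ
  · subst h
    rw [if_pos rfl]
    exact ⟨ρ, hR, by simp⟩
  · rw [if_neg h] at hμ
    exact absurd rfl hμ

private theorem K3_ev_C {L : Type u} [Field L] [Algebra K L] (P : A.Pts L)
    (y : Fin q × Fin p → L) (R : MvPolynomial (Fin (N + 1)) K) :
    ev P y (C R : Pl K N q p) = aeval (A.x P) R := by
  unfold TB.ev
  rw [map_C, eval_C]
  rfl

end

/-- The final theorem. -/
theorem VCB {K : Type u} [Field K] [NumberField K] {N q p p' n m s w : ℕ} {A : AV K N}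
    (B : Bun A q p p') (Γ : AddSubgroup (A.Pts K)) (hΓ : Γ.FG) {t e : ℕ} (ht : 0 < t)
    (H : Fin m → Pol K N q p n) (hH : ∀ i, ∃ a b : ℕ, BB B a b (H i)) (hg : GoodV B H t)
    (D d : Fin s → ℕ) (hd : ∀ j, 0 < d j)
    (f : Fin s → Fin w → Pol K N q p n) (hf : ∀ j l, BB B (D j) (d j) (f j l))
    (S : Finset (NumberField.FinitePlace K))
    (ci : NumberField.InfinitePlace K → Fin s → ℝ)
    (cf : NumberField.FinitePlace K → Fin s → ℝ) (hci0 : ∀ v j, 0 ≤ ci v j)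
    (hcf0 : ∀ v j, 0 ≤ cf v j)
    (hci : ∀ v τ U, CodimF B H t τ (cutF B H f τ U) t ∨
      ∃ i : ℕ, CodimF B H t τ (cutF B H f τ U) i ∧ ∑ j ∈ U, ci v j ≤ i)
    (hcf : ∀ v ∈ S, ∀ τ U, CodimF B H t τ (cutF B H f τ U) t ∨
      ∃ i : ℕ, CodimF B H t τ (cutF B H f τ U) i ∧ ∑ j ∈ U, cf v j ≤ i)
    (f₀ : Pl K N q p) (hf₀ : B.WH e f₀) (hf₀A : ¬ B.Van f₀) (ε : ℝ) (hε : 0 < ε) :
    ∃ κ₀ : ℕ, ∀ κ ≥ κ₀, ∃ (C : ℝ) (F : Pol K N q p n), ExcV B H F ∧
      ∀ P ∈ Γ, ∀ y : Fin q × Fin p → K, B.On P y → ∀ X : Fin n → K, X ≠ 0 →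
        (∀ i, eval X (spG P y (H i)) = 0) → eval X (spG P y F) ≠ 0 →
        (∀ j, (∃ v, ci v j ≠ 0) ∨ (∃ v ∈ S, cf v j ≠ 0) →
          ∃ l, eval X (spG P y (f j l)) ≠ 0) ∧ ev P y f₀ ≠ 0 ∧
        (∑ v : NumberField.InfinitePlace K, (v.mult : ℝ) *
            ((∑ j, ci v j * (1 / (d j : ℝ) * lamF B H v.val (D j) (d j) (f j) P y X)) +
              B.loc v.val e (fun _ : Fin 1 => f₀) P y)) +
          (∑ v ∈ S,
            ((∑ j, cf v j * (1 / (d j : ℝ) * lamF B H v.val (D j) (d j) (f j) P y X)) +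
              B.loc v.val e (fun _ : Fin 1 => f₀) P y)) +
          muI t (fbG P y H) κ ≤
          t * logHeight X + ε * (logHeight X + logHeight (A.x P) + ∑ i, B.ht P y i) +
            C * (1 + B.NS S P y) := by
  classical
  obtain ⟨ch, h⟩ := SV3.A_exists_ch B
  have hg' : Good (B.tor ch h) (redV B H) t := redV_good B h hg
  have hH' : ∀ i, ∃ a b : ℕ, BG (B.tor ch h) a b (redV B H i) := fun i => by
    obtain ⟨a, b, hab⟩ := hH i
    exact ⟨a, b, redV_BB B hab⟩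
  obtain ⟨κ₀, hκ₀⟩ := EFGC (B.tor ch h) Γ hΓ ht (redV B H) hH' hg' D d hd
    (fun j => redF B H (f j)) (fun j l => redF_BB B H (hf j) l) S ci cf hci0 hcf0
    (fun v τ U => (hci v τ U).imp (fun h1 => redF_codim B h ht hH hg hd hf τ U h1)
      fun ⟨i, h1, h2⟩ => ⟨i, redF_codim B h ht hH hg hd hf τ U h1, h2⟩)
    (fun v hv τ U => (hcf v hv τ U).imp (fun h1 => redF_codim B h ht hH hg hd hf τ U h1)
      fun ⟨i, h1, h2⟩ => ⟨i, redF_codim B h ht hH hg hd hf τ U h1, h2⟩)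
    (SV3.f1 B f₀) (SV3.F1_WH B hf₀) (SV3.F1_NZ B h hf₀ hf₀A) ε hε
  refine ⟨κ₀, fun κ hκ => ?_⟩
  obtain ⟨C₀, F₀, hF₀, hmain⟩ := hκ₀ κ hκ
  obtain ⟨R₁, ρ₁, hR₁, hR₁A, hch⟩ := K_chart B h
  choose R ρ hR hRA hval using fun j => redF_val B h hH (hf j)
  obtain ⟨F, hF⟩ : ∃ F : Pol K N q p n,
      F = F₀ * emb (C R₁ : Pl K N q p) * ∏ j, emb (R j) := ⟨_, rfl⟩
  have hFX : ExcG (B.tor ch h) (redV B H) F := by
    rw [hF]
    refine ExcG_mul _ hg' (ExcG_mul _ hg' hF₀ (ExcG_emb _ hg' (K3_WH_C _ hR₁) ?_)) ?_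
    · intro L _ _ _ P y hP h0
      rw [K3_ev_C] at h0
      exact hR₁A (hP.1 _ _ hR₁ h0)
    · refine Finset.prod_induction _ (ExcG (B.tor ch h) (redV B H))
        (fun _ _ h1 h2 => ExcG_mul _ hg' h1 h2) (ExcG_one _ hg') fun j _ =>
          ExcG_emb _ hg' (hR j) fun L _ _ _ P y hP => hRA j L P y ((K_gen B h P y).2 hP)
  refine ⟨C₀, F, ⟨hFX.1, fun L _ _ _ P y hP => ?_⟩, ?_⟩
  · have h1 := hFX.2 L P y ((K_gen B h P y).1 hP)
    rwa [K3_fb B H hP.2.1] at h1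
  intro P hP y hy X hX hHX hFe
  rw [hF, spG_mul, spG_mul, map_mul, map_mul, emb_sp, eval_C, K3_ev_C, spG_prod, map_prod] at hFe
  have h1 : aeval (A.x P) R₁ ≠ 0 := right_ne_zero_of_mul (left_ne_zero_of_mul hFe)
  have h2 : ∀ j, ev P y (R j) ≠ 0 := by
    intro j h3
    refine right_ne_zero_of_mul hFe (Finset.prod_eq_zero (Finset.mem_univ j) ?_)
    rw [emb_sp, eval_C]
    exact h3
  have hTy : (B.tor ch h).On P y := (K_on B h (hch K P h1) y).1 hy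
  have hv : ∀ j l, eval X (spG P y (redF B H (f j) l)) = eval X (spG P y (f j l)) :=
    fun j => hval j P y hTy hy (h2 j) X hHX
  obtain ⟨h3, h4, h5⟩ := hmain P hP y hTy X hX
    (fun i => by rw [redV_sp B H i hy]; exact hHX i)
    (left_ne_zero_of_mul (left_ne_zero_of_mul hFe))
  have h6 : ev P y (SV3.f1 B f₀) = ev P y f₀ := SV3.F1_ev B f₀ hy
  have h7 : ∀ (v : AbsoluteValue K ℝ) (j : Fin s),
      lamB (B.tor ch h) v (D j) (d j) (redF B H (f j)) P y X =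
        lamF B H v (D j) (d j) (f j) P y X :=
    fun v j => K3_lam B h H v (D j) (d j) (f j) P y X (hv j)
  have h8 : ∀ v : AbsoluteValue K ℝ,
      (B.tor ch h).lam v e (fun _ : Fin 1 => SV3.f1 B f₀) P y (fun _ => 1) =
        B.loc v e (fun _ : Fin 1 => f₀) P y := fun v => SV3.F1_lam B h v e f₀ hy
  refine ⟨fun j hj => ?_, h6 ▸ h4, ?_⟩
  · obtain ⟨l, hl⟩ := h3 j hj
    exact ⟨l, by rw [← hv j l]; exact hl⟩
  · simp only [h7, h8] at h5
    rw [K3_fb B H hy] at h5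
    exact h5

end Pool.Agent.Lib.MP_17a322_nt.VC
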