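import Pool.Agent.Lib.MP_17a322_nt.VC.K3
import Pool.Agent.Lib.MP_17a322_nt.SV3.Z1

/-!
Families over a bundle `Bun`: the theorem with closed subschemes of codimension two of the base.
-/

universe u

namespace Pool.Agent.Lib.MP_17a322_nt.VC

open MvPolynomial Height
open Pool.Agent.Lib.MP_17a322_nt.VA
open Pool.Agent.Lib.MP_17a322_nt.SL
open Pool.Agent.Lib.MP_17a322_nt.TB (ev partWt maxWt)
open Pool.Agent.Lib.MP_17a322_nt.EG
open Pool.Agent.Lib.MP_17a322_nt.VB (Pl)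
open Pool.Agent.Lib.MP_17a322_nt.SV3 (Bun)

section

variable {K : Type u} [Field K] {N q p p' n m : ℕ} {A : AV K N} (B : Bun A q p p')

private theorem L1_ev_one {L : Type u} [Field L] [Algebra K L] (P : A.Pts L)
    (y : Fin q × Fin p → L) : ev P y (1 : Pl K N q p) = 1 := by
  unfold TB.ev
  rw [map_one, map_one]

private theorem L1_WH_one : B.WH 0 (1 : Pl K N q p) := by
  classical
  intro μ hμ
  rw [coeff_one] at hμ ⊢
  by_cases h : 0 = μ
  · subst h
    rw [if_pos rfl]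
    exact ⟨0, isHomogeneous_one _ _, by simp⟩
  · rw [if_neg h] at hμ
    exact absurd rfl hμ

/-- The local heights for the polynomial `1` are zero. -/
private theorem L1_loc {L : Type u} [Field L] [Algebra K L] (v : AbsoluteValue L ℝ)
    (P : A.Pts L) (y : Fin q × Fin p → L) :
    B.loc v 0 (fun _ : Fin 1 => (1 : Pl K N q p)) P y = 0 := by
  classical
  unfold Bun.loc
  have h1 : (⨆ _ : Fin 1, v (ev P y (1 : Pl K N q p))) = 1 := by
    rw [ciSup_const, L1_ev_one, map_one]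
  have h2 : B.sup (fun _ : Fin 1 => (1 : Pl K N q p)) (B.tau v P y) = 0 := by
    unfold Bun.sup
    have h3 : ∀ a : B.New fun _ : Fin 1 => (1 : Pl K N q p),
        ∑ i, (a.1 i : ℝ) * B.tau v P y i = 0 := by
      rintro ⟨a, k, ha⟩
      have h4 : a = 0 := by
        by_contra hne
        apply ha
        intro L' _ _ P' y' _
        have h5 : SV3.pt a (1 : Pl K N q p) = 0 := by
          ext1 μ
          rw [SV3.F1_coeff_pt, coeff_zero]
          split_ifs with h6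
          · rw [coeff_one, if_neg]
            rintro rfl
            apply hne
            rw [← h6]
            funext i
            simp [SV3.md]
          · rfl
        rw [h5]
        show TB.ev P' y' (0 : Pl K N q p) = 0
        unfold TB.ev
        rw [map_zero, map_zero]
      subst h4
      simp
    simp only [h3]
    exact Real.iSup_const_zero
  have h6 : (⨆ k : Fin 1, v (SV3.ev P y ((fun _ : Fin 1 => (1 : Pl K N q p)) k))) = 1 := h1
  rw [h6, h2, Real.log_one]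
  simp

end

/-- The final theorem with closed subschemes of codimension two of the base. -/
theorem VCD {K : Type u} [Field K] [NumberField K] {N q p p' n m s w r : ℕ} {A : AV K N}
    (B : Bun A q p p') (Γ : AddSubgroup (A.Pts K)) (hΓ : Γ.FG) {t e E : ℕ} (ht : 0 < t)
    (H : Fin m → Pol K N q p n) (hH : ∀ i, ∃ a b : ℕ, BB B a b (H i)) (hg : GoodV B H t)
    (D d : Fin s → ℕ) (hd : ∀ j, 0 < d j)
    (f : Fin s → Fin w → Pol K N q p n) (hf : ∀ j l, BB B (D j) (d j) (f j l))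
    (S : Finset (NumberField.FinitePlace K))
    (ci : NumberField.InfinitePlace K → Fin s → ℝ)
    (cf : NumberField.FinitePlace K → Fin s → ℝ) (hci0 : ∀ v j, 0 ≤ ci v j)
    (hcf0 : ∀ v j, 0 ≤ cf v j)
    (hci : ∀ v τ U, CodimF B H t τ (cutF B H f τ U) t ∨
      ∃ i : ℕ, CodimF B H t τ (cutF B H f τ U) i ∧ ∑ j ∈ U, ci v j ≤ i)
    (hcf : ∀ v ∈ S, ∀ τ U, CodimF B H t τ (cutF B H f τ U) t ∨
      ∃ i : ℕ, CodimF B H t τ (cutF B H f τ U) i ∧ ∑ j ∈ U, cf v j ≤ i)
    (f₀ : Pl K N q p) (hf₀ : B.WH e f₀) (hf₀A : ¬ B.Van f₀)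
    (g : Fin r → Pl K N q p) (hgE : ∀ k, B.WH E (g k)) (hg2 : B.CodTwo g)
    (ε : ℝ) (hε : 0 < ε) :
    ∃ κ₀ : ℕ, ∀ κ ≥ κ₀, ∃ (C : ℝ) (F : Pol K N q p n), ExcV B H F ∧
      ∀ P ∈ Γ, ∀ y : Fin q × Fin p → K, B.On P y → ∀ X : Fin n → K, X ≠ 0 →
        (∀ i, eval X (spG P y (H i)) = 0) → eval X (spG P y F) ≠ 0 →
        (∀ j, (∃ v, ci v j ≠ 0) ∨ (∃ v ∈ S, cf v j ≠ 0) →
          ∃ l, eval X (spG P y (f j l)) ≠ 0) ∧ ev P y f₀ ≠ 0 ∧ (∃ k, ev P y (g k) ≠ 0) ∧
        (∑ v : NumberField.InfinitePlace K, (v.mult : ℝ) *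
            ((∑ j, ci v j * (1 / (d j : ℝ) * lamF B H v.val (D j) (d j) (f j) P y X)) +
              B.loc v.val e (fun _ : Fin 1 => f₀) P y)) +
          (∑ v ∈ S,
            ((∑ j, cf v j * (1 / (d j : ℝ) * lamF B H v.val (D j) (d j) (f j) P y X)) +
              B.loc v.val e (fun _ : Fin 1 => f₀) P y)) +
          ((∑ v : NumberField.InfinitePlace K, (v.mult : ℝ) * B.loc v.val E g P y) +
            ∑ᶠ v : NumberField.FinitePlace K, B.loc v.val E g P y) +
          muI t (fbG P y H) κ ≤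
          t * logHeight X + ε * (logHeight X + logHeight (A.x P) + ∑ i, B.ht P y i) +
            C * (1 + B.NS S P y) := by
  classical
  obtain ⟨ch, h⟩ := SV3.A_exists_ch B
  obtain ⟨κ₀, hκ₀⟩ := VCB B Γ hΓ ht H hH hg D d hd f hf S ci cf hci0 hcf0 hci hcf f₀ hf₀
    hf₀A (ε / 2) (half_pos hε)
  refine ⟨κ₀, fun κ hκ => ?_⟩
  obtain ⟨C₁, F₁, hF₁, h1⟩ := hκ₀ κ hκ
  obtain ⟨G, C₂, ⟨ρ, hG⟩, hGV, h2⟩ := SV3.final B Γ hΓ E g hgE hg2 0 1 (L1_WH_one B)
    (fun hV => by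
      obtain ⟨L, _, _, _, P, y, hP⟩ := genB_exists (B.tor ch h)
      have hP' := (K_gen B h P y).2 hP
      exact one_ne_zero ((L1_ev_one (A := A) P y).symm.trans (hV L P y hP'.2.1))) S (ε / 2) (half_pos hε)
  refine ⟨C₁ + C₂, F₁ * emb G, ⟨?_, ?_⟩, ?_⟩
  · obtain ⟨a, b, hab⟩ := hF₁.1
    exact ⟨a + ρ, b + 0, BG_mul (T := B.tor ch h) hab (emb_BG (B.tor ch h) hG)⟩
  · intro L _ _ _ P y hP hmem
    rw [spG_mul, emb_sp] at hmem
    have hne : TB.ev P y G ≠ 0 := fun h0 => hGV (hP.2.2 ρ G hG h0)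
    refine hF₁.2 L P y hP ?_
    have h3 := (fbG P y H).mul_mem_right (C ((ev P y G)⁻¹)) hmem
    rwa [mul_assoc, ← C_mul, mul_inv_cancel₀ hne, C_1, mul_one] at h3
  · intro P hP y hy X hX hXH hXF
    rw [spG_mul, map_mul, emb_sp, eval_C] at hXF
    obtain ⟨h3, h4, h5⟩ := h1 P hP y hy X hX hXH (left_ne_zero_of_mul hXF)
    obtain ⟨h6, -, h7⟩ := h2 P hP y hy (right_ne_zero_of_mul hXF)
    refine ⟨h3, h4, h6, ?_⟩
    simp only [L1_loc, mul_zero, Finset.sum_const_zero, add_zero] at h7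
    have h8 : 0 ≤ logHeight X := logHeight_nonneg X
    have h9 : 0 ≤ ε / 2 * logHeight X := mul_nonneg (half_pos hε).le h8
    have h10 : ε * (logHeight X + logHeight (A.x P) + ∑ i, B.ht P y i) =
        ε / 2 * (logHeight X + logHeight (A.x P) + ∑ i, B.ht P y i) +
        (ε / 2 * (logHeight (A.x P) + ∑ i, B.ht P y i) + ε / 2 * logHeight X) := by ring
    rw [h10, add_mul]
    linarith

end Pool.Agent.Lib.MP_17a322_nt.VC
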