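import Pool.Agent.Lib.MP_17a322_nt.EF.C1
import Mathlib.Algebra.Order.Antidiag.FinsuppEquiv

/-!
Growth of the number of the pairs `(ν, e)`.
-/

namespace Pool.Agent.Lib.MP_17a322_nt.VC

open MvPolynomial
open Pool.Agent.Lib.MP_17a322_nt.EF

private theorem M1_step (t q : ℕ) (ht : 0 < t) : (((t + (q + 1) - 1).choose (q + 1) : ℕ) : ℝ) ≤
    (1 + (t : ℝ) / (q + 1)) * ((t + q - 1).choose q : ℕ) := by
  obtain ⟨s, rfl⟩ : ∃ s, t = s + 1 := ⟨t - 1, by omega⟩
  have e1 : s + 1 + (q + 1) - 1 = (s + q) + 1 := by omega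
  have e2 : s + 1 + q - 1 = s + q := by omega
  rw [e1, e2]
  have h1 := Nat.add_one_mul_choose_eq (s + q) q
  have h2 : ((s + q : ℕ) + 1 : ℝ) * ((s + q).choose q : ℕ) =
      (((s + q) + 1).choose (q + 1) : ℕ) * ((q : ℝ) + 1) := by
    exact_mod_cast h1
  have hq : (0 : ℝ) < (q : ℝ) + 1 := by positivity
  have h3 : (((s + q + 1).choose (q + 1) : ℕ) : ℝ) =
      ((s + q : ℕ) + 1 : ℝ) * ((s + q).choose q : ℕ) / ((q : ℝ) + 1) := by
    rw [h2]
    field_simp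
  rw [h3]
  push_cast
  have h4 : (1 + ((s : ℝ) + 1) / (q + 1)) * (((s + q).choose q : ℕ) : ℝ) =
      ((q : ℝ) + 1 + (s + 1)) * ((s + q).choose q : ℕ) / (q + 1) := by
    field_simp
  rw [h4]
  have h5 : (0 : ℝ) ≤ ((s + q).choose q : ℕ) := Nat.cast_nonneg _
  refine div_le_div_of_nonneg_right (mul_le_mul_of_nonneg_right ?_ h5) hq.le
  linarith

private theorem M1_iter (t q u : ℕ) (ht : 0 < t) : (((t + (q + u) - 1).choose (q + u) : ℕ) : ℝ) ≤
    (1 + (t : ℝ) / (q + 1)) ^ u * ((t + q - 1).choose q : ℕ) := by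
  induction u with
  | zero => simp
  | succ u ih =>
    have h1 := M1_step t (q + u) ht
    have h2 : (1 + (t : ℝ) / ((q + u : ℕ) + 1)) ≤ 1 + (t : ℝ) / (q + 1) := by
      push_cast
      have : (0 : ℝ) ≤ u := Nat.cast_nonneg _
      gcongr
      linarith
    have h3 : (0 : ℝ) ≤ ((t + (q + u) - 1).choose (q + u) : ℕ) := Nat.cast_nonneg _
    have h4 : (0 : ℝ) ≤ 1 + (t : ℝ) / (q + 1) := by positivity
    calc (((t + (q + (u + 1)) - 1).choose (q + (u + 1)) : ℕ) : ℝ)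
        ≤ (1 + (t : ℝ) / ((q + u : ℕ) + 1)) * ((t + (q + u) - 1).choose (q + u) : ℕ) := h1
      _ ≤ (1 + (t : ℝ) / (q + 1)) * ((t + (q + u) - 1).choose (q + u) : ℕ) :=
        mul_le_mul_of_nonneg_right h2 h3
      _ ≤ (1 + (t : ℝ) / (q + 1)) * ((1 + (t : ℝ) / (q + 1)) ^ u * ((t + q - 1).choose q : ℕ)) :=
        mul_le_mul_of_nonneg_left ih h4
      _ = _ := by rw [pow_succ]; ring

private theorem M1_lim (t u : ℕ) {δ : ℝ} (hδ : 0 < δ) :
    ∃ q₀ : ℕ, ∀ q ≥ q₀, (1 + (t : ℝ) / ((q : ℝ) + 1)) ^ u ≤ 1 + δ := by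
  have h1 : Filter.Tendsto (fun q : ℕ => (1 + (t : ℝ) / ((q : ℝ) + 1)) ^ u) Filter.atTop
      (nhds ((1 + 0) ^ u)) := by
    refine Filter.Tendsto.pow (Filter.Tendsto.add tendsto_const_nhds ?_) u
    exact Filter.Tendsto.div_atTop tendsto_const_nhds
      (Filter.tendsto_atTop_add_const_right _ _ tendsto_natCast_atTop_atTop)
  rw [add_zero, one_pow] at h1
  obtain ⟨q₀, hq⟩ := Filter.eventually_atTop.mp
    (h1.eventually (gt_mem_nhds (show (1 : ℝ) < 1 + δ by linarith)))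
  exact ⟨q₀, fun q h => (hq q h).le⟩

private theorem M1_card {n t d : ℕ} {M : Finset (Fin n → ℕ)} (hd : 0 < d) {ν : Fin n → ℕ}
    (hν : ν ∈ M) (q : ℕ) :
    ((fam M t d (∑ l, ν l + d * q)).filter fun p => p.1 = ν).card = (t + q - 1).choose q := by
  classical
  have h1 := Finset.card_finsuppAntidiag_nat_eq_choose (s := (Finset.univ : Finset (Fin t))) q
  rw [Finset.card_univ, Fintype.card_fin] at h1
  rw [← h1]
  refine Finset.card_bij' (fun p _ => Finsupp.equivFunOnFinite.symm p.2)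
    (fun f _ => (ν, (f : Fin t → ℕ))) ?_ ?_ ?_ ?_
  · intro p hp
    rw [Finset.mem_filter, mem_famC hd] at hp
    obtain ⟨⟨_, hp1⟩, hp2⟩ := hp
    rw [hp2] at hp1
    have h2 : ∑ j, p.2 j = q := by
      have h3 : d * ∑ j, p.2 j = d * q := by omega
      exact Nat.eq_of_mul_eq_mul_left hd h3
    rw [Finset.mem_finsuppAntidiag]
    exact ⟨h2, Finset.subset_univ _⟩
  · intro f hf
    rw [Finset.mem_finsuppAntidiag] at hf
    rw [Finset.mem_filter, mem_famC hd]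
    refine ⟨⟨hν, ?_⟩, rfl⟩
    have h3 : ∑ j, f j = q := hf.1
    show ∑ l, ν l + d * ∑ j, f j = ∑ l, ν l + d * q
    rw [h3]
  · intro p hp
    rw [Finset.mem_filter] at hp
    exact Prod.ext hp.2.symm rfl
  · intro f _
    exact Finsupp.equivFunOnFinite.symm_apply_apply f

/-- M1. The number of the pairs `(ν, e)` grows slowly. -/
theorem fam_step {n t d : ℕ} (M : Finset (Fin n → ℕ)) (ht : 0 < t) (hd : 0 < d) (u : ℕ) {δ : ℝ}
    (hδ : 0 < δ) :
    ∃ k₀ : ℕ, ∀ k ≥ k₀, ((fam M t d (k + d * u)).card : ℝ) ≤ (1 + δ) * (fam M t d k).card := by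
  classical
  obtain ⟨q₀, hq₀⟩ := M1_lim t u hδ
  refine ⟨∑ ν ∈ M, ∑ l, ν l + d * q₀, fun k hk => ?_⟩
  have hf : ∀ k, (fam M t d k).card =
      ∑ ν ∈ M, ((fam M t d k).filter fun p => p.1 = ν).card := fun k =>
    Finset.card_eq_sum_card_fiberwise fun p hp => ((mem_famC hd).mp hp).1
  rw [hf, hf, Nat.cast_sum, Nat.cast_sum, Finset.mul_sum]
  refine Finset.sum_le_sum fun ν hν => ?_
  have hνle : ∑ l, ν l ≤ ∑ ν ∈ M, ∑ l, ν l :=
    Finset.single_le_sum (f := fun ν : Fin n → ℕ => ∑ l, ν l) (fun _ _ => Nat.zero_le _) hν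
  rcases Finset.eq_empty_or_nonempty ((fam M t d (k + d * u)).filter fun p => p.1 = ν) with h0 | h0
  · rw [h0, Finset.card_empty, Nat.cast_zero]
    positivity
  · obtain ⟨p, hp⟩ := h0
    rw [Finset.mem_filter, mem_famC hd] at hp
    obtain ⟨⟨_, hp1⟩, hp2⟩ := hp
    rw [hp2] at hp1
    have hu : u ≤ ∑ j, p.2 j := by
      by_contra hcon
      have h1 : d * ∑ j, p.2 j < d * u := Nat.mul_lt_mul_of_pos_left (by omega) hd
      omega
    obtain ⟨q, hq⟩ : ∃ q, ∑ j, p.2 j = q + u := ⟨_, (Nat.sub_add_cancel hu).symm⟩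
    rw [hq, mul_add] at hp1
    have hkq : k = ∑ l, ν l + d * q := by omega
    have hqq : q₀ ≤ q := by
      have h1 : d * q₀ ≤ d * q := by omega
      exact Nat.le_of_mul_le_mul_left h1 hd
    have e1 : k + d * u = ∑ l, ν l + d * (q + u) := by
      rw [hkq, mul_add, add_assoc]
    rw [e1, hkq, M1_card hd hν, M1_card hd hν]
    refine (M1_iter t q u ht).trans ?_
    exact mul_le_mul_of_nonneg_right (hq₀ q hqq) (Nat.cast_nonneg _)

end Pool.Agent.Lib.MP_17a322_nt.VC
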