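import Pool.Agent.Lib.MP_17a322_nt.VC.Defs
import Pool.Agent.Lib.MP_17a322_nt.EG.A1

/-!
Growth of the dimensions: M2.
-/

namespace Pool.Agent.Lib.MP_17a322_nt.VC

open MvPolynomial
open Pool.Agent.Lib.MP_17a322_nt.EF

/-- M2. Growth of a sequence between two shifts of a sequence that grows slowly. -/
theorem grow_seq {f g : ℕ → ℕ} {c d : ℕ} (hd : 0 < d) (hf : ∀ k j, f k ≤ f (k + j))
    (hgf : ∀ k, g k ≤ f k) (hfg : ∀ k, f k ≤ g (k + c))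
    (hg : ∀ (u : ℕ) (δ : ℝ), 0 < δ → ∃ k₀ : ℕ, ∀ k ≥ k₀, (g (k + d * u) : ℝ) ≤ (1 + δ) * g k)
    (c₁ : ℕ) {δ : ℝ} (hδ : 0 < δ) (hδ1 : δ < 1) :
    ∃ k₀ : ℕ, ∀ k ≥ k₀, c₁ ≤ k ∧ (1 - δ) * (f k : ℝ) ≤ f (k - c₁) := by
  obtain ⟨k₁, hk₁⟩ := hg (c₁ + c) δ hδ
  refine ⟨k₁ + c₁, fun k hk => ⟨by omega, ?_⟩⟩
  obtain ⟨k', rfl⟩ : ∃ k', k = k' + c₁ := ⟨k - c₁, by omega⟩
  rw [Nat.add_sub_cancel]
  have hdu : c₁ + c ≤ d * (c₁ + c) := Nat.le_mul_of_pos_left _ hd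
  obtain ⟨j, hj⟩ : ∃ j, d * (c₁ + c) = c₁ + c + j := ⟨d * (c₁ + c) - (c₁ + c), by omega⟩
  have h1 : f (k' + c₁) ≤ g (k' + d * (c₁ + c)) := by
    have h2 := hf (k' + c₁) j
    have h3 := hfg (k' + c₁ + j)
    have h4 : k' + c₁ + j + c = k' + d * (c₁ + c) := by omega
    rw [h4] at h3
    exact h2.trans h3
  have h5 := hk₁ k' (by omega)
  have h6 : (f (k' + c₁) : ℝ) ≤ g (k' + d * (c₁ + c)) := by exact_mod_cast h1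
  have h7 : (g k' : ℝ) ≤ f k' := by exact_mod_cast hgf k'
  have h8 : (0 : ℝ) ≤ f k' := Nat.cast_nonneg _
  have h9 : (f (k' + c₁) : ℝ) ≤ (1 + δ) * f k' :=
    h6.trans (h5.trans (mul_le_mul_of_nonneg_left h7 (by linarith)))
  have h10 : (1 - δ) * (f (k' + c₁) : ℝ) ≤ (1 - δ) * ((1 + δ) * f k') :=
    mul_le_mul_of_nonneg_left h9 (by linarith)
  refine h10.trans ?_
  nlinarith [mul_nonneg (sq_nonneg δ) h8]

end Pool.Agent.Lib.MP_17a322_nt.VC
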