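import Pool.Agent.Lib.MP_17a322_nt.VC.Defs
import Pool.Agent.Lib.MP_17a322_nt.EG.A1
import Pool.Agent.Lib.MP_17a322_nt.EF.C1
import Pool.Agent.Lib.MP_17a322_nt.EF.C4

/-!
Growth of the dimensions: M3.
-/

namespace Pool.Agent.Lib.MP_17a322_nt.VC

open MvPolynomial
open Pool.Agent.Lib.MP_17a322_nt.EF

/-- M3. Independent forms. -/
theorem fam_le {L : Type*} [Field L] {n t d k : ℕ} (hd : 0 < d)
    (I : Ideal (MvPolynomial (Fin n) L)) (Q : Fin t → MvPolynomial (Fin n) L)
    (hQ : ∀ j, (Q j).IsHomogeneous d) (M : Finset (Fin n → ℕ))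
    (h : ∀ a : (Fin n → ℕ) × (Fin t → ℕ) → L,
      ∑ p ∈ fam M t d k, C (a p) * fm Q p ∈ I → ∀ p ∈ fam M t d k, a p = 0) :
    (fam M t d k).card ≤ rk I k := by
  classical
  have hfin : Module.Finite L ((homogeneousSubmodule (Fin n) L k).map
      (Ideal.Quotient.mkₐ L I).toLinearMap) :=
    Module.Finite.iff_fg.2 ((homogeneousSubmodule_fg (Fin n) L k).map _)
  have hmem : ∀ p : fam M t d k, Ideal.Quotient.mk I (fm Q p.1) ∈
      (homogeneousSubmodule (Fin n) L k).map (Ideal.Quotient.mkₐ L I).toLinearMap := by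
    intro p
    refine ⟨fm Q p.1, ?_, rfl⟩
    have h1 := fm_homC hQ p.1
    rw [((mem_famC hd).1 p.2).2] at h1
    exact (mem_homogeneousSubmodule k _).2 h1
  have hv : LinearIndependent L (fun p : fam M t d k =>
      (⟨Ideal.Quotient.mk I (fm Q p.1), hmem p⟩ : (homogeneousSubmodule (Fin n) L k).map
        (Ideal.Quotient.mkₐ L I).toLinearMap)) := by
    refine LinearIndependent.of_comp (Submodule.subtype _) ?_
    rw [Fintype.linearIndependent_iff]
    intro g hg p
    have h2 : ∑ p : fam M t d k, g p • Ideal.Quotient.mk I (fm Q p.1) = 0 := hg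
    have h3 := h (fun p => if hp : p ∈ fam M t d k then g ⟨p, hp⟩ else 0) (by
      rw [← Ideal.Quotient.eq_zero_iff_mem, map_sum, ← Finset.sum_coe_sort, ← h2]
      refine Finset.sum_congr rfl fun q _ => ?_
      rw [dif_pos q.2, ← smul_eq_C_mul, mk_smulC]) p.1 p.2
    rw [dif_pos p.2] at h3
    exact h3
  have h4 := hv.fintype_card_le_finrank
  rw [Fintype.card_coe] at h4
  exact h4

end Pool.Agent.Lib.MP_17a322_nt.VC
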