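import Pool.Agent.Lib.MP_17a322_nt.EF.D5
import Pool.Agent.Lib.MP_17a322_nt.EF.U2
import Pool.Agent.Lib.MP_17a322_nt.VC.Defs

/-!
The normalised height of a linear space.
-/

universe u

namespace Pool.Agent.Lib.MP_17a322_nt.VC

open MvPolynomial Height
open Pool.Agent.Lib.MP_17a322_nt.EF
open Pool.Agent.Lib.MP_17a322_nt.VB (mnr)

section

/-- The dimension of the forms of degree `k` modulo an ideal. -/
theorem U2_rkI {L : Type*} [Field L] {n : ℕ} (I : Ideal (MvPolynomial (Fin n) L)) (k : ℕ)
    {g' : ℕ} (B : Fin g' → Fin (Mo n k).card → L)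
    (hli : LinearIndependent L B)
    (hmem : ∀ f : MvPolynomial (Fin n) L, f.IsHomogeneous k →
      (f ∈ I ↔ cf k f ∈ Submodule.span L (Set.range B))) :
    g' + rk (I) k = (Mo n k).card := by
  classical
  obtain ⟨e, he⟩ := cf_equiv n k L
  have : FiniteDimensional L (homogeneousSubmodule (Fin n) L k) := Module.Finite.equiv e.symm
  have h1 := LinearMap.finrank_range_add_finrank_ker
    ((Ideal.Quotient.mkₐ L (I)).toLinearMap.domRestrict (homogeneousSubmodule (Fin n) L k))
  rw [LinearMap.range_domRestrict, e.finrank_eq, Module.finrank_fin_fun] at h1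
  have h2 : (LinearMap.ker ((Ideal.Quotient.mkₐ L (I)).toLinearMap.domRestrict
      (homogeneousSubmodule (Fin n) L k))).map (e : homogeneousSubmodule (Fin n) L k →ₗ[L] _) =
      Submodule.span L (Set.range B) := by
    ext y
    rw [Submodule.mem_map]
    constructor
    · rintro ⟨Q, hQ, rfl⟩
      rw [LinearMap.mem_ker, LinearMap.domRestrict_apply] at hQ
      have h3 : (Q : MvPolynomial (Fin n) L) ∈ I := Ideal.Quotient.eq_zero_iff_mem.1 hQ
      show e Q ∈ _
      rw [he]
      exact (hmem _ ((mem_homogeneousSubmodule _ _).1 Q.2)).1 h3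
    · intro hy
      refine ⟨e.symm y, ?_, e.apply_symm_apply y⟩
      rw [LinearMap.mem_ker, LinearMap.domRestrict_apply]
      refine Ideal.Quotient.eq_zero_iff_mem.2 ?_
      refine (hmem _ ((mem_homogeneousSubmodule _ _).1 (e.symm y).2)).2 ?_
      rw [← he, e.apply_symm_apply]
      exact hy
  have h3 := LinearEquiv.finrank_map_eq e (LinearMap.ker
    ((Ideal.Quotient.mkₐ L (I)).toLinearMap.domRestrict
      (homogeneousSubmodule (Fin n) L k)))
  rw [h2, finrank_span_eq_card hli, Fintype.card_fin] at h3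
  rw [← h3] at h1
  unfold rk
  rw [add_comm]
  exact h1

/-- For a linear space the normalised height is at least its height. -/
theorem slopeI_lin {K : Type u} [Field K] [NumberField K] {n g t : ℕ} (hgt : g + t = n)
    (ht : 0 < t) (G : Fin g → Fin n → K) (hG : LinearIndependent K G) :
    logHeight (fun e : Fin g ↪o Fin n => mnr G e) ≤
      slopeI t (Ideal.span (Set.range fun i => ∑ l, C (G i l) * X l)) := by
  classical
  obtain ⟨Y, hY, hGY, -, -⟩ := D_ker hgt _ hG
  obtain ⟨I, hI⟩ : ∃ I : Ideal (MvPolynomial (Fin n) K),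
    I = Ideal.span (Set.range fun i => ∑ l, C (G i l) * X l) := ⟨_, rfl⟩
  rw [← hI]
  unfold slopeI
  refine le_ciInf fun k => ?_
  obtain ⟨V, hV⟩ : ∃ V, V = part (I) (k + 1) := ⟨_, rfl⟩
  rw [← hV]
  obtain ⟨B, hB⟩ : ∃ B : Fin (Module.finrank K V) → Fin (Mo n (k + 1)).card → K,
      B = fun a => (Module.finBasis K V a : Fin (Mo n (k + 1)).card → K) := ⟨_, rfl⟩
  have hBli : LinearIndependent K B := by
    rw [hB]
    exact (Module.finBasis K V).linearIndependent.map' V.subtype (Submodule.ker_subtype _)
  have hBspan : Submodule.span K (Set.range B) = V := by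
    have h1 := congrArg (Submodule.map V.subtype) (Module.finBasis K V).span_eq
    rw [Submodule.map_span, ← Set.range_comp, Submodule.map_top, Submodule.range_subtype] at h1
    rw [hB]
    exact h1
  have hun : ∀ c ∈ V, uncf (k + 1) c ∈ I := by
    intro c hc
    rw [hV] at hc
    unfold part at hc
    induction hc using Submodule.span_induction with
    | mem x h =>
      obtain ⟨f, hf, hfh, rfl⟩ := h
      rw [uncf_cf hfh]
      exact hf
    | zero =>
      have h0 : uncf (n := n) (k + 1) (0 : Fin (Mo n (k + 1)).card → K) = 0 := by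
        unfold uncf
        simp
      rw [h0]
      exact Ideal.zero_mem _
    | add x y _ _ hx hy =>
      have h0 : uncf (n := n) (k + 1) (x + y) = uncf (k + 1) x + uncf (k + 1) y := by
        unfold uncf
        simp [Finset.sum_add_distrib]
      rw [h0]
      exact Ideal.add_mem _ hx hy
    | smul a x _ hx =>
      have h0 : uncf (n := n) (k + 1) (a • x) = C a * uncf (k + 1) x := by
        unfold uncf
        rw [Finset.mul_sum]
        refine Finset.sum_congr rfl fun i _ => ?_
        rw [Pi.smul_apply, smul_eq_mul, C_mul_monomial]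
      rw [h0]
      exact Ideal.mul_mem_left _ _ hx
  have hmem : ∀ f : MvPolynomial (Fin n) K, f.IsHomogeneous (k + 1) →
      (f ∈ I ↔ cf (k + 1) f ∈ Submodule.span K (Set.range B)) := by
    intro f hf
    rw [hBspan]
    constructor
    · intro h
      rw [hV]
      exact Submodule.subset_span ⟨f, h, hf, rfl⟩
    · intro h
      have h1 := hun _ h
      rwa [uncf_cf hf] at h1
  have hrk := U2_rkI I (k + 1) B hBli hmem
  have hle1 : rk (I) (k + 1) ≤ (Mo t (k + 1)).card := by
    rw [hI]
    exact D_rk_le hgt _ hG (k + 1)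
  have hSli := Sy_li (k := k + 1) (Matrix.of Y) hY
  have horth : ∀ a b, ∑ l, B a l * Sy (k + 1) (Matrix.of Y) b l = 0 := by
    intro a b
    have h1 : uncf (k + 1) (B a) ∈ I := by
      refine hun _ ?_
      rw [← hBspan]
      exact Submodule.subset_span ⟨a, rfl⟩
    have h2 : aeval (ly (Matrix.of Y)) (uncf (k + 1) (B a)) = 0 := by
      have h3 : I ≤ RingHom.ker (aeval (ly (Matrix.of Y)) :
          MvPolynomial (Fin n) K →ₐ[K] MvPolynomial (Fin t) K).toRingHom := by
        rw [hI, Ideal.span_le]
        rintro _ ⟨i, rfl⟩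
        show aeval (ly (Matrix.of Y)) (∑ l, C (G i l) * X l) = 0
        rw [map_sum]
        have h4 : ∀ l, aeval (ly (Matrix.of Y)) (C (G i l) * X l :
            MvPolynomial (Fin n) K) =
            ∑ j, C (G i l * Y j l) * X j := by
          intro l
          rw [map_mul, aeval_X, algHom_C, algebraMap_eq]
          unfold ly
          rw [Finset.mul_sum]
          refine Finset.sum_congr rfl fun j _ => ?_
          rw [C_mul, mul_assoc, Matrix.of_apply]
        rw [Finset.sum_congr rfl fun l _ => h4 l, Finset.sum_comm]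
        refine Finset.sum_eq_zero fun j _ => ?_
        rw [← Finset.sum_mul, ← map_sum, hGY i j, C_0, zero_mul]
      exact h3 h1
    have h5 := D_Sy_cf (k := k + 1) (Matrix.of Y) (uncf_hom (B a)) b
    rw [h2, cf_uncf] at h5
    have h6 : cf (k + 1) (0 : MvPolynomial (Fin t) K) b = 0 := by
      unfold cf
      exact coeff_zero _
    rw [h6] at h5
    rw [h5]
    exact Finset.sum_congr rfl fun l _ => mul_comm _ _
  have hle2 : (Mo t (k + 1)).card ≤ rk (I) (k + 1) := by
    obtain ⟨Y', -, -, -, hmax⟩ := D_ker hrk B hBli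
    exact hmax _ _ hSli horth
  have hrke : rk (I) (k + 1) = (Mo t (k + 1)).card := le_antisymm hle1 hle2
  rw [hrke] at hrk
  have hd1 := D_dual' hgt _ hG Y hY hGY
  have hd2 := D_dual' hrk B hBli _ hSli horth
  have hmain := Sy_ht ht (k + 1) (Matrix.of Y)
  have e1 : logHeight (fun e : Fin g ↪o Fin n => mnr G e) = logHeight (fun f : Fin t → Fin n => (Matrix.of fun a b => Y a (f b)).det) :=
    hd1
  have e2 : hSub V = logHeight (fun f : Fin (Mo t (k + 1)).card → Fin (Mo n (k + 1)).card =>
      (Matrix.of fun a b => Sy (k + 1) (Matrix.of Y) a (f b)).det) := by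
    rw [← hd2, hB]
    rfl
  have hpos : 0 < (Mo t (k + 1)).card := by
    rw [Finset.card_pos]
    refine ⟨Pi.single ⟨0, ht⟩ (k + 1), ?_⟩
    unfold Mo
    rw [Finset.mem_piAntidiag]
    refine ⟨?_, fun _ _ => Finset.mem_univ _⟩
    rw [Finset.sum_pi_single']
    simp
  rw [le_div_iff₀ (by rw [hrke]; positivity), hrke, e1, e2, mul_comm]
  exact hmain

end

/-- For a linear space the heights of the spaces of forms are at least its height. -/
theorem muI_lin {K : Type u} [Field K] [NumberField K] {n g t : ℕ} (hgt : g + t = n)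
    (ht : 0 < t) (G : Fin g → Fin n → K) (hG : LinearIndependent K G) {k : ℕ} (hk : 0 < k) :
    logHeight (fun e : Fin g ↪o Fin n => mnr G e) ≤
      muI t (Ideal.span (Set.range fun i => ∑ l, C (G i l) * X l)) k := by
  refine (slopeI_lin hgt ht G hG).trans ?_
  obtain ⟨k, rfl⟩ : ∃ j, k = j + 1 := ⟨k - 1, by omega⟩
  unfold slopeI muI
  refine (ciInf_le ⟨0, ?_⟩ k)
  rintro _ ⟨j, rfl⟩
  exact div_nonneg (mul_nonneg (Nat.cast_nonneg _) (logHeight_nonneg _)) (by positivity)

end Pool.Agent.Lib.MP_17a322_nt.VC
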