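import Pool.Agent.Lib.MP_17a322_nt.VC.Defs
import Pool.Agent.Lib.MP_17a322_nt.VC.M1
import Pool.Agent.Lib.MP_17a322_nt.VC.M2
import Pool.Agent.Lib.MP_17a322_nt.VC.M3
import Pool.Agent.Lib.MP_17a322_nt.EG.A1

/-!
Families over principal torus bundles over `A`: the choice of the degree for finitely many ideals with
the same dimensions and finitely many families of forms.
-/

universe u

namespace Pool.Agent.Lib.MP_17a322_nt.VC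

open MvPolynomial
open Pool.Agent.Lib.MP_17a322_nt.EF

/-- Large degrees `k` for finitely many ideals with the same dimensions and finitely many families of `t`
forms without common zeros. -/
theorem A_chooseC {L : Type u} [Field L] [IsAlgClosed L] {n t d : ℕ} (ht : 0 < t) (hd : 0 < d)
    (I₀ : Ideal (MvPolynomial (Fin n) L)) (hI₀ : I₀.IsPrime)
    (htr₀ : Algebra.trdeg L (MvPolynomial (Fin n) L ⧸ I₀) = t) {Ω : Type*} [Finite Ω]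
    (I : Ω → Ideal (MvPolynomial (Fin n) L)) (hIp : ∀ ω, (I ω).IsPrime)
    (hI : ∀ ω, ∀ f ∈ I ω, ∀ k, homogeneousComponent k f ∈ I ω)
    (htr : ∀ ω, Algebra.trdeg L (MvPolynomial (Fin n) L ⧸ I ω) = t)
    (hrk : ∀ ω k, rk (I ω) k = rk I₀ k)
    (Q : Ω → Fin t → MvPolynomial (Fin n) L) (hQ : ∀ ω j, (Q ω j).IsHomogeneous d)
    (h0 : ∀ ω, ∀ X : Fin n → L, (∀ f ∈ I ω, eval X f = 0) → (∀ j, eval X (Q ω j) = 0) → X = 0)
    {δ : ℝ} (hδ : 0 < δ) (hδ1 : δ < 1) :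
    ∃ (M : Ω → Finset (Fin n → ℕ)) (k₀ : ℕ), ∀ k ≥ k₀, 0 < k ∧ 0 < rk I₀ k ∧
      ∀ ω,
        (∀ a : (Fin n → ℕ) × (Fin t → ℕ) → L,
          ∑ p ∈ fam (M ω) t d k, C (a p) * fm (Q ω) p ∈ I ω → ∀ p ∈ fam (M ω) t d k, a p = 0) ∧
        (∀ j : Fin t, (1 - δ) * (k * rk I₀ k) ≤
          t * d * ∑ p ∈ fam (M ω) t d k, (p.2 j : ℝ)) ∧
        ∀ j, Q ω j ∉ I ω := by
  classical
  let _ : Fintype Ω := Fintype.ofFinite Ω
  have h1 := exists_X_notMem I₀ ht htr₀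
  have key : ∀ ω, ∃ (M : Finset (Fin n → ℕ)) (c : ℕ),
      (∀ (k : ℕ) (a : (Fin n → ℕ) × (Fin t → ℕ) → L),
        ∑ p ∈ fam M t d k, C (a p) * fm (Q ω) p ∈ I ω → ∀ p ∈ fam M t d k, a p = 0) ∧
      (∀ k, rk I₀ k ≤ (fam M t d (k + c)).card) ∧ ∀ j, Q ω j ∉ I ω := by
    intro ω
    have _ := hIp ω
    obtain ⟨M', hM'⟩ := C_span hd (I ω) (hI ω) (Q ω) (hQ ω) (h0 ω)
    have hind := C_indep (I ω) (htr ω) hd (Q ω) M' hM'
    obtain ⟨M, c, h2, h3⟩ := C_fam (I ω) (hI ω) hd (Q ω) (hQ ω) hind M' hM'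
    refine ⟨M, c, h2, fun k => ?_, fun j hj => ?_⟩
    · rw [← hrk ω k]
      exact h3 k
    · have h4 := hind.ne_zero j
      exact h4 (Ideal.Quotient.eq_zero_iff_mem.2 hj)
  choose M c hM using key
  obtain ⟨c₁, hc₁⟩ : ∃ c₁, c₁ = ∑ ω, c ω := ⟨_, rfl⟩
  obtain ⟨c₂, hc₂⟩ : ∃ c₂, c₂ = ∑ ω, ∑ ν ∈ M ω, ∑ l, ν l := ⟨_, rfl⟩
  have hc₁' : ∀ ω, c ω ≤ c₁ := fun ω => by
    rw [hc₁]
    exact Finset.single_le_sum (f := c) (fun _ _ => Nat.zero_le _) (Finset.mem_univ ω)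
  have hc₂' : ∀ ω, ∀ ν ∈ M ω, ∑ l, ν l ≤ c₂ := fun ω ν hν => by
    rw [hc₂]
    exact (Finset.single_le_sum (f := fun ν : Fin n → ℕ => ∑ l, ν l)
      (fun _ _ => Nat.zero_le _) hν).trans
      (Finset.single_le_sum (f := fun ω => ∑ ν ∈ M ω, ∑ l, ν l) (fun _ _ => Nat.zero_le _)
        (Finset.mem_univ ω))
  obtain ⟨k₀, hk₀⟩ := exists_nat_ge (2 * c₂ / δ)
  obtain ⟨k₂, hk₂⟩ : ∃ k₂ : ℕ, Ω → ∀ k ≥ k₂,
      c₁ ≤ k ∧ (1 - δ / 2) * (rk I₀ k : ℝ) ≤ rk I₀ (k - c₁) := by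
    rcases isEmpty_or_nonempty Ω with hΩ | ⟨⟨ω⟩⟩
    · exact ⟨0, fun ω => isEmptyElim ω⟩
    · obtain ⟨k₂, hk₂⟩ := grow_seq (f := rk I₀) (g := fun k => (fam (M ω) t d k).card) (c := c ω)
        hd (fun k j => rk_mono I₀ h1 (Nat.le_add_right k j))
        (fun k => (fam_le hd (I ω) (Q ω) (hQ ω) (M ω) ((hM ω).1 k)).trans (le_of_eq (hrk ω k)))
        (hM ω).2.1 (fun u δ hδ => fam_step (M ω) ht hd u hδ) c₁ (half_pos hδ) (by linarith)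
      exact ⟨k₂, fun _ => hk₂⟩
  refine ⟨M, k₀ + 1 + k₂, fun k hkk => ?_⟩
  have hk : k₀ + 1 ≤ k := by omega
  refine ⟨by omega, C4_pos I₀ h1 (by omega), fun ω => ⟨(hM ω).1 k, fun j => ?_, (hM ω).2.2⟩⟩
  obtain ⟨hck, hgr⟩ := hk₂ ω k (by omega)
  have h2 : rk I₀ (k - c₁) ≤ (fam (M ω) t d k).card := by
    have h3 := (hM ω).2.1 (k - c ω)
    have h4 : k - c ω + c ω = k := Nat.sub_add_cancel ((hc₁' ω).trans hck)
    rw [h4] at h3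
    exact (rk_mono I₀ h1 (Nat.sub_le_sub_left (hc₁' ω) k)).trans h3
  have h3 := (C_weight (M ω) t d k c₂ (hc₂' ω) j).1
  have hk1 : (k₀ : ℝ) + 1 ≤ k := by exact_mod_cast hk
  have h4 : (c₂ : ℝ) ≤ δ / 2 * k := by
    rw [div_le_iff₀ hδ] at hk₀
    nlinarith
  have h5 : (rk I₀ (k - c₁) : ℝ) ≤ (fam (M ω) t d k).card := by exact_mod_cast h2
  have hk0 : (0 : ℝ) ≤ k := Nat.cast_nonneg _
  have hr0 : (0 : ℝ) ≤ rk I₀ k := Nat.cast_nonneg _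
  have h6 : (1 - δ / 2) * rk I₀ k * ((1 - δ / 2) * k) ≤ (fam (M ω) t d k).card * (k - c₂) :=
    mul_le_mul (hgr.trans h5) (by linarith) (mul_nonneg (by linarith) hk0)
      (Nat.cast_nonneg _)
  have h7 : (1 - δ) * (k * rk I₀ k) ≤ (1 - δ / 2) * rk I₀ k * ((1 - δ / 2) * k) := by
    have h8 : 0 ≤ δ ^ 2 / 4 * (k * rk I₀ k : ℝ) := by positivity
    nlinarith
  exact h7.trans (h6.trans h3)

end Pool.Agent.Lib.MP_17a322_nt.VC
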