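import Pool.Agent.Lib.MP_17a322_nt.VC.S1
import Pool.Agent.Lib.MP_17a322_nt.VC.R2
import Pool.Agent.Lib.MP_17a322_nt.VC.I5
import Pool.Agent.Lib.MP_17a322_nt.VC.E2
import Pool.Agent.Lib.MP_17a322_nt.VB.M1
import Pool.Agent.Lib.MP_17a322_nt.EG.W1

/-!
Families over principal torus bundles over `A`: the inequality for the forms `X ^ ν * Q ^ e`.
-/

universe u

namespace Pool.Agent.Lib.MP_17a322_nt.VC

open MvPolynomial Height
open Pool.Agent.Lib.MP_17a322_nt.VA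
open Pool.Agent.Lib.MP_17a322_nt.SL
open Pool.Agent.Lib.MP_17a322_nt.EF (Mo mo ver cf fam fm rk part hSub wgt SS x_ne' wgt_eq ver_ne
  ver_height)
open Pool.Agent.Lib.MP_17a322_nt.TB (Tor ev maxWt partWt wt supp)
open Pool.Agent.Lib.MP_17a322_nt.EG
open Pool.Agent.Lib.MP_17a322_nt.VB (Pl mnr InRow IndP IndV Rk ExcV hV)

section

variable {K : Type u} [Field K] {N q p n m s w e : ℕ} {A : AV K N} (T : Tor A q p)

theorem PhG_indC [Infinite K] {t D d k : ℕ} (ht : 0 < t) (hd : 0 < d) (hk : 0 < k)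
    {DH dH : Fin m → ℕ} {H : Fin m → Pol K N q p n} (hH : ∀ i, BG T (DH i) (dH i) (H i))
    (hg : Good T H t) {g' : ℕ} {G' : Matrix (Fin g') (Fin (Mo n k).card) (Pl K N q p)}
    (hG' : IsRw T H k G') (x : Fin (N + 1)) (Q Q₀ : Fin e → Fin t → Pol K N q p n)
    (hQ : ∀ a i, BG T D d (Q a i)) (τs : Fin e → Fin q → ℝ) (M : Fin e → Finset (Fin n → ℕ))
    {L : Type u} [Field L] [IsAlgClosed L] [Algebra K L] (P₀ : A.Pts L)
    (y₀ : Fin q × Fin p → L) (h₀ : GenB T P₀ y₀) (hx : A.x P₀ x ≠ 0) (a : Fin e)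
    (h : ∀ b : (Fin n → ℕ) × (Fin t → ℕ) → L,
      ∑ z ∈ fam (M a) t d k, C (b z) * fm (fun j => spG P₀ y₀ (Q₀ a j)) z ∈
        fbG P₀ y₀ (ldH (τs a) H) → ∀ z ∈ fam (M a) t d k, b z = 0) (τ : Fin q → ℝ)
    (hτ : Mat H Q Q₀ τs τ a) :
    IndV T G' (fun i l => cfG k (PhG (t := t) (d := d) x D Q M i) l) τ (JxG M t d k a) := by
  classical
  refine I_ind T ht hH hg hk hG' (PhG (t := t) (d := d) x D Q M) (PhG_BG x hd Q hQ M) τ
    (JxG M t d k a) h₀ fun b hb i hi => ?_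
  have hld : ldH τ H = ldH (τs a) H := funext fun i => hτ.1 i
  rw [hld] at hb
  obtain ⟨c, hc⟩ : ∃ c : (Fin n → ℕ) × (Fin t → ℕ) → L, c = fun z =>
      if hz : z ∈ fam (M a) t d k then
        b (ixG M t d k ⟨a, ⟨z, hz⟩⟩) * A.x P₀ x ^ (D * (k - ∑ j, z.2 j)) else 0 := ⟨_, rfl⟩
  have h2 : ∑ i ∈ JxG M t d k a, C (b i) * spG P₀ y₀ (ld τ (PhG (t := t) (d := d) x D Q M i)) =
      ∑ z ∈ fam (M a) t d k, C (c z) * fm (fun j => spG P₀ y₀ (Q₀ a j)) z := by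
    rw [sum_JxG, ← Finset.sum_coe_sort (fam (M a) t d k)
      (fun z => C (c z) * fm (fun j => spG P₀ y₀ (Q₀ a j)) z)]
    refine Finset.sum_congr rfl fun z _ => ?_
    have h3 : (fun j => ld τ (Q a j)) = Q₀ a := funext hτ.2
    rw [PhG_ix, LamG_ld, h3, LamG_sp, hc]
    simp only [z.2, dif_pos, map_mul]
    ring
  rw [h2] at hb
  have h4 := h c hb
  obtain ⟨z, hz⟩ := JxG_exists hi
  have h5 := h4 z.1 z.2
  rw [hc] at h5
  simp only [z.2, dif_pos] at h5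
  have h6 := (mul_eq_zero.1 h5).resolve_right (pow_ne_zero _ hx)
  rw [← h6, hz]

theorem W_coreC [NumberField K] (Γ : AddSubgroup (A.Pts K)) (hΓ : Γ.FG) {t D d k : ℕ}
    (ht : 0 < t) (hd : 0 < d) (hk : 0 < k) {DH dH : Fin m → ℕ} (H : Fin m → Pol K N q p n)
    (hH : ∀ i, BG T (DH i) (dH i) (H i)) (hg : Good T H t) {e : ℕ}
    (Q Q₀ : Fin e → Fin t → Pol K N q p n) (hQ : ∀ a i, BG T D d (Q a i))
    (hQ₀ : ∀ a i, BG T D d (Q₀ a i)) (τs : Fin e → Fin q → ℝ) {L : Type u} [Field L]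
    [IsAlgClosed L] [Algebra K L] (P₀ : A.Pts L) (y₀ : Fin q × Fin p → L) (h₀ : GenB T P₀ y₀)
    {g' r' : ℕ} (G' : Matrix (Fin g') (Fin (Mo n k).card) (Pl K N q p))
    (hG' : IsRw T H k G') (hgr : g' + r' = (Mo n k).card) (hr : 0 < r')
    (M : Fin e → Finset (Fin n → ℕ))
    (hM : ∀ a, 0 < wgt (M a) t d k ∧ (∀ i, spG P₀ y₀ (Q₀ a i) ≠ 0) ∧
      ∀ b : (Fin n → ℕ) × (Fin t → ℕ) → L,
        ∑ z ∈ fam (M a) t d k, C (b z) * fm (fun j => spG P₀ y₀ (Q₀ a j)) z ∈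
          fbG P₀ y₀ (ldH (τs a) H) → ∀ z ∈ fam (M a) t d k, b z = 0)
    (S : Finset (NumberField.FinitePlace K)) {ε : ℝ} (hε : 0 < ε) :
    ∃ (C : ℝ) (F : Pol K N q p n), ExcG T H F ∧
      ∀ P ∈ Γ, ∀ y : Fin q × Fin p → K, T.On P y → ∀ X : Fin n → K, X ≠ 0 →
        (∀ i, eval X (spG P y (H i)) = 0) → eval X (spG P y F) ≠ 0 →
        ∀ (ai : NumberField.InfinitePlace K → Fin e) (af : NumberField.FinitePlace K → Fin e),
          (∀ v, Mat H Q Q₀ τs (T.tau v.val P y) (ai v)) →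
          (∀ v ∈ S, Mat H Q Q₀ τs (T.tau v.val P y) (af v)) →
          ((∀ v i, eval X (spG P y (Q (ai v) i)) ≠ 0) ∧
            ∀ v ∈ S, ∀ i, eval X (spG P y (Q (af v) i)) ≠ 0) ∧
          SS S (fun v => wgt (M (ai v)) t d k * ∑ i, lam1 T v.val D d (Q (ai v) i) P y X)
            (fun v => wgt (M (af v)) t d k * ∑ i, lam1 T v.val D d (Q (af v) i) P y X) +
            hV G' P y ≤
            r' * (k * logHeight X) +
              ε * (k * logHeight X + logHeight (A.x P) + ∑ i, T.ht P y i) +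
              C * (1 + T.NS S P y) := by
  classical
  obtain ⟨x, hx⟩ := x_ne' A P₀
  obtain ⟨D', hD'⟩ := hG'.1
  have hRk : Rk T G' := S_rk T hD' h₀ (hG'.2.1 L P₀ y₀ h₀).1
  obtain ⟨C, F, hF, hmain⟩ := VB.M_coreV T Γ hΓ hgr hr (D * k) D' G' hD' hRk
    (fun i l => cfG k (PhG (t := t) (d := d) x D Q M i) l)
    (fun i l => cfG_WH (PhG_BG x hd Q hQ M i) l) S ε hε
  refine ⟨C, pullG n k F, pullG_excC T hH hg hG' hF, fun P hP y hy X hX hXH hXF ai af hai haf =>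
    ?_⟩
  rw [pullG_eval] at hXF
  have hne : ∀ (τ : Fin q → ℝ) (a : Fin e), (∀ i, ld τ (Q a i) = Q₀ a i) → ∀ i, Q a i ≠ 0 := by
    intro τ a h i h1
    apply (hM a).2.1 i
    rw [← h i, h1]
    unfold ld
    have h2 : partWt τ (mx τ (0 : Pol K N q p n)) (0 : Pol K N q p n) = 0 := by
      unfold partWt
      rw [support_zero, Finset.filter_empty, Finset.sum_empty]
    rw [h2, ← spH_apply, map_zero]
  obtain ⟨-, hmain⟩ := hmain P hP y hy (ver k X) (ver_ne hX) (rw_ker T hG' P y hXH) hXF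
  obtain ⟨h1, h2⟩ := hmain
    (fun v => JxG M t d k (ai v)) (fun v => JxG M t d k (af v))
    (fun v => PhG_indC T ht hd hk hH hg hG' x Q Q₀ hQ τs M P₀ y₀ h₀ hx (ai v) (hM _).2.2 _ (hai v))
    (fun v hv => PhG_indC T ht hd hk hH hg hG' x Q Q₀ hQ τs M P₀ y₀ h₀ hx (af v) (hM _).2.2 _
      (haf v hv))
  rw [ver_height hX] at h2
  have hi : ∀ v : NumberField.InfinitePlace K, _ := fun v =>
    Wa_sum T (x := x) ht hd Q hQ M (hne _ _ (hai v).2) (hM _).1 v.val P y hX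
      (fun i hi => h1 i (Or.inl ⟨v, hi⟩))
  have hf : ∀ v : NumberField.FinitePlace K, v ∈ S → _ := fun v hv =>
    Wa_sum T (x := x) ht hd Q hQ M (hne _ _ (haf v hv).2) (hM _).1 v.val P y hX
      (fun i hi => h1 i (Or.inr ⟨v, hv, hi⟩))
  refine ⟨⟨fun v => (hi v).1, fun v hv => (hf v hv).1⟩, le_trans ?_ h2⟩
  unfold SS
  refine add_le_add (add_le_add ?_ ?_) le_rfl
  · exact Finset.sum_le_sum fun v _ => mul_le_mul_of_nonneg_left (hi v).2 (Nat.cast_nonneg _)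
  · exact Finset.sum_le_sum fun v hv => (hf v hv).2

end

end Pool.Agent.Lib.MP_17a322_nt.VC
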